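import Pool.Agent.H673.PR.Stm

/-!
# The index grid around a point

`pr r a k` : a right object (`r = true`) of index `a` is present at `k` iff `a ≤ k`, a left object
iff `k ≤ a`.
-/

set_option autoImplicit false

namespace Pool.Agent.H673.PR

/-- presence -/
def pr (r : Bool) (a k : ℤ) : Prop := if r = true then a ≤ k else k ≤ a

instance (r : Bool) (a k : ℤ) : Decidable (pr r a k) := by unfold pr; infer_instance

theorem pr_not (r : Bool) (a k m : ℤ) : pr (!r) (m - a) (m - k) ↔ pr r a k := by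
  cases r <;> simp only [pr, Bool.not_true, Bool.not_false, Bool.false_eq_true, if_true, if_false] <;>
    constructor <;> intro h <;> omega

theorem pr_true (a k : ℤ) : pr true a k ↔ a ≤ k := by simp [pr]
theorem pr_false (a k : ℤ) : pr false a k ↔ k ≤ a := by simp [pr]

section oneD

variable {ι : Type*} (S : Finset ι) (r : ι → Bool) (a : ι → ℤ)

/-- number of present objects -/
def mm (k : ℤ) : ℕ := (S.filter (fun e => pr (r e) (a e) k)).card
/-- number of present right objects -/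
def ff (k : ℤ) : ℕ := (S.filter (fun e => r e = true ∧ a e ≤ k)).card
/-- number of present left objects -/
def gg (k : ℤ) : ℕ := (S.filter (fun e => r e = false ∧ k ≤ a e)).card

theorem mm_eq (k : ℤ) : mm S r a k = ff S r a k + gg S r a k := by
  classical
  unfold mm ff gg
  rw [← Finset.card_union_of_disjoint]
  · congr 1
    ext e
    simp only [Finset.mem_filter, Finset.mem_union]
    cases h : r e <;> simp [pr]
  · rw [Finset.disjoint_filter]
    intro e _ h1 h2
    rw [h1.1] at h2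
    exact absurd h2.1 (by simp)

theorem ff_lt {k k' : ℤ} (h : k ≤ k') (hex : ∃ e ∈ S, r e = true ∧ k < a e ∧ a e ≤ k') :
    ff S r a k + 1 ≤ ff S r a k' := by
  classical
  obtain ⟨e, he, h1, h2, h3⟩ := hex
  unfold ff
  rw [← Finset.card_insert_of_notMem (a := e)
    (s := S.filter (fun e => r e = true ∧ a e ≤ k))]
  · apply Finset.card_le_card
    intro x hx
    simp only [Finset.mem_insert, Finset.mem_filter] at hx ⊢
    rcases hx with rfl | hx
    · exact ⟨he, h1, h3⟩
    · exact ⟨hx.1, hx.2.1, by omega⟩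
  · simp only [Finset.mem_filter, not_and, not_le]
    intro _ _; omega

theorem gg_lt {k k' : ℤ} (h : k ≤ k') (hex : ∃ e ∈ S, r e = false ∧ k ≤ a e ∧ a e < k') :
    gg S r a k' + 1 ≤ gg S r a k := by
  classical
  obtain ⟨e, he, h1, h2, h3⟩ := hex
  unfold gg
  rw [← Finset.card_insert_of_notMem (a := e)
    (s := S.filter (fun e => r e = false ∧ k' ≤ a e))]
  · apply Finset.card_le_card
    intro x hx
    simp only [Finset.mem_insert, Finset.mem_filter] at hx ⊢
    rcases hx with rfl | hx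
    · exact ⟨he, h1, h2⟩
    · exact ⟨hx.1, hx.2.1, by omega⟩
  · simp only [Finset.mem_filter, not_and, not_le]
    intro _ _; omega

theorem ff_mono {k k' : ℤ} (h : k ≤ k') : ff S r a k ≤ ff S r a k' := by
  classical
  unfold ff
  apply Finset.card_le_card
  intro x hx
  simp only [Finset.mem_filter] at hx ⊢
  exact ⟨hx.1, hx.2.1, by omega⟩

theorem gg_mono {k k' : ℤ} (h : k ≤ k') : gg S r a k' ≤ gg S r a k := by
  classical
  unfold gg
  apply Finset.card_le_card
  intro x hx
  simp only [Finset.mem_filter] at hx ⊢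
  exact ⟨hx.1, hx.2.1, by omega⟩

/-- window hypotheses in dimension one -/
structure Win (n : ℕ) : Prop where
  vr : ∀ k : ℤ, 2 ≤ k → k ≤ 2 * n → ∃ e ∈ S, r e = true ∧ (a e = k - 1 ∨ a e = k)
  vl : ∀ k : ℤ, 0 ≤ k → k ≤ 2 * n - 2 → ∃ e ∈ S, r e = false ∧ (a e = k ∨ a e = k + 1)

variable {S r a} {n : ℕ}

theorem Win.ff_step (hw : Win S r a n) (k : ℤ) (m : ℕ) (hk : 0 ≤ k) (hm : k + 2 * m ≤ 2 * n) :
    ff S r a k + m ≤ ff S r a (k + 2 * m) := by
  induction m with
  | zero => simp
  | succ m ih =>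
    have h1 := ih (by push_cast at hm; omega)
    obtain ⟨e, he, h2, h3⟩ := hw.vr (k + 2 * m + 2) (by omega) (by push_cast at hm; omega)
    have h4 := ff_lt S r a (k := k + 2 * m) (k' := k + 2 * m + 2) (by omega)
      ⟨e, he, h2, by omega, by omega⟩
    have h5 : k + 2 * ((m + 1 : ℕ) : ℤ) = k + 2 * m + 2 := by push_cast; ring
    rw [h5]; omega

theorem Win.gg_step (hw : Win S r a n) (k : ℤ) (m : ℕ) (hk : 0 ≤ k) (hm : k + 2 * m ≤ 2 * n) :
    gg S r a (k + 2 * m) + m ≤ gg S r a k := by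
  induction m with
  | zero => simp
  | succ m ih =>
    have h1 := ih (by push_cast at hm; omega)
    obtain ⟨e, he, h2, h3⟩ := hw.vl (k + 2 * m) (by omega) (by push_cast at hm; omega)
    have h4 := gg_lt S r a (k := k + 2 * m) (k' := k + 2 * m + 2) (by omega)
      ⟨e, he, h2, by omega, by omega⟩
    have h5 : k + 2 * ((m + 1 : ℕ) : ℤ) = k + 2 * m + 2 := by push_cast; ring
    rw [h5]; omega

theorem Win.ff_step' (hw : Win S r a n) {k k' : ℤ} (hk : 0 ≤ k) (hkk : k ≤ k') (hk' : k' ≤ 2 * n)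
    : ((k' - k) / 2) + ff S r a k ≤ ff S r a k' := by
  obtain ⟨m, hm⟩ := Int.eq_ofNat_of_zero_le (show 0 ≤ (k' - k) / 2 by omega)
  have h1 := hw.ff_step k m hk (by omega)
  have h2 := ff_mono S r a (k := k + 2 * m) (k' := k') (by omega)
  omega

theorem Win.gg_step' (hw : Win S r a n) {k k' : ℤ} (hk : 0 ≤ k) (hkk : k ≤ k') (hk' : k' ≤ 2 * n)
    : ((k' - k) / 2) + gg S r a k' ≤ gg S r a k := by
  obtain ⟨m, hm⟩ := Int.eq_ofNat_of_zero_le (show 0 ≤ (k' - k) / 2 by omega)
  have h1 := hw.gg_step k m hk (by omega)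
  have h2 := gg_mono S r a (k := k + 2 * m) (k' := k') (by omega)
  omega

theorem Win.mm_ge (hw : Win S r a n) {k : ℤ} (hk : 0 ≤ k) (hk' : k ≤ 2 * n) :
    (n : ℤ) ≤ mm S r a k + 1 := by
  have h1 := hw.ff_step' (k := 0) (k' := k) le_rfl hk hk'
  have h2 := hw.gg_step' (k := k) (k' := 2 * n) hk hk' le_rfl
  have h3 := mm_eq S r a k
  omega

theorem Win.mm_ge_even (hw : Win S r a n) {k : ℤ} (hk : 0 ≤ k) (hk' : k ≤ 2 * n)
    (he : k % 2 = 0) : (n : ℤ) ≤ mm S r a k := by
  have h1 := hw.ff_step' (k := 0) (k' := k) le_rfl hk hk'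
  have h2 := hw.gg_step' (k := k) (k' := 2 * n) hk hk' le_rfl
  have h3 := mm_eq S r a k
  omega

/-- parity of the indices of the objects present at a bad odd position -/
theorem Win.parity (hw : Win S r a n) {k : ℤ} (hk : 0 ≤ k) (hk' : k ≤ 2 * n)
    (ho : k % 2 = 1) (hb : (mm S r a k : ℤ) + 1 ≤ n) {e : ι} (he : e ∈ S)
    (hp : pr (r e) (a e) k) : a e % 2 = 0 := by
  by_contra hodd
  have h3 := mm_eq S r a k
  have h1 := hw.ff_step' (k := 0) (k' := k) le_rfl hk hk'
  have h2 := hw.gg_step' (k := k) (k' := 2 * n) hk hk' le_rfl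
  cases hr : r e with
  | true =>
    rw [hr, pr_true] at hp
    by_cases h0 : a e ≤ 0
    · -- then f 0 ≥ 1
      have h4 := ff_lt S r a (k := a e - 1) (k' := 0) (by omega) ⟨e, he, hr, by omega, h0⟩
      omega
    · have h5 := hw.ff_step' (k := 0) (k' := a e - 1) le_rfl (by omega) (by omega)
      have h6 := ff_lt S r a (k := a e - 1) (k' := a e) (by omega) ⟨e, he, hr, by omega, le_rfl⟩
      have h7 := hw.ff_step' (k := a e) (k' := k) (by omega) hp hk'
      omega
  | false =>
    rw [hr, pr_false] at hp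
    by_cases h0 : 2 * n ≤ a e
    · have h4 := gg_lt S r a (k := 2 * n) (k' := a e + 1) (by omega) ⟨e, he, hr, h0, by omega⟩
      omega
    · have h5 := hw.gg_step' (k := a e + 1) (k' := 2 * n) (by omega) (by omega) le_rfl
      have h6 := gg_lt S r a (k := a e) (k' := a e + 1) (by omega) ⟨e, he, hr, le_rfl, by omega⟩
      have h7 := hw.gg_step' (k := k) (k' := a e) hk hp (by omega)
      omega

/-- bad odd positions form an interval -/
theorem Win.interval (hw : Win S r a n) {k1 k2 k3 : ℤ} (h0 : 0 ≤ k1) (h12 : k1 ≤ k2)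
    (h23 : k2 ≤ k3) (h3 : k3 ≤ 2 * n) (o1 : k1 % 2 = 1) (o2 : k2 % 2 = 1) (o3 : k3 % 2 = 1)
    (b1 : (mm S r a k1 : ℤ) + 1 ≤ n) (b3 : (mm S r a k3 : ℤ) + 1 ≤ n) :
    (mm S r a k2 : ℤ) + 1 ≤ n := by
  have e1 := mm_eq S r a k1
  have e2 := mm_eq S r a k2
  have e3 := mm_eq S r a k3
  have f1 := hw.ff_step' (k := 0) (k' := k1) le_rfl h0 (by omega)
  have f3 := hw.gg_step' (k := k3) (k' := 2 * n) (by omega) h3 le_rfl
  have f4 := hw.ff_step' (k := k2) (k' := k3) (by omega) h23 h3
  have f5 := hw.gg_step' (k := k1) (k' := k2) h0 h12 (by omega)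
  omega

end oneD

end Pool.Agent.H673.PR
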