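import Pool.Agent.H673.PR.Cfg

/-!
# The index grid around a point, local facts
-/

set_option autoImplicit false

namespace Pool.Agent.H673.PR

/-- a configuration: objects with horizontal and vertical types and indices -/
structure Cf (ι : Type*) where
  E : Finset ι
  xr : ι → Bool
  a : ι → ℤ
  yr : ι → Bool
  b : ι → ℤ

variable {ι : Type*}

namespace Cf

/-- number of objects present at `(k, l)` -/
def M (C : Cf ι) (k l : ℤ) : ℕ :=
  (C.E.filter (fun e => pr (C.xr e) (C.a e) k ∧ pr (C.yr e) (C.b e) l)).card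

/-- the window conditions -/
structure Ok (C : Cf ι) (n : ℕ) : Prop where
  vr : ∀ k l : ℤ, 2 ≤ k → k ≤ 2 * n → 0 ≤ l → l ≤ 2 * n →
    ∃ e ∈ C.E, C.xr e = true ∧ (C.a e = k - 1 ∨ C.a e = k) ∧ pr (C.yr e) (C.b e) l
  vl : ∀ k l : ℤ, 0 ≤ k → k ≤ 2 * n - 2 → 0 ≤ l → l ≤ 2 * n →
    ∃ e ∈ C.E, C.xr e = false ∧ (C.a e = k ∨ C.a e = k + 1) ∧ pr (C.yr e) (C.b e) l
  hu : ∀ k l : ℤ, 2 ≤ l → l ≤ 2 * n → 0 ≤ k → k ≤ 2 * n →
    ∃ e ∈ C.E, C.yr e = true ∧ (C.b e = l - 1 ∨ C.b e = l) ∧ pr (C.xr e) (C.a e) k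
  hd : ∀ k l : ℤ, 0 ≤ l → l ≤ 2 * n - 2 → 0 ≤ k → k ≤ 2 * n →
    ∃ e ∈ C.E, C.yr e = false ∧ (C.b e = l ∨ C.b e = l + 1) ∧ pr (C.xr e) (C.a e) k

/-- exchange of the axes -/
def swap (C : Cf ι) : Cf ι := ⟨C.E, C.yr, C.b, C.xr, C.a⟩
/-- reflection of the horizontal axis -/
def fx (C : Cf ι) (n : ℕ) : Cf ι := ⟨C.E, fun e => !C.xr e, fun e => 2 * n - C.a e, C.yr, C.b⟩
/-- reflection of the vertical axis -/
def fy (C : Cf ι) (n : ℕ) : Cf ι := ⟨C.E, C.xr, C.a, fun e => !C.yr e, fun e => 2 * n - C.b e⟩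

theorem M_swap (C : Cf ι) (k l : ℤ) : C.swap.M k l = C.M l k := by
  simp only [M, swap, and_comm]

theorem M_fx (C : Cf ι) (n : ℕ) (k l : ℤ) : (C.fx n).M (2 * n - k) l = C.M k l := by
  simp only [M, fx, pr_not]

theorem M_fy (C : Cf ι) (n : ℕ) (k l : ℤ) : (C.fy n).M k (2 * n - l) = C.M k l := by
  simp only [M, fy, pr_not]

variable {C : Cf ι} {n : ℕ}

theorem Ok.swap (h : C.Ok n) : C.swap.Ok n where
  vr := fun k l h1 h2 h3 h4 => h.hu l k h1 h2 h3 h4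
  vl := fun k l h1 h2 h3 h4 => h.hd l k h1 h2 h3 h4
  hu := fun k l h1 h2 h3 h4 => h.vr l k h1 h2 h3 h4
  hd := fun k l h1 h2 h3 h4 => h.vl l k h1 h2 h3 h4

theorem pr_flip (r : Bool) (m x k : ℤ) : pr (!r) (m - x) k ↔ pr r x (m - k) := by
  have := pr_not r x (m - k) m
  rw [show m - (m - k) = k by ring] at this
  exact this

theorem Ok.fx (h : C.Ok n) : (C.fx n).Ok n where
  vr := fun k l h1 h2 h3 h4 => by
    obtain ⟨e, he, h5, h6, h7⟩ := h.vl (2 * n - k) l (by omega) (by omega) h3 h4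
    exact ⟨e, he, by simp [Cf.fx, h5], by simp only [Cf.fx]; omega, h7⟩
  vl := fun k l h1 h2 h3 h4 => by
    obtain ⟨e, he, h5, h6, h7⟩ := h.vr (2 * n - k) l (by omega) (by omega) h3 h4
    exact ⟨e, he, by simp [Cf.fx, h5], by simp only [Cf.fx]; omega, h7⟩
  hu := fun k l h1 h2 h3 h4 => by
    obtain ⟨e, he, h5, h6, h7⟩ := h.hu (2 * n - k) l h1 h2 (by omega) (by omega)
    exact ⟨e, he, h5, h6, (pr_flip _ _ _ _).2 h7⟩
  hd := fun k l h1 h2 h3 h4 => by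
    obtain ⟨e, he, h5, h6, h7⟩ := h.hd (2 * n - k) l h1 h2 (by omega) (by omega)
    exact ⟨e, he, h5, h6, (pr_flip _ _ _ _).2 h7⟩

theorem Ok.fy (h : C.Ok n) : (C.fy n).Ok n where
  hu := fun k l h1 h2 h3 h4 => by
    obtain ⟨e, he, h5, h6, h7⟩ := h.hd k (2 * n - l) (by omega) (by omega) h3 h4
    exact ⟨e, he, by simp [Cf.fy, h5], by simp only [Cf.fy]; omega, h7⟩
  hd := fun k l h1 h2 h3 h4 => by
    obtain ⟨e, he, h5, h6, h7⟩ := h.hu k (2 * n - l) (by omega) (by omega) h3 h4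
    exact ⟨e, he, by simp [Cf.fy, h5], by simp only [Cf.fy]; omega, h7⟩
  vr := fun k l h1 h2 h3 h4 => by
    obtain ⟨e, he, h5, h6, h7⟩ := h.vr k (2 * n - l) h1 h2 (by omega) (by omega)
    exact ⟨e, he, h5, h6, (pr_flip _ _ _ _).2 h7⟩
  vl := fun k l h1 h2 h3 h4 => by
    obtain ⟨e, he, h5, h6, h7⟩ := h.vl k (2 * n - l) h1 h2 (by omega) (by omega)
    exact ⟨e, he, h5, h6, (pr_flip _ _ _ _).2 h7⟩

/-- row `l` satisfies the one-dimensional window conditions -/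
theorem Ok.row (h : C.Ok n) {l : ℤ} (h0 : 0 ≤ l) (h1 : l ≤ 2 * n) :
    Win (C.E.filter (fun e => pr (C.yr e) (C.b e) l)) C.xr C.a n where
  vr := fun k hk hk' => by
    obtain ⟨e, he, h2, h3, h4⟩ := h.vr k l hk hk' h0 h1
    exact ⟨e, Finset.mem_filter.2 ⟨he, h4⟩, h2, h3⟩
  vl := fun k hk hk' => by
    obtain ⟨e, he, h2, h3, h4⟩ := h.vl k l hk hk' h0 h1
    exact ⟨e, Finset.mem_filter.2 ⟨he, h4⟩, h2, h3⟩

theorem M_row (C : Cf ι) (k l : ℤ) :
    C.M k l = mm (C.E.filter (fun e => pr (C.yr e) (C.b e) l)) C.xr C.a k := by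
  classical
  simp only [M, mm, Finset.filter_filter]
  congr 1
  ext e
  simp only [Finset.mem_filter, and_comm]

theorem Ok.M_ge (h : C.Ok n) {k l : ℤ} (hk : 0 ≤ k) (hk' : k ≤ 2 * n) (hl : 0 ≤ l)
    (hl' : l ≤ 2 * n) : (n : ℤ) ≤ C.M k l + 1 := by
  rw [M_row]; exact (h.row hl hl').mm_ge hk hk'

/-- a bad position (odd, odd): fewer than `n` objects present -/
def Bad (C : Cf ι) (n : ℕ) (k l : ℤ) : Prop :=
  0 ≤ k ∧ k ≤ 2 * n ∧ k % 2 = 1 ∧ 0 ≤ l ∧ l ≤ 2 * n ∧ l % 2 = 1 ∧ (C.M k l : ℤ) + 1 ≤ n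

theorem Bad.swap {k l : ℤ} (h : C.Bad n k l) : C.swap.Bad n l k := by
  obtain ⟨h1, h2, h3, h4, h5, h6, h7⟩ := h
  exact ⟨h4, h5, h6, h1, h2, h3, by rw [M_swap]; exact h7⟩

theorem Bad.fx {k l : ℤ} (h : C.Bad n k l) : (C.fx n).Bad n (2 * n - k) l := by
  obtain ⟨h1, h2, h3, h4, h5, h6, h7⟩ := h
  exact ⟨by omega, by omega, by omega, h4, h5, h6, by rw [M_fx]; exact h7⟩

theorem Bad.fy {k l : ℤ} (h : C.Bad n k l) : (C.fy n).Bad n k (2 * n - l) := by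
  obtain ⟨h1, h2, h3, h4, h5, h6, h7⟩ := h
  exact ⟨h1, h2, h3, by omega, by omega, by omega, by rw [M_fy]; exact h7⟩

/-- presence of an object -/
def P (C : Cf ι) (e : ι) (k l : ℤ) : Prop := pr (C.xr e) (C.a e) k ∧ pr (C.yr e) (C.b e) l

theorem Bad.par_x (h : C.Ok n) {k l : ℤ} (hb : C.Bad n k l) {e : ι} (he : e ∈ C.E)
    (hp : C.P e k l) : C.a e % 2 = 0 := by
  obtain ⟨h1, h2, h3, h4, h5, h6, h7⟩ := hb
  rw [M_row] at h7
  exact (h.row h4 h5).parity h1 h2 h3 h7 (Finset.mem_filter.2 ⟨he, hp.2⟩) hp.1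

theorem Bad.par_y (h : C.Ok n) {k l : ℤ} (hb : C.Bad n k l) {e : ι} (he : e ∈ C.E)
    (hp : C.P e k l) : C.b e % 2 = 0 :=
  Bad.par_x (C := C.swap) h.swap hb.swap he ⟨hp.2, hp.1⟩

theorem Ok.intervalX (h : C.Ok n) {k1 k2 k3 l : ℤ} (h12 : k1 ≤ k2) (h23 : k2 ≤ k3)
    (ho : k2 % 2 = 1) (b1 : C.Bad n k1 l) (b3 : C.Bad n k3 l) : C.Bad n k2 l := by
  obtain ⟨g1, g2, g3, g4, g5, g6, g7⟩ := b1
  obtain ⟨q1, q2, q3, q4, q5, q6, q7⟩ := b3
  refine ⟨by omega, by omega, ho, g4, g5, g6, ?_⟩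
  rw [M_row] at g7 q7 ⊢
  exact (h.row g4 g5).interval g1 h12 h23 q2 g3 ho q3 g7 q7

theorem Ok.intervalY (h : C.Ok n) {k l1 l2 l3 : ℤ} (h12 : l1 ≤ l2) (h23 : l2 ≤ l3)
    (ho : l2 % 2 = 1) (b1 : C.Bad n k l1) (b3 : C.Bad n k l3) : C.Bad n k l2 := by
  have := (h.swap.intervalX h12 h23 ho b1.swap b3.swap).swap
  exact this

/-- neighbours of a bad position: everything present stays present; two new objects make
the number at least `n + 1` -/
theorem Bad.corner2 (h : C.Ok n) {k l k' l' : ℤ} (hb : C.Bad n k l)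
    (hk : k' = k - 1 ∨ k' = k + 1) (hl : l' = l - 1 ∨ l' = l + 1)
    {e1 e2 : ι} (he1 : e1 ∈ C.E) (he2 : e2 ∈ C.E) (hne : e1 ≠ e2)
    (p1 : C.P e1 k' l') (p2 : C.P e2 k' l') (q1 : ¬ C.P e1 k l) (q2 : ¬ C.P e2 k l) :
    (n : ℤ) + 1 ≤ C.M k' l' := by
  classical
  have hge := h.M_ge hb.1 hb.2.1 hb.2.2.2.1 hb.2.2.2.2.1
  set S := C.E.filter (fun e => pr (C.xr e) (C.a e) k ∧ pr (C.yr e) (C.b e) l) with hS
  have hsub : insert e1 (insert e2 S) ⊆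
      C.E.filter (fun e => pr (C.xr e) (C.a e) k' ∧ pr (C.yr e) (C.b e) l') := by
    intro x hx
    simp only [Finset.mem_insert, hS, Finset.mem_filter] at hx ⊢
    rcases hx with rfl | rfl | hx
    · exact ⟨he1, p1⟩
    · exact ⟨he2, p2⟩
    · have ha := hb.par_x h hx.1 ⟨hx.2.1, hx.2.2⟩
      have hbb := hb.par_y h hx.1 ⟨hx.2.1, hx.2.2⟩
      have o1 := hb.2.2.1
      have o2 := hb.2.2.2.2.2.1
      refine ⟨hx.1, ?_, ?_⟩
      · have := hx.2.1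
        cases hr : C.xr x <;> rw [hr] at this <;> simp only [pr_true, pr_false] at this ⊢ <;>
          omega
      · have := hx.2.2
        cases hr : C.yr x <;> rw [hr] at this <;> simp only [pr_true, pr_false] at this ⊢ <;>
          omega
  have hcard := Finset.card_le_card hsub
  have n2 : e2 ∉ S := by
    simp only [hS, Finset.mem_filter, not_and]
    intro _ h3 h4; exact q2 ⟨h3, h4⟩
  have n1 : e1 ∉ insert e2 S := by
    simp only [Finset.mem_insert, hS, Finset.mem_filter, not_or, not_and]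
    exact ⟨hne, fun _ h3 h4 => q1 ⟨h3, h4⟩⟩
  rw [Finset.card_insert_of_notMem n1, Finset.card_insert_of_notMem n2] at hcard
  have hM : C.M k l = S.card := rfl
  have hM' : C.M k' l' =
    (C.E.filter (fun e => pr (C.xr e) (C.a e) k' ∧ pr (C.yr e) (C.b e) l')).card := rfl
  omega

/-- the right side object of a bad position -/
theorem Bad.gR (h : C.Ok n) {k l : ℤ} (hb : C.Bad n k l) :
    ∃ e ∈ C.E, C.xr e = true ∧ C.a e = k + 1 ∧ pr (C.yr e) (C.b e) l := by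
  have o1 := hb.2.2.1
  have o3 := hb.1
  have o4 := hb.2.1
  obtain ⟨e, he, h1, h2, h3⟩ := h.vr (k + 1) l (by omega) (by omega) hb.2.2.2.1 hb.2.2.2.2.1
  refine ⟨e, he, h1, ?_, h3⟩
  by_contra hne
  have : C.a e % 2 = 0 := hb.par_x h he ⟨by rw [h1, pr_true]; omega, h3⟩
  omega

theorem Bad.gL (h : C.Ok n) {k l : ℤ} (hb : C.Bad n k l) :
    ∃ e ∈ C.E, C.xr e = false ∧ C.a e = k - 1 ∧ pr (C.yr e) (C.b e) l := by
  have o1 := hb.2.2.1
  have o3 := hb.1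
  have o4 := hb.2.1
  obtain ⟨e, he, h1, h2, h3⟩ := h.vl (k - 1) l (by omega) (by omega) hb.2.2.2.1 hb.2.2.2.2.1
  refine ⟨e, he, h1, ?_, h3⟩
  by_contra hne
  have : C.a e % 2 = 0 := hb.par_x h he ⟨by rw [h1, pr_false]; omega, h3⟩
  omega

theorem Bad.gU (h : C.Ok n) {k l : ℤ} (hb : C.Bad n k l) :
    ∃ e ∈ C.E, C.yr e = true ∧ C.b e = l + 1 ∧ pr (C.xr e) (C.a e) k :=
  Bad.gR (C := C.swap) h.swap hb.swap

theorem Bad.gD (h : C.Ok n) {k l : ℤ} (hb : C.Bad n k l) :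
    ∃ e ∈ C.E, C.yr e = false ∧ C.b e = l - 1 ∧ pr (C.xr e) (C.a e) k :=
  Bad.gL (C := C.swap) h.swap hb.swap

/-- upper end of a shared vertical side -/
theorem Bad.shareUp (h : C.Ok n) {k l : ℤ} (hb : C.Bad n k l) (hb2 : C.Bad n (k + 2) l) :
    (n : ℤ) + 1 ≤ C.M (k + 1) (l + 1) := by
  have o1 := hb.2.2.1
  have o2 := hb.2.2.2.2.2.1
  have o3 := hb.1
  have o4 := hb2.2.1
  have o5 := hb.2.2.2.1
  have o6 := hb.2.2.2.2.1
  obtain ⟨e1, he1, h1, h2, h3⟩ := hb.gR h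
  have e1b : C.b e1 % 2 = 0 := hb2.par_y h he1 ⟨by rw [h1, pr_true]; omega, h3⟩
  obtain ⟨e2, he2, h4, h5, h6⟩ := h.hu (k + 1) (l + 1) (by omega) (by omega) (by omega) (by omega)
  have h5' : C.b e2 = l + 1 := by
    rcases h5 with h5 | h5
    · exfalso
      cases hx : C.xr e2 with
      | true =>
        rw [hx, pr_true] at h6
        have := hb2.par_y h he2 ⟨by rw [hx, pr_true]; omega, by rw [h4, pr_true]; omega⟩
        omega
      | false =>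
        rw [hx, pr_false] at h6
        have := hb.par_y h he2 ⟨by rw [hx, pr_false]; omega, by rw [h4, pr_true]; omega⟩
        omega
    · exact h5
  refine hb.corner2 h (Or.inr rfl) (Or.inr rfl) he1 he2 ?_ ⟨by rw [h1, pr_true]; omega, ?_⟩
    ⟨h6, by rw [h4, pr_true]; omega⟩ ?_ ?_
  · rintro rfl
    rw [h4, pr_true] at h3
    omega
  · cases hy : C.yr e1 <;> rw [hy] at h3 <;> simp only [pr_true, pr_false] at h3 ⊢ <;> omega
  · rintro ⟨h7, _⟩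
    rw [h1, pr_true] at h7; omega
  · rintro ⟨_, h7⟩
    rw [h4, pr_true] at h7; omega

theorem Bad.shareDown (h : C.Ok n) {k l : ℤ} (hb : C.Bad n k l) (hb2 : C.Bad n (k + 2) l) :
    (n : ℤ) + 1 ≤ C.M (k + 1) (l - 1) := by
  have := Bad.shareUp h.fy hb.fy hb2.fy
  rw [show 2 * (n : ℤ) - l + 1 = 2 * n - (l - 1) by ring, M_fy] at this
  exact this

theorem Bad.shareRight (h : C.Ok n) {k l : ℤ} (hb : C.Bad n k l) (hb2 : C.Bad n k (l + 2)) :
    (n : ℤ) + 1 ≤ C.M (k + 1) (l + 1) := by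
  have := Bad.shareUp h.swap hb.swap hb2.swap
  rw [M_swap] at this
  exact this

theorem Bad.shareLeft (h : C.Ok n) {k l : ℤ} (hb : C.Bad n k l) (hb2 : C.Bad n k (l + 2)) :
    (n : ℤ) + 1 ≤ C.M (k - 1) (l + 1) := by
  have := Bad.shareDown h.swap hb.swap hb2.swap
  rw [M_swap] at this
  exact this

/-- bad south-west: the left side object stays present one step up -/
theorem Bad.qL (h : C.Ok n) {k l k2 l2 : ℤ} (hb : C.Bad n k l) (hb2 : C.Bad n k2 l2)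
    (hk : k2 < k) (hl : l2 < l) {e : ι} (he : e ∈ C.E) (h1 : C.xr e = false)
    (h2 : C.a e = k - 1) (h3 : pr (C.yr e) (C.b e) l) : pr (C.yr e) (C.b e) (l + 1) := by
  have o2 := hb.2.2.2.2.2.1
  cases hy : C.yr e with
  | true => rw [hy, pr_true] at h3; rw [pr_true]; omega
  | false =>
    rw [hy, pr_false] at h3
    rw [pr_false]
    by_contra hc
    have := hb2.par_y h he ⟨by rw [h1, pr_false]; omega, by rw [hy, pr_false]; omega⟩
    omega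

/-- `t1`: bad south-west and north-east: the north-west corner is good -/
theorem Bad.t1a (h : C.Ok n) {k l k2 l2 k3 l3 : ℤ} (hb : C.Bad n k l) (hb2 : C.Bad n k2 l2)
    (hk : k2 < k) (hl : l2 < l) (hb3 : C.Bad n k3 l3) (hk3 : k < k3) (hl3 : l < l3) :
    (n : ℤ) + 1 ≤ C.M (k - 1) (l + 1) := by
  obtain ⟨e1, he1, h1, h2, h3⟩ := hb.gL h
  have h4 := hb.qL h hb2 hk hl he1 h1 h2 h3
  obtain ⟨e2, he2, h5, h6, h7⟩ := hb.gU h
  have o1 := hb.2.2.1
  have h8 : pr (C.xr e2) (C.a e2) (k - 1) := by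
    cases hx : C.xr e2 with
    | false => rw [hx, pr_false] at h7; rw [pr_false]; omega
    | true =>
      rw [hx, pr_true] at h7
      rw [pr_true]
      by_contra hc
      have := hb3.par_x h he2 ⟨by rw [hx, pr_true]; omega, by rw [h5, pr_true]; omega⟩
      omega
  refine hb.corner2 h (Or.inl rfl) (Or.inr rfl) he1 he2 ?_ ⟨by rw [h1, pr_false]; omega, h4⟩
    ⟨h8, by rw [h5, pr_true]; omega⟩ ?_ ?_
  · rintro rfl
    rw [h5, pr_true] at h3; omega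
  · rintro ⟨h9, _⟩
    rw [h1, pr_false] at h9; omega
  · rintro ⟨_, h9⟩
    rw [h5, pr_true] at h9; omega

/-- `t1`, second half: the south-east corner is good -/
theorem Bad.t1b (h : C.Ok n) {k l k2 l2 k3 l3 : ℤ} (hb : C.Bad n k l) (hb2 : C.Bad n k2 l2)
    (hk : k2 < k) (hl : l2 < l) (hb3 : C.Bad n k3 l3) (hk3 : k < k3) (hl3 : l < l3) :
    (n : ℤ) + 1 ≤ C.M (k + 1) (l - 1) := by
  have := Bad.t1a h.swap hb.swap hb2.swap hl hk hb3.swap hl3 hk3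
  rw [M_swap] at this
  exact this

/-- If some bad position lies strictly south-west and the left side object is still present one
step down, the south-west corner is good. -/
theorem Bad.sw_good (h : C.Ok n) {k l k2 l2 : ℤ} (hb : C.Bad n k l) (hb2 : C.Bad n k2 l2)
    (hk : k2 < k) (hl : l2 < l) {e1 : ι} (he1 : e1 ∈ C.E) (h1 : C.xr e1 = false)
    (h2 : C.a e1 = k - 1) (h3 : pr (C.yr e1) (C.b e1) l) (h4 : pr (C.yr e1) (C.b e1) (l - 1)) :
    (n : ℤ) + 1 ≤ C.M (k - 1) (l - 1) := by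
  have o1 := hb.2.2.1
  have o2 := hb.2.2.2.2.2.1
  have o3 := hb.1
  have o4 := hb.2.1
  have o5 := hb.2.2.2.1
  have o6 := hb.2.2.2.2.1
  obtain ⟨e, he, h5, h6, h7⟩ := h.hd (k - 1) (l - 1) (by omega) (by omega) (by omega) (by omega)
  have h6' : C.b e = l - 1 := by
    rcases h6 with h6 | h6
    · exact h6
    · exfalso
      have h6 : C.b e = l := by omega
      cases hx : C.xr e with
      | true =>
        rw [hx, pr_true] at h7
        have := hb.par_y h he ⟨by rw [hx, pr_true]; omega, by rw [h5, pr_false]; omega⟩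
        omega
      | false =>
        rw [hx, pr_false] at h7
        have := hb2.par_y h he ⟨by rw [hx, pr_false]; omega, by rw [h5, pr_false]; omega⟩
        omega
  refine hb.corner2 h (Or.inl rfl) (Or.inl rfl) he1 he ?_ ⟨by rw [h1, pr_false]; omega, h4⟩
    ⟨h7, by rw [h5, pr_false]; omega⟩ ?_ ?_
  · rintro rfl
    rw [h5, pr_false] at h3; omega
  · rintro ⟨h9, _⟩
    rw [h1, pr_false] at h9; omega
  · rintro ⟨_, h9⟩
    rw [h5, pr_false] at h9; omega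

/-- `t3`: bad south-west and north-west: the south-west corner is good -/
theorem Bad.t3a (h : C.Ok n) {k l k2 l2 k3 l3 : ℤ} (hb : C.Bad n k l) (hb2 : C.Bad n k2 l2)
    (hk : k2 < k) (hl : l2 < l) (hb3 : C.Bad n k3 l3) (hk3 : k3 < k) (hl3 : l < l3) :
    (n : ℤ) + 1 ≤ C.M (k - 1) (l - 1) := by
  have o2 := hb.2.2.2.2.2.1
  obtain ⟨e1, he1, h1, h2, h3⟩ := hb.gL h
  refine hb.sw_good h hb2 hk hl he1 h1 h2 h3 ?_
  cases hy : C.yr e1 with
  | false => rw [hy, pr_false] at h3; rw [pr_false]; omega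
  | true =>
    rw [hy, pr_true] at h3
    rw [pr_true]
    by_contra hc
    have := hb3.par_y h he1 ⟨by rw [h1, pr_false]; omega, by rw [hy, pr_true]; omega⟩
    omega

/-- `t3`, second half -/
theorem Bad.t3b (h : C.Ok n) {k l k2 l2 k3 l3 : ℤ} (hb : C.Bad n k l) (hb2 : C.Bad n k2 l2)
    (hk : k2 < k) (hl : l2 < l) (hb3 : C.Bad n k3 l3) (hk3 : k3 < k) (hl3 : l < l3) :
    (n : ℤ) + 1 ≤ C.M (k - 1) (l + 1) := by
  have := Bad.t3a h.fy hb.fy hb3.fy hk3 (by omega) hb2.fy hk (by omega)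
  rw [show 2 * (n : ℤ) - l - 1 = 2 * n - (l + 1) by ring, M_fy] at this
  exact this

/-- the structure at a south-west corner that is not good -/
theorem Bad.tight (h : C.Ok n) {k l k2 l2 : ℤ} (hb : C.Bad n k l) (hb2 : C.Bad n k2 l2)
    (hk : k2 < k) (hl : l2 < l) (ht : ¬ (n : ℤ) + 1 ≤ C.M (k - 1) (l - 1)) :
    ∃ e ∈ C.E, C.xr e = false ∧ C.a e = k - 1 ∧ C.yr e = true ∧ C.b e = l := by
  obtain ⟨e1, he1, h1, h2, h3⟩ := hb.gL h
  have h4 : ¬ pr (C.yr e1) (C.b e1) (l - 1) := fun h4 =>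
    ht (hb.sw_good h hb2 hk hl he1 h1 h2 h3 h4)
  refine ⟨e1, he1, h1, h2, ?_⟩
  cases hy : C.yr e1 with
  | false => rw [hy, pr_false] at h3 h4; omega
  | true => rw [hy, pr_true] at h3 h4; exact ⟨rfl, by omega⟩

theorem Bad.tight' (h : C.Ok n) {k l k2 l2 : ℤ} (hb : C.Bad n k l) (hb2 : C.Bad n k2 l2)
    (hk : k2 < k) (hl : l2 < l) (ht : ¬ (n : ℤ) + 1 ≤ C.M (k - 1) (l - 1)) :
    ∃ e ∈ C.E, C.yr e = false ∧ C.b e = l - 1 ∧ C.xr e = true ∧ C.a e = k :=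
  Bad.tight (C := C.swap) h.swap hb.swap hb2.swap hl hk (by rw [M_swap]; exact ht)

theorem Bad.no_nw (h : C.Ok n) {k l k2 l2 k3 l3 : ℤ} (hb : C.Bad n k l) (hb2 : C.Bad n k2 l2)
    (hk : k2 < k) (hl : l2 < l) (ht : ¬ (n : ℤ) + 1 ≤ C.M (k - 1) (l - 1))
    (hb3 : C.Bad n k3 l3) (hk3 : k3 < k) (hl3 : l < l3) : False :=
  ht (hb.t3a h hb2 hk hl hb3 hk3 hl3)

theorem Bad.no_se (h : C.Ok n) {k l k2 l2 k3 l3 : ℤ} (hb : C.Bad n k l) (hb2 : C.Bad n k2 l2)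
    (hk : k2 < k) (hl : l2 < l) (ht : ¬ (n : ℤ) + 1 ≤ C.M (k - 1) (l - 1))
    (hb3 : C.Bad n k3 l3) (hk3 : k < k3) (hl3 : l3 < l) : False :=
  Bad.no_nw (C := C.swap) h.swap hb.swap hb2.swap hl hk (by rw [M_swap]; exact ht) hb3.swap hl3 hk3

/-- one of the other three corners is good, the last one in a strong form -/
theorem Bad.other (h : C.Ok n) {k l k2 l2 : ℤ} (hb : C.Bad n k l) (hb2 : C.Bad n k2 l2)
    (hk : k2 < k) (hl : l2 < l) (ht : ¬ (n : ℤ) + 1 ≤ C.M (k - 1) (l - 1)) :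
    (n : ℤ) + 1 ≤ C.M (k - 1) (l + 1) ∨ (n : ℤ) + 1 ≤ C.M (k + 1) (l - 1) ∨
      ((n : ℤ) + 1 ≤ C.M (k + 1) (l + 1) ∧ ∃ e1 ∈ C.E, ∃ e2 ∈ C.E, e1 ≠ e2 ∧
        (C.xr e1 = true ∧ C.a e1 = k ∧ C.yr e1 = true ∧ C.b e1 = l + 1) ∧
        (C.xr e2 = true ∧ C.a e2 = k + 1 ∧ C.yr e2 = true ∧ C.b e2 = l)) := by
  obtain ⟨e, he, h1, h2, h3, h4⟩ := hb.tight h hb2 hk hl ht
  obtain ⟨d, hd, g1, g2, g3, g4⟩ := hb.tight' h hb2 hk hl ht
  obtain ⟨u, hu, u1, u2, u3⟩ := hb.gU h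
  obtain ⟨r, hr, r1, r2, r3⟩ := hb.gR h
  by_cases c1 : pr (C.xr u) (C.a u) (k - 1)
  · left
    refine hb.corner2 h (Or.inl rfl) (Or.inr rfl) he hu ?_
      ⟨by rw [h1, pr_false]; omega, by rw [h3, pr_true]; omega⟩
      ⟨c1, by rw [u1, pr_true]; omega⟩ ?_ ?_
    · rintro rfl; omega
    · rintro ⟨h9, _⟩
      rw [h1, pr_false] at h9; omega
    · rintro ⟨_, h9⟩
      rw [u1, pr_true] at h9; omega
  by_cases c2 : pr (C.yr r) (C.b r) (l - 1)
  · right; left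
    refine hb.corner2 h (Or.inr rfl) (Or.inl rfl) hd hr ?_
      ⟨by rw [g3, pr_true]; omega, by rw [g1, pr_false]; omega⟩
      ⟨by rw [r1, pr_true]; omega, c2⟩ ?_ ?_
    · rintro rfl; omega
    · rintro ⟨_, h9⟩
      rw [g1, pr_false] at h9; omega
    · rintro ⟨h9, _⟩
      rw [r1, pr_true] at h9; omega
  · right; right
    have u4 : C.xr u = true ∧ C.a u = k := by
      cases hx : C.xr u with
      | false => rw [hx, pr_false] at u3 c1; omega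
      | true => rw [hx, pr_true] at u3 c1; exact ⟨rfl, by omega⟩
    have r4 : C.yr r = true ∧ C.b r = l := by
      cases hx : C.yr r with
      | false => rw [hx, pr_false] at r3 c2; omega
      | true => rw [hx, pr_true] at r3 c2; exact ⟨rfl, by omega⟩
    have hne : u ≠ r := by rintro rfl; omega
    refine ⟨hb.corner2 h (Or.inr rfl) (Or.inr rfl) hu hr hne
      ⟨by rw [u4.1, pr_true]; omega, by rw [u1, pr_true]; omega⟩
      ⟨by rw [r1, pr_true]; omega, by rw [r4.1, pr_true]; omega⟩ ?_ ?_,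
      u, hu, r, hr, hne, ⟨u4.1, u4.2, u1, u2⟩, ⟨r1, r2, r4.1, r4.2⟩⟩
    · rintro ⟨_, h9⟩
      rw [u1, pr_true] at h9; omega
    · rintro ⟨h9, _⟩
      rw [r1, pr_true] at h9; omega

end Cf

end Pool.Agent.H673.PR
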