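import Pool.Agent.H673.PR.Cfg2

/-!
# From the index grid to the grid lemma
-/

set_option autoImplicit false

namespace Pool.Agent.H673.PR

variable {ι : Type*}

namespace Cf

variable {C : Cf ι} {n : ℕ}

theorem fx_sub (k l : ℤ) : (C.fx n).M (2 * n - k - 1) l = C.M (k + 1) l := by
  rw [show 2 * (n : ℤ) - k - 1 = 2 * n - (k + 1) by ring, M_fx]
theorem fx_add (k l : ℤ) : (C.fx n).M (2 * n - k + 1) l = C.M (k - 1) l := by
  rw [show 2 * (n : ℤ) - k + 1 = 2 * n - (k - 1) by ring, M_fx]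
theorem fy_sub (k l : ℤ) : (C.fy n).M k (2 * n - l - 1) = C.M k (l + 1) := by
  rw [show 2 * (n : ℤ) - l - 1 = 2 * n - (l + 1) by ring, M_fy]
theorem fy_add (k l : ℤ) : (C.fy n).M k (2 * n - l + 1) = C.M k (l - 1) := by
  rw [show 2 * (n : ℤ) - l + 1 = 2 * n - (l - 1) by ring, M_fy]

/-- version of `Bad.other` for a bad position strictly south-east -/
theorem Bad.other_SE (h : C.Ok n) {k l k2 l2 : ℤ} (hb : C.Bad n k l) (hb2 : C.Bad n k2 l2)
    (hk : k < k2) (hl : l2 < l) (ht : ¬ (n : ℤ) + 1 ≤ C.M (k + 1) (l - 1)) :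
    (n : ℤ) + 1 ≤ C.M (k + 1) (l + 1) ∨ (n : ℤ) + 1 ≤ C.M (k - 1) (l - 1) ∨
      ((n : ℤ) + 1 ≤ C.M (k - 1) (l + 1) ∧ ∃ e1 ∈ C.E, ∃ e2 ∈ C.E, e1 ≠ e2 ∧
        (C.xr e1 = false ∧ C.a e1 = k ∧ C.yr e1 = true ∧ C.b e1 = l + 1) ∧
        (C.xr e2 = false ∧ C.a e2 = k - 1 ∧ C.yr e2 = true ∧ C.b e2 = l)) := by
  have := Bad.other h.fx hb.fx hb2.fx (by omega) hl (by rw [fx_sub]; exact ht)
  rw [fx_sub, fx_add, fx_add] at this
  rcases this with h1 | h1 | ⟨h1, e1, he1, e2, he2, hne, ⟨a1, a2, a3, a4⟩, ⟨b1, b2, b3, b4⟩⟩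
  · exact Or.inl h1
  · exact Or.inr (Or.inl h1)
  · refine Or.inr (Or.inr ⟨h1, e1, he1, e2, he2, hne, ⟨?_, ?_, a3, a4⟩, ⟨?_, ?_, b3, b4⟩⟩)
    · simpa [Cf.fx] using a1
    · simp only [Cf.fx] at a2; omega
    · simpa [Cf.fx] using b1
    · simp only [Cf.fx] at b2; omega

/-- version of `Bad.other` for a bad position strictly north-west -/
theorem Bad.other_NW (h : C.Ok n) {k l k2 l2 : ℤ} (hb : C.Bad n k l) (hb2 : C.Bad n k2 l2)
    (hk : k2 < k) (hl : l < l2) (ht : ¬ (n : ℤ) + 1 ≤ C.M (k - 1) (l + 1)) :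
    (n : ℤ) + 1 ≤ C.M (k - 1) (l - 1) ∨ (n : ℤ) + 1 ≤ C.M (k + 1) (l + 1) ∨
      ((n : ℤ) + 1 ≤ C.M (k + 1) (l - 1) ∧ ∃ e1 ∈ C.E, ∃ e2 ∈ C.E, e1 ≠ e2 ∧
        (C.xr e1 = true ∧ C.a e1 = k ∧ C.yr e1 = false ∧ C.b e1 = l - 1) ∧
        (C.xr e2 = true ∧ C.a e2 = k + 1 ∧ C.yr e2 = false ∧ C.b e2 = l)) := by
  have := Bad.other h.fy hb.fy hb2.fy hk (by omega) (by rw [fy_sub]; exact ht)
  rw [fy_sub, fy_add, fy_add] at this
  rcases this with h1 | h1 | ⟨h1, e1, he1, e2, he2, hne, ⟨a1, a2, a3, a4⟩, ⟨b1, b2, b3, b4⟩⟩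
  · exact Or.inl h1
  · exact Or.inr (Or.inl h1)
  · refine Or.inr (Or.inr ⟨h1, e1, he1, e2, he2, hne, ⟨a1, a2, ?_, ?_⟩, ⟨b1, b2, ?_, ?_⟩⟩)
    · simpa [Cf.fy] using a3
    · simp only [Cf.fy] at a4; omega
    · simpa [Cf.fy] using b3
    · simp only [Cf.fy] at b4; omega

/-- version of `Bad.other` for a bad position strictly north-east -/
theorem Bad.other_NE (h : C.Ok n) {k l k2 l2 : ℤ} (hb : C.Bad n k l) (hb2 : C.Bad n k2 l2)
    (hk : k < k2) (hl : l < l2) (ht : ¬ (n : ℤ) + 1 ≤ C.M (k + 1) (l + 1)) :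
    (n : ℤ) + 1 ≤ C.M (k + 1) (l - 1) ∨ (n : ℤ) + 1 ≤ C.M (k - 1) (l + 1) ∨
      ((n : ℤ) + 1 ≤ C.M (k - 1) (l - 1) ∧ ∃ e1 ∈ C.E, ∃ e2 ∈ C.E, e1 ≠ e2 ∧
        (C.xr e1 = false ∧ C.a e1 = k ∧ C.yr e1 = false ∧ C.b e1 = l - 1) ∧
        (C.xr e2 = false ∧ C.a e2 = k - 1 ∧ C.yr e2 = false ∧ C.b e2 = l)) := by
  have := Bad.other_SE h.fy hb.fy hb2.fy hk (by omega) (by rw [fy_sub]; exact ht)
  rw [fy_sub, fy_add, fy_add] at this
  rcases this with h1 | h1 | ⟨h1, e1, he1, e2, he2, hne, ⟨a1, a2, a3, a4⟩, ⟨b1, b2, b3, b4⟩⟩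
  · exact Or.inl h1
  · exact Or.inr (Or.inl h1)
  · refine Or.inr (Or.inr ⟨h1, e1, he1, e2, he2, hne, ⟨a1, a2, ?_, ?_⟩, ⟨b1, b2, ?_, ?_⟩⟩)
    · simpa [Cf.fy] using a3
    · simp only [Cf.fy] at a4; omega
    · simpa [Cf.fy] using b3
    · simp only [Cf.fy] at b4; omega

/-- hypotheses on the weights -/
structure WOk (C : Cf ι) (n : ℕ) (W : ℤ → ℤ → ℕ) : Prop where
  w2 : ∀ i j : ℤ, (n : ℤ) + 1 ≤ C.M (2 * i) (2 * j) → 1 ≤ i → i < n → 1 ≤ j → j < n → 2 ≤ W i j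
  w1x : ∀ i j : ℤ, (n : ℤ) + 1 ≤ C.M (2 * i) (2 * j) → 1 ≤ i → i < n → 0 ≤ j → j ≤ n → 1 ≤ W i j
  w1y : ∀ i j : ℤ, (n : ℤ) + 1 ≤ C.M (2 * i) (2 * j) → 0 ≤ i → i ≤ n → 1 ≤ j → j < n → 1 ≤ W i j
  c11 : (n : ℤ) + 1 ≤ C.M (2 * n) (2 * n) → ∀ e1 ∈ C.E, ∀ e2 ∈ C.E, e1 ≠ e2 →
    (C.xr e1 = true ∧ C.a e1 = 2 * n - 1 ∧ C.yr e1 = true ∧ C.b e1 = 2 * n) →
    (C.xr e2 = true ∧ C.a e2 = 2 * n ∧ C.yr e2 = true ∧ C.b e2 = 2 * n - 1) → 1 ≤ W n n
  c01 : (n : ℤ) + 1 ≤ C.M 0 (2 * n) → ∀ e1 ∈ C.E, ∀ e2 ∈ C.E, e1 ≠ e2 →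
    (C.xr e1 = false ∧ C.a e1 = 1 ∧ C.yr e1 = true ∧ C.b e1 = 2 * n) →
    (C.xr e2 = false ∧ C.a e2 = 0 ∧ C.yr e2 = true ∧ C.b e2 = 2 * n - 1) → 1 ≤ W 0 n
  c10 : (n : ℤ) + 1 ≤ C.M (2 * n) 0 → ∀ e1 ∈ C.E, ∀ e2 ∈ C.E, e1 ≠ e2 →
    (C.xr e1 = true ∧ C.a e1 = 2 * n - 1 ∧ C.yr e1 = false ∧ C.b e1 = 0) →
    (C.xr e2 = true ∧ C.a e2 = 2 * n ∧ C.yr e2 = false ∧ C.b e2 = 1) → 1 ≤ W n 0
  c00 : (n : ℤ) + 1 ≤ C.M 0 0 → ∀ e1 ∈ C.E, ∀ e2 ∈ C.E, e1 ≠ e2 →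
    (C.xr e1 = false ∧ C.a e1 = 1 ∧ C.yr e1 = false ∧ C.b e1 = 0) →
    (C.xr e2 = false ∧ C.a e2 = 0 ∧ C.yr e2 = false ∧ C.b e2 = 1) → 1 ≤ W 0 0

/-- marked cells -/
def BB (C : Cf ι) (n : ℕ) (i j : ℤ) : Prop := C.Bad n (2 * i + 1) (2 * j + 1)
/-- marked vertices -/
def GG (C : Cf ι) (n : ℕ) (i j : ℤ) : Prop := (n : ℤ) + 1 ≤ C.M (2 * i) (2 * j)

theorem vadd (i : ℤ) : 2 * i + 1 + 1 = 2 * (i + 1) := by ring
theorem vsub (i : ℤ) : 2 * i + 1 - 1 = 2 * i := by ring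

theorem poly_of (h : C.Ok n) {W : ℤ → ℤ → ℕ} (hW : C.WOk n W) :
    Poly n (C.BB n) (C.GG n) W where
  rng := fun i j hb => by
    obtain ⟨h1, h2, h3, h4, h5, h6, h7⟩ := hb
    omega
  row := fun i i' i'' j b1 b3 h1 h2 => h.intervalX (by omega) (by omega) (by omega) b1 b3
  col := fun i j j' j'' b1 b3 h1 h2 => h.intervalY (by omega) (by omega) (by omega) b1 b3
  wt2 := fun i j hg => hW.w2 i j hg
  wt1x := fun i j hg => hW.w1x i j hg
  wt1y := fun i j hg => hW.w1y i j hg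
  eh := fun i j hb hb2 => by
    have hb2' : C.Bad n (2 * i + 1 + 2) (2 * j + 1) := by
      rw [show 2 * i + 1 + 2 = 2 * (i + 1) + 1 by ring]; exact hb2
    have h1 := hb.shareUp h hb2'
    have h2 := hb.shareDown h hb2'
    rw [vadd, vadd] at h1
    rw [vadd, vsub] at h2
    exact ⟨h2, h1⟩
  ev := fun i j hb hb2 => by
    have hb2' : C.Bad n (2 * i + 1) (2 * j + 1 + 2) := by
      rw [show 2 * j + 1 + 2 = 2 * (j + 1) + 1 by ring]; exact hb2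
    have h1 := hb.shareRight h hb2'
    have h2 := hb.shareLeft h hb2'
    rw [vadd, vadd] at h1
    rw [vsub, vadd] at h2
    exact ⟨h2, h1⟩
  t1 := fun i j hb ⟨i2, j2, h1, h2, hb2⟩ ⟨i3, j3, h3, h4, hb3⟩ => by
    have a1 := hb.t1a h hb2 (by omega) (by omega) hb3 (by omega) (by omega)
    have a2 := hb.t1b h hb2 (by omega) (by omega) hb3 (by omega) (by omega)
    rw [vsub, vadd] at a1
    rw [vadd, vsub] at a2
    exact ⟨a1, a2⟩
  t2 := fun i j hb ⟨i2, j2, h1, h2, hb2⟩ ⟨i3, j3, h3, h4, hb3⟩ => by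
    have a1 := Bad.t1a h.fx hb.fx hb2.fx (by omega) (by omega) hb3.fx (by omega) (by omega)
    have a2 := Bad.t1b h.fx hb.fx hb2.fx (by omega) (by omega) hb3.fx (by omega) (by omega)
    rw [fx_sub, vadd, vadd] at a1
    rw [fx_add, vsub, vsub] at a2
    exact ⟨a2, a1⟩
  t3 := fun i j hb ⟨i2, j2, h1, h2, hb2⟩ ⟨i3, j3, h3, h4, hb3⟩ => by
    have a1 := hb.t3a h hb2 (by omega) (by omega) hb3 (by omega) (by omega)
    have a2 := hb.t3b h hb2 (by omega) (by omega) hb3 (by omega) (by omega)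
    rw [vsub, vsub] at a1
    rw [vsub, vadd] at a2
    exact ⟨a1, a2⟩
  t4 := fun i j hb ⟨i2, j2, h1, h2, hb2⟩ ⟨i3, j3, h3, h4, hb3⟩ => by
    have a1 := Bad.t3a h.fx hb.fx hb2.fx (by omega) (by omega) hb3.fx (by omega) (by omega)
    have a2 := Bad.t3b h.fx hb.fx hb2.fx (by omega) (by omega) hb3.fx (by omega) (by omega)
    rw [fx_sub, vadd, vsub] at a1
    rw [fx_sub, vadd, vadd] at a2
    exact ⟨a1, a2⟩
  uSW := fun i j hb hsw hg => by
    obtain ⟨i2, j2, h1, h2, hb2⟩ := hsw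
    have ht : ¬ (n : ℤ) + 1 ≤ C.M (2 * i + 1 - 1) (2 * j + 1 - 1) := by
      rw [vsub, vsub]; exact hg
    have r1 := hb.2.1
    have r2 := hb.2.2.2.2.1
    have r3 := hb2.1
    have r4 := hb2.2.2.2.1
    refine ⟨?_, ?_, ?_⟩
    · rintro ⟨i3, j3, h3, h4, hb3⟩
      exact hb.no_nw h hb2 (by omega) (by omega) ht hb3 (by omega) (by omega)
    · rintro ⟨i3, j3, h3, h4, hb3⟩
      exact hb.no_se h hb2 (by omega) (by omega) ht hb3 (by omega) (by omega)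
    · have := hb.other h hb2 (by omega) (by omega) ht
      rw [vadd, vadd, vsub, vsub] at this
      rcases this with g | g | ⟨g, e1, he1, e2, he2, hne, q1, q2⟩
      · exact Or.inl (hW.w1x _ _ g (by omega) (by omega) (by omega) (by omega))
      · exact Or.inr (Or.inl (hW.w1y _ _ g (by omega) (by omega) (by omega) (by omega)))
      · refine Or.inr (Or.inr ?_)
        by_cases c1 : i + 1 < n
        · exact hW.w1x _ _ g (by omega) c1 (by omega) (by omega)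
        by_cases c2 : j + 1 < n
        · exact hW.w1y _ _ g (by omega) (by omega) (by omega) c2
        have e1' : i + 1 = n := by omega
        have e2' : j + 1 = n := by omega
        rw [e1', e2'] at g ⊢
        exact hW.c11 g e1 he1 e2 he2 hne ⟨q1.1, by omega, q1.2.2.1, by omega⟩
          ⟨q2.1, by omega, q2.2.2.1, by omega⟩
  uSE := fun i j hb hse hg => by
    obtain ⟨i2, j2, h1, h2, hb2⟩ := hse
    have ht : ¬ (n : ℤ) + 1 ≤ C.M (2 * i + 1 + 1) (2 * j + 1 - 1) := by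
      rw [vadd, vsub]; exact hg
    have ht' : ¬ (n : ℤ) + 1 ≤ (C.fx n).M (2 * n - (2 * i + 1) - 1) (2 * j + 1 - 1) := by
      rw [fx_sub]; exact ht
    have r1 := hb.1
    have r2 := hb.2.2.2.2.1
    have r3 := hb2.2.1
    have r4 := hb2.2.2.2.1
    refine ⟨?_, ?_, ?_⟩
    · rintro ⟨i3, j3, h3, h4, hb3⟩
      exact Bad.no_se h.fx hb.fx hb2.fx (by omega) (by omega) ht' hb3.fx (by omega) (by omega)
    · rintro ⟨i3, j3, h3, h4, hb3⟩
      exact Bad.no_nw h.fx hb.fx hb2.fx (by omega) (by omega) ht' hb3.fx (by omega) (by omega)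
    · have := hb.other_SE h hb2 (by omega) (by omega) ht
      rw [vadd, vadd, vsub, vsub] at this
      rcases this with g | g | ⟨g, e1, he1, e2, he2, hne, q1, q2⟩
      · exact Or.inr (Or.inl (hW.w1x _ _ g (by omega) (by omega) (by omega) (by omega)))
      · exact Or.inl (hW.w1y _ _ g (by omega) (by omega) (by omega) (by omega))
      · refine Or.inr (Or.inr ?_)
        by_cases c1 : 1 ≤ i
        · exact hW.w1x _ _ g c1 (by omega) (by omega) (by omega)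
        by_cases c2 : j + 1 < n
        · exact hW.w1y _ _ g (by omega) (by omega) (by omega) c2
        have e1' : i = 0 := by omega
        have e2' : j + 1 = n := by omega
        rw [e1', e2'] at g
        rw [e1', e2']
        exact hW.c01 (by simpa using g) e1 he1 e2 he2 hne ⟨q1.1, by omega, q1.2.2.1, by omega⟩
          ⟨q2.1, by omega, q2.2.2.1, by omega⟩
  uNW := fun i j hb hnw hg => by
    obtain ⟨i2, j2, h1, h2, hb2⟩ := hnw
    have ht : ¬ (n : ℤ) + 1 ≤ C.M (2 * i + 1 - 1) (2 * j + 1 + 1) := by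
      rw [vadd, vsub]; exact hg
    have ht' : ¬ (n : ℤ) + 1 ≤ (C.fy n).M (2 * i + 1 - 1) (2 * n - (2 * j + 1) - 1) := by
      rw [fy_sub]; exact ht
    have r1 := hb.2.1
    have r2 := hb.2.2.2.1
    have r3 := hb2.1
    have r4 := hb2.2.2.2.2.1
    refine ⟨?_, ?_, ?_⟩
    · rintro ⟨i3, j3, h3, h4, hb3⟩
      exact Bad.no_nw h.fy hb.fy hb2.fy (by omega) (by omega) ht' hb3.fy (by omega) (by omega)
    · rintro ⟨i3, j3, h3, h4, hb3⟩
      exact Bad.no_se h.fy hb.fy hb2.fy (by omega) (by omega) ht' hb3.fy (by omega) (by omega)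
    · have := hb.other_NW h hb2 (by omega) (by omega) ht
      rw [vadd, vadd, vsub, vsub] at this
      rcases this with g | g | ⟨g, e1, he1, e2, he2, hne, q1, q2⟩
      · exact Or.inl (hW.w1x _ _ g (by omega) (by omega) (by omega) (by omega))
      · exact Or.inr (Or.inl (hW.w1y _ _ g (by omega) (by omega) (by omega) (by omega)))
      · refine Or.inr (Or.inr ?_)
        by_cases c1 : i + 1 < n
        · exact hW.w1x _ _ g (by omega) c1 (by omega) (by omega)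
        by_cases c2 : 1 ≤ j
        · exact hW.w1y _ _ g (by omega) (by omega) c2 (by omega)
        have e1' : i + 1 = n := by omega
        have e2' : j = 0 := by omega
        rw [e1', e2'] at g
        rw [e1', e2']
        exact hW.c10 (by simpa using g) e1 he1 e2 he2 hne ⟨q1.1, by omega, q1.2.2.1, by omega⟩
          ⟨q2.1, by omega, q2.2.2.1, by omega⟩
  uNE := fun i j hb hne' hg => by
    obtain ⟨i2, j2, h1, h2, hb2⟩ := hne'
    have ht : ¬ (n : ℤ) + 1 ≤ C.M (2 * i + 1 + 1) (2 * j + 1 + 1) := by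
      rw [vadd, vadd]; exact hg
    have ht' : ¬ (n : ℤ) + 1 ≤ ((C.fx n).fy n).M (2 * n - (2 * i + 1) - 1)
        (2 * n - (2 * j + 1) - 1) := by
      rw [fy_sub, fx_sub]; exact ht
    have r1 := hb.1
    have r2 := hb.2.2.2.1
    have r3 := hb2.2.1
    have r4 := hb2.2.2.2.2.1
    refine ⟨?_, ?_, ?_⟩
    · rintro ⟨i3, j3, h3, h4, hb3⟩
      exact Bad.no_se h.fx.fy hb.fx.fy hb2.fx.fy (by omega) (by omega) ht' hb3.fx.fy
        (by omega) (by omega)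
    · rintro ⟨i3, j3, h3, h4, hb3⟩
      exact Bad.no_nw h.fx.fy hb.fx.fy hb2.fx.fy (by omega) (by omega) ht' hb3.fx.fy
        (by omega) (by omega)
    · have := hb.other_NE h hb2 (by omega) (by omega) ht
      rw [vadd, vadd, vsub, vsub] at this
      rcases this with g | g | ⟨g, e1, he1, e2, he2, hne, q1, q2⟩
      · exact Or.inr (Or.inl (hW.w1x _ _ g (by omega) (by omega) (by omega) (by omega)))
      · exact Or.inl (hW.w1y _ _ g (by omega) (by omega) (by omega) (by omega))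
      · refine Or.inr (Or.inr ?_)
        by_cases c1 : 1 ≤ i
        · exact hW.w1x _ _ g c1 (by omega) (by omega) (by omega)
        by_cases c2 : 1 ≤ j
        · exact hW.w1y _ _ g (by omega) (by omega) c2 (by omega)
        have e1' : i = 0 := by omega
        have e2' : j = 0 := by omega
        rw [e1', e2'] at g
        rw [e1', e2']
        exact hW.c00 (by simpa using g) e1 he1 e2 he2 hne ⟨q1.1, by omega, q1.2.2.1, by omega⟩
          ⟨q2.1, by omega, q2.2.2.1, by omega⟩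

end Cf

end Pool.Agent.H673.PR
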