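import Pool.Agent.H673.PR.Geo

/-!
# The pointwise inequality around a point, from the grid lemma
-/

set_option autoImplicit false

open Set

namespace Pool.Agent.H673.PR

theorem pos_of {n : ℕ} {α β : ℝ} {F : Finset (ℝ × ℝ)} {p : ℝ × ℝ} (hp : p ∈ F)
    (hloc : ∀ q, p ∈ hbox (n + α) (n + β) q → LocPierce F (n + α) (n + β) q)
    {s t : ℝ × ℝ} (s1 : 0 < s.1) (s1' : s.1 ≤ 1 - α) (s2 : 0 < s.2) (s2' : s.2 ≤ 1 - β)
    (t1 : 0 ≤ t.1) (t1' : t.1 < α) (t2 : 0 ≤ t.2) (t2' : t.2 < β) :
    Pos (uu p.1 s.1 t.1 n) (uu p.2 s.2 t.2 n) n (n + α) (n + β) F p where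
  umono := uu_mono (by linarith) (by linarith)
  vmono := uu_mono (by linarith) (by linarith)
  utwo := uu_two _ _ _ _
  vtwo := uu_two _ _ _ _
  uA := by
    have := uu_even p.1 s.1 t.1 n 0
    rw [mul_zero] at this
    rw [this]; push_cast; linarith
  vB := by
    have := uu_even p.2 s.2 t.2 n 0
    rw [mul_zero] at this
    rw [this]; push_cast; linarith
  up := by
    rw [uu_even]; push_cast; linarith
  vp := by
    rw [uu_even]; push_cast; linarith
  pF := hp
  loc := hloc

theorem comb_of (hPL : S_PL) : S_Comb := by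
  classical
  intro n α β F p hn ha ha' hb hb' hp hloc s t s1 s1' s2 s2' t1 t1' t2 t2'
  have h := pos_of hp hloc s1 s1' s2 s2' t1 t1' t2 t2'
  have hok := cf_ok h (by linarith) (by linarith) (by omega)
  have hpoly := Cf.poly_of hok (ww_ok h hn)
  have key := hPL n _ _ _ hpoly
  have hL : ∑ i ∈ Finset.range n, ∑ j ∈ Finset.range n,
      (if cnt F (n + α) (n + β) (p - ((i : ℝ) + 1, (j : ℝ) + 1) + s) = n then 1 else 0) ≤
      ∑ i ∈ Finset.range n, ∑ j ∈ Finset.range n,
        (if Cf.BB (cf h) n (i : ℤ) (j : ℤ) then 1 else 0) := by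
    rw [← Finset.sum_range_reflect]
    apply Finset.sum_le_sum
    intro i hi
    rw [Finset.mem_range] at hi
    rw [← Finset.sum_range_reflect]
    apply Finset.sum_le_sum
    intro j hj
    rw [Finset.mem_range] at hj
    have hpt : p - (((n - 1 - i : ℕ) : ℝ) + 1, ((n - 1 - j : ℕ) : ℝ) + 1) + s =
        (uu p.1 s.1 t.1 n (2 * i + 1), uu p.2 s.2 t.2 n (2 * j + 1)) := by
      rw [uu_odd, uu_odd]
      have c1 : ((n - 1 - i : ℕ) : ℝ) = n - 1 - i := by
        rw [Nat.sub_sub, Nat.cast_sub (by omega)]; push_cast; ring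
      have c2 : ((n - 1 - j : ℕ) : ℝ) = n - 1 - j := by
        rw [Nat.sub_sub, Nat.cast_sub (by omega)]; push_cast; ring
      ext
      · simp only [Prod.fst_add, Prod.fst_sub, c1]; push_cast; ring
      · simp only [Prod.snd_add, Prod.snd_sub, c2]; push_cast; ring
    rw [hpt]
    have hM := cf_M h (k := 2 * i + 1) (l := 2 * j + 1) (by omega) (by omega) (by omega)
      (by omega)
    by_cases hc : cnt F (n + α) (n + β)
        (uu p.1 s.1 t.1 n (2 * i + 1), uu p.2 s.2 t.2 n (2 * j + 1)) = n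
    · rw [if_pos hc, if_pos]
      refine ⟨by omega, by omega, by omega, by omega, by omega, by omega, ?_⟩
      rw [hc] at hM
      omega
    · rw [if_neg hc]; exact Nat.zero_le _
  have hR : ∑ i ∈ Finset.range (n + 1), ∑ j ∈ Finset.range (n + 1),
      wpos n (n + α) (n + β) F i j (p - ((i : ℝ), (j : ℝ)) - t) =
      ∑ i ∈ Finset.range (n + 1), ∑ j ∈ Finset.range (n + 1),
        ww (uu p.1 s.1 t.1 n) (uu p.2 s.2 t.2 n) n (n + α) (n + β) F (i : ℤ) (j : ℤ) := by
    rw [← Finset.sum_range_reflect]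
    apply Finset.sum_congr rfl
    intro i hi
    rw [Finset.mem_range] at hi
    rw [← Finset.sum_range_reflect]
    apply Finset.sum_congr rfl
    intro j hj
    rw [Finset.mem_range] at hj
    unfold ww
    have e1 : ((n : ℤ) - (i : ℤ)).toNat = n + 1 - 1 - i := by omega
    have e2 : ((n : ℤ) - (j : ℤ)).toNat = n + 1 - 1 - j := by omega
    rw [e1, e2, uu_even, uu_even]
    congr 1
    have c1 : ((n + 1 - 1 - i : ℕ) : ℝ) = n - i := by
      rw [Nat.add_sub_cancel, Nat.cast_sub (by omega)]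
    have c2 : ((n + 1 - 1 - j : ℕ) : ℝ) = n - j := by
      rw [Nat.add_sub_cancel, Nat.cast_sub (by omega)]
    ext
    · simp only [Prod.fst_sub, c1]; push_cast; ring
    · simp only [Prod.snd_sub, c2]; push_cast; ring
  rw [hR]
  exact le_trans (Nat.mul_le_mul_left 2 hL) key

/-- one-dimensional piece of `S_L` -/
theorem card_aux {F : Finset (ℝ × ℝ)} {A B : ℝ} {q p : ℝ × ℝ} {n : ℕ}
    (hA : (n : ℝ) < A) (hA' : A < n + 1)
    (hq : ∀ x, q.1 ≤ x → x + 1 ≤ q.1 + A → ∃ e ∈ F, e ∈ hbox 1 B (x, q.2))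
    (hp : p ∈ F) (hpq : p ∈ hbox A B q) (i : ℕ) (hi : i ≤ n) (h1 : q.1 + i ≤ p.1)
    (h2 : p.1 < q.1 + i + (A - n)) : n + 1 ≤ cnt F A B q := by
  classical
  -- the windows
  let c : ℕ → ℝ := fun m => if m < i then q.1 + m else q.1 + (A - n) + m
  have hc : ∀ m, m < n → q.1 ≤ c m ∧ c m + 1 ≤ q.1 + A := by
    intro m hm
    have hm' : (m : ℝ) + 1 ≤ n := by exact_mod_cast hm
    have hm0 : (0 : ℝ) ≤ m := Nat.cast_nonneg m
    simp only [c]
    split_ifs
    · constructor <;> linarith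
    · constructor <;> linarith
  have hex : ∀ m, m < n → ∃ e ∈ F, e ∈ hbox 1 B (c m, q.2) := fun m hm => hq _ (hc m hm).1 (hc m hm).2
  choose f hf using hex
  have hcm : ∀ m m', m < m' → c m + 1 ≤ c m' := by
    intro m m' hmm
    have hmm' : (m : ℝ) + 1 ≤ m' := by exact_mod_cast hmm
    simp only [c]
    split_ifs with a b b
    · linarith
    · linarith
    · omega
    · linarith
  have hinj : ∀ m m' (hm : m < n) (hm' : m' < n), m < m' → (f m hm).1 < (f m' hm').1 := by
    intro m m' hm hm' hmm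
    have a1 := mem_hbox.1 (hf m hm).2
    have a2 := mem_hbox.1 (hf m' hm').2
    have a3 := hcm m m' hmm
    dsimp only at a1 a2
    linarith [a1.1.2, a2.1.1]
  have hne : ∀ m (hm : m < n), (f m hm) ≠ p := by
    intro m hm he
    have a1 := mem_hbox.1 (hf m hm).2
    rw [he] at a1
    simp only [c] at a1
    have hi0 : (0 : ℝ) ≤ i := Nat.cast_nonneg i
    by_cases b : m < i
    · rw [if_pos b] at a1
      have : (m : ℝ) + 1 ≤ i := by exact_mod_cast b
      linarith [a1.1.2]
    · rw [if_neg b] at a1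
      have : (i : ℝ) ≤ m := by exact_mod_cast (not_lt.1 b)
      linarith [a1.1.1]
  have himg : insert p ((Finset.univ : Finset (Fin n)).image (fun m => f m.1 m.2)) ⊆
      F.filter (fun e => e ∈ hbox A B q) := by
    intro x hx
    rw [Finset.mem_insert, Finset.mem_image] at hx
    rcases hx with rfl | ⟨m, _, rfl⟩
    · exact Finset.mem_filter.2 ⟨hp, hpq⟩
    · refine Finset.mem_filter.2 ⟨(hf m.1 m.2).1, ?_⟩
      have a1 := mem_hbox.1 (hf m.1 m.2).2
      have a2 := hc m.1 m.2
      rw [mem_hbox]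
      dsimp only at a1
      exact ⟨⟨by linarith [a1.1.1], by linarith [a1.1.2]⟩, a1.2⟩
  have hcard := Finset.card_le_card himg
  rw [Finset.card_insert_of_notMem, Finset.card_image_of_injective, Finset.card_univ,
    Fintype.card_fin] at hcard
  · exact hcard
  · intro m m' hmm
    by_contra hne'
    rcases lt_or_gt_of_ne (fun h : m.1 = m'.1 => hne' (Fin.ext h)) with h | h
    · exact absurd hmm (fun e => by
        have := hinj _ _ m.2 m'.2 h
        dsimp only at e
        rw [e] at this; exact lt_irrefl _ this)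
    · exact absurd hmm (fun e => by
        have := hinj _ _ m'.2 m.2 h
        dsimp only at e
        rw [e] at this; exact lt_irrefl _ this)
  · simp only [Finset.mem_image, Finset.mem_univ, true_and, not_exists]
    exact fun m => hne m.1 m.2

/-- exchange of coordinates -/
theorem cnt_swap (F : Finset (ℝ × ℝ)) (A B : ℝ) (q : ℝ × ℝ) :
    cnt (F.map (Equiv.prodComm ℝ ℝ).toEmbedding) B A q.swap = cnt F A B q := by
  classical
  unfold cnt
  rw [Finset.filter_map, Finset.card_map]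
  congr 1
  ext e
  simp only [Finset.mem_filter, Function.comp, Equiv.coe_toEmbedding, Equiv.prodComm_apply,
    mem_hbox, Prod.fst_swap, Prod.snd_swap]
  tauto

theorem s_L : S_L := by
  intro n A B F q p hn hA hA' hB hB' hloc hp hpq h
  rcases h with ⟨i, hi, h1, h2⟩ | ⟨j, hj, h1, h2⟩
  · exact card_aux hA hA' hloc.1 hp hpq i hi h1 h2
  · rw [← cnt_swap]
    refine card_aux (q := q.swap) (p := p.swap) hB hB' ?_ ?_ ?_ j hj h1 h2
    · intro x hx hx'
      obtain ⟨e, he, hm⟩ := hloc.2 x hx hx'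
      refine ⟨e.swap, ?_, ?_⟩
      · rw [Finset.mem_map]; exact ⟨e, he, rfl⟩
      · rw [mem_hbox] at hm ⊢
        exact ⟨hm.2, hm.1⟩
    · rw [Finset.mem_map]; exact ⟨p, hp, rfl⟩
    · rw [mem_hbox] at hpq ⊢
      exact ⟨hpq.2, hpq.1⟩

end Pool.Agent.H673.PR
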