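import Pool.Agent.H673.PR.Stm

/-!
# Piercing two rectangles: the counting inequality in a window
-/

set_option autoImplicit false

open MeasureTheory Set

namespace Pool.Agent.H673.PR

lemma ct_mem_hbox (A B : ℝ) (p q : ℝ × ℝ) : p ∈ hbox A B q ↔
    (q.1 ≤ p.1 ∧ p.1 < q.1 + A) ∧ (q.2 ≤ p.2 ∧ p.2 < q.2 + B) := by
  unfold hbox
  rw [Set.mem_prod, Set.mem_Ico, Set.mem_Ico]

lemma ct_meas_hbox (A B : ℝ) (p : ℝ × ℝ) : MeasurableSet {q : ℝ × ℝ | p ∈ hbox A B q} := by
  simp only [ct_mem_hbox]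
  refine MeasurableSet.inter (MeasurableSet.inter ?_ ?_) (MeasurableSet.inter ?_ ?_)
  · exact measurableSet_le measurable_fst measurable_const
  · exact measurableSet_lt measurable_const (measurable_fst.add measurable_const)
  · exact measurableSet_le measurable_snd measurable_const
  · exact measurableSet_lt measurable_const (measurable_snd.add measurable_const)

lemma ct_meas_cnt (F : Finset (ℝ × ℝ)) (A B : ℝ) : Measurable (fun q => cnt F A B q) := by
  classical
  have h : (fun q => cnt F A B q) = fun q => ∑ e ∈ F, if e ∈ hbox A B q then 1 else 0 := by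
    funext q
    unfold cnt
    rw [Finset.card_filter]
  rw [h]
  refine Finset.measurable_fun_sum _ fun e _ => ?_
  exact Measurable.ite (ct_meas_hbox A B e) measurable_const measurable_const

lemma ct_meas_enh (n : ℕ) (A B : ℝ) (F : Finset (ℝ × ℝ)) (i j : ℕ) :
    Measurable (fun q => enh n A B F i j q) := by
  have hc : ∀ v : ℝ × ℝ, Measurable (fun q => cnt F 1 1 (q + v)) := fun v =>
    (ct_meas_cnt F 1 1).comp (measurable_id.add_const v)
  have hs : ∀ (P : Prop) (P' : Prop) (v : ℝ × ℝ),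
      MeasurableSet {q : ℝ × ℝ | P ∧ P' ∧ 2 ≤ cnt F 1 1 (q + v)} := by
    intro P P' v
    refine MeasurableSet.inter (MeasurableSet.const P) (MeasurableSet.inter
      (MeasurableSet.const P') ?_)
    exact measurableSet_le measurable_const (hc v)
  have hs2 : ∀ (P : Prop) (P' : Prop),
      MeasurableSet {q : ℝ × ℝ | P ∧ P' ∧ 2 ≤ cnt F 1 1 q} := by
    intro P P'
    refine MeasurableSet.inter (MeasurableSet.const P) (MeasurableSet.inter
      (MeasurableSet.const P') ?_)
    exact measurableSet_le measurable_const (ct_meas_cnt F 1 1)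
  unfold enh
  refine Measurable.ite (hs _ _ _) measurable_const ?_
  refine Measurable.ite (hs2 _ _) measurable_const ?_
  refine Measurable.ite (hs _ _ _) measurable_const ?_
  exact Measurable.ite (hs _ _ _) measurable_const measurable_const

lemma ct_meas_wpos (n : ℕ) (A B : ℝ) (F : Finset (ℝ × ℝ)) (i j : ℕ) :
    Measurable (fun q => wpos n A B F i j q) := by
  unfold wpos
  refine Measurable.ite ?_ ?_ measurable_const
  · exact measurableSet_le measurable_const (ct_meas_cnt F A B)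
  · exact measurable_const.add (ct_meas_enh n A B F i j)

lemma ct_meas_w2 (n : ℕ) (A B : ℝ) (F : Finset (ℝ × ℝ)) (p : ℝ × ℝ) :
    Measurable (fun q => w2 n A B F q p) := by
  unfold w2
  refine Finset.measurable_fun_sum _ fun i _ => Finset.measurable_fun_sum _ fun j _ => ?_
  refine Measurable.ite ?_ (ct_meas_wpos n A B F i j) measurable_const
  have h := ct_meas_hbox (A - n) (B - n) p
  have h2 : Measurable (fun q : ℝ × ℝ => q + ((i : ℝ), (j : ℝ))) := measurable_id.add_const _
  exact h2 h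

lemma ct_w2_zero (n : ℕ) (α β : ℝ) (F : Finset (ℝ × ℝ)) (q p : ℝ × ℝ)
    (h : p ∉ hbox (n + α) (n + β) q) : w2 n (n + α) (n + β) F q p = 0 := by
  unfold w2
  refine Finset.sum_eq_zero fun i hi => Finset.sum_eq_zero fun j hj => if_neg fun h2 => h ?_
  rw [Finset.mem_range] at hi hj
  have hi' : (i : ℝ) ≤ n := by exact_mod_cast (by omega : i ≤ n)
  have hj' : (j : ℝ) ≤ n := by exact_mod_cast (by omega : j ≤ n)
  have hi0 : (0 : ℝ) ≤ i := Nat.cast_nonneg i
  have hj0 : (0 : ℝ) ≤ j := Nat.cast_nonneg j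
  rw [ct_mem_hbox] at h2 ⊢
  simp only [Prod.fst_add, Prod.snd_add] at h2
  obtain ⟨⟨h1, h3⟩, h4, h5⟩ := h2
  refine ⟨⟨?_, ?_⟩, ?_, ?_⟩ <;> linarith

lemma ct_vD (A B : ℝ) (hA : 0 ≤ A) (p : ℝ × ℝ) :
    volume {q : ℝ × ℝ | p ∈ hbox A B q} = ENNReal.ofReal (A * B) := by
  have h : {q : ℝ × ℝ | p ∈ hbox A B q} = Ioc (p.1 - A) p.1 ×ˢ Ioc (p.2 - B) p.2 := by
    ext q
    rw [Set.mem_ofPred_eq, ct_mem_hbox, Set.mem_prod, Set.mem_Ioc, Set.mem_Ioc]
    constructor
    · rintro ⟨⟨h1, h2⟩, h3, h4⟩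
      refine ⟨⟨?_, ?_⟩, ?_, ?_⟩ <;> linarith
    · rintro ⟨⟨h1, h2⟩, h3, h4⟩
      refine ⟨⟨?_, ?_⟩, ?_, ?_⟩ <;> linarith
  rw [h, Measure.volume_eq_prod, Measure.prod_prod, Real.volume_Ioc, Real.volume_Ioc,
    ← ENNReal.ofReal_mul (by linarith)]
  congr 1
  ring

lemma ct_vI (a b c d : ℝ) (h : a ≤ b) :
    volume (Icc a b ×ˢ Icc c d) = ENNReal.ofReal ((b - a) * (d - c)) := by
  rw [Measure.volume_eq_prod, Measure.prod_prod, Real.volume_Icc, Real.volume_Icc,
    ← ENNReal.ofReal_mul (by linarith)]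

lemma count_core (n : ℕ) (α β X Y : ℝ) (F : Finset (ℝ × ℝ)) (hn : 1 ≤ n)
    (ha : 0 < α) (ha' : α < 1) (hb : 0 < β) (hb' : β < 1)
    (hX : 3 * (n + α) ≤ 2 * X) (hY : 3 * (n + β) ≤ 2 * Y) (W : ℝ × ℝ → ℝ × ℝ → ℕ)
    (hWm : ∀ p, Measurable (fun q => W q p))
    (hWz : ∀ q p, p ∉ hbox (n + α) (n + β) q → W q p = 0)
    (hK : ∀ q, hbox (n + α) (n + β) q ⊆ Icc (-X) X ×ˢ Icc (-Y) Y →
      2 * n * (n + 1) + ∑ p ∈ F, W q p ≤
        2 * n * cnt F (n + α) (n + β) q + (if cnt F (n + α) (n + β) q = n then 2 * n else 0))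
    (hP : ∀ p ∈ F, (∀ q, p ∈ hbox (n + α) (n + β) q →
        hbox (n + α) (n + β) q ⊆ Icc (-X) X ×ˢ Icc (-Y) Y) →
      2 * ∫⁻ q in {q : ℝ × ℝ | p ∈ hbox (n + α) (n + β) q},
        (if cnt F (n + α) (n + β) q = n then 1 else 0 : ENNReal) ≤
      2 * ENNReal.ofReal ((1 - α) * (1 - β)) + ∫⁻ q, ((W q p : ℕ) : ENNReal)) :
    (n : ℝ) * ((2 * X - 3 * (n + α)) * (2 * Y - 3 * (n + β))) ≤
      F.card * (n + (n + α - 1) * (n + β - 1)) := by
  classical
  have hn0 : (0 : ℝ) ≤ n := Nat.cast_nonneg n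
  have hn1 : (1 : ℝ) ≤ n := by exact_mod_cast hn
  set A : ℝ := n + α with hA
  set B : ℝ := n + β with hB
  have hA0 : 0 < A := by rw [hA]; linarith
  have hB0 : 0 < B := by rw [hB]; linarith
  set Om : Set (ℝ × ℝ) := Icc (-X) (X - A) ×ˢ Icc (-Y) (Y - B) with hOm
  set Om' : Set (ℝ × ℝ) := Icc (-X + A) (X - 2 * A) ×ˢ Icc (-Y + B) (Y - 2 * B) with hOm'
  have mOm : MeasurableSet Om := measurableSet_Icc.prod measurableSet_Icc
  have mOm' : MeasurableSet Om' := measurableSet_Icc.prod measurableSet_Icc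
  have hsub : Om' ⊆ Om := by
    refine Set.prod_mono (Set.Icc_subset_Icc ?_ ?_) (Set.Icc_subset_Icc ?_ ?_) <;> linarith
  have vOm : volume Om = ENNReal.ofReal ((2 * X - A) * (2 * Y - B)) := by
    rw [hOm, ct_vI _ _ _ _ (by linarith)]
    congr 1
    ring
  have vOm' : volume Om' = ENNReal.ofReal ((2 * X - 3 * A) * (2 * Y - 3 * B)) := by
    rw [hOm', ct_vI _ _ _ _ (by linarith)]
    congr 1
    ring
  have hin : ∀ q ∈ Om, hbox A B q ⊆ Icc (-X) X ×ˢ Icc (-Y) Y := by
    intro q hq
    rw [hOm, Set.mem_prod, Set.mem_Icc, Set.mem_Icc] at hq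
    intro e he
    rw [ct_mem_hbox] at he
    rw [Set.mem_prod, Set.mem_Icc, Set.mem_Icc]
    obtain ⟨⟨h1, h2⟩, h3, h4⟩ := hq
    obtain ⟨⟨g1, g2⟩, g3, g4⟩ := he
    refine ⟨⟨?_, ?_⟩, ?_, ?_⟩ <;> linarith
  -- interior points
  set Fi : Finset (ℝ × ℝ) := F.filter (fun p => (A - X ≤ p.1 ∧ p.1 ≤ X - A) ∧
    (B - Y ≤ p.2 ∧ p.2 ≤ Y - B)) with hFi
  have hFiF : Fi ⊆ F := Finset.filter_subset _ _
  have hDOm : ∀ p ∈ Fi, ∀ q, p ∈ hbox A B q → q ∈ Om := by
    intro p hp q hq
    rw [hFi, Finset.mem_filter] at hp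
    rw [ct_mem_hbox] at hq
    rw [hOm, Set.mem_prod, Set.mem_Icc, Set.mem_Icc]
    obtain ⟨_, ⟨h1, h2⟩, h3, h4⟩ := hp
    obtain ⟨⟨g1, g2⟩, g3, g4⟩ := hq
    refine ⟨⟨?_, ?_⟩, ?_, ?_⟩ <;> linarith
  have hOmi : ∀ q ∈ Om', ∀ p ∈ F, p ∈ hbox A B q → p ∈ Fi := by
    intro q hq p hp hpq
    rw [hFi, Finset.mem_filter]
    rw [ct_mem_hbox] at hpq
    rw [hOm', Set.mem_prod, Set.mem_Icc, Set.mem_Icc] at hq
    obtain ⟨⟨h1, h2⟩, h3, h4⟩ := hq
    obtain ⟨⟨g1, g2⟩, g3, g4⟩ := hpq
    refine ⟨hp, ⟨?_, ?_⟩, ?_, ?_⟩ <;> linarith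
  -- the pointwise inequality
  have hpt : ∀ q ∈ Om, 2 * n * (n + 1) + ∑ p ∈ F, W q p ≤ 2 * n * cnt F A B q +
      2 * (∑ p ∈ Fi, if p ∈ hbox A B q ∧ cnt F A B q = n then 1 else 0) +
      2 * n * (if q ∈ Om' then 0 else 1) := by
    intro q hq
    refine (hK q (hin q hq)).trans ?_
    by_cases hc : cnt F A B q = n
    · rw [if_pos hc]
      by_cases hq' : q ∈ Om'
      · have h1 : n ≤ ∑ p ∈ Fi, if p ∈ hbox A B q ∧ cnt F A B q = n then 1 else 0 := by
          rw [← Finset.card_filter]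
          have h2 : cnt F A B q ≤ (Fi.filter (fun p => p ∈ hbox A B q ∧ cnt F A B q = n)).card := by
            unfold cnt
            apply Finset.card_le_card
            intro p hp
            rw [Finset.mem_filter] at hp
            rw [Finset.mem_filter]
            exact ⟨hOmi q hq' p hp.1 hp.2, hp.2, hc⟩
          omega
        have h3 : 2 * n ≤ 2 * ∑ p ∈ Fi, if p ∈ hbox A B q ∧ cnt F A B q = n then 1 else 0 := by
          omega
        omega
      · rw [if_neg hq']
        omega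
    · rw [if_neg hc]
      omega
  -- integration
  set S : ENNReal := ∑ p ∈ F, ∫⁻ q in Om, ((W q p : ℕ) : ENNReal) with hS
  have castm : ∀ f : ℝ × ℝ → ℕ, Measurable f → Measurable (fun q => ((f q : ℕ) : ENNReal)) :=
    fun f hf => (measurable_from_top (f := fun k : ℕ => (k : ENNReal))).comp hf
  have mcnt := ct_meas_cnt F A B
  have mD : ∀ p : ℝ × ℝ, MeasurableSet {q : ℝ × ℝ | p ∈ hbox A B q ∧ cnt F A B q = n} := by
    intro p
    exact (ct_meas_hbox A B p).inter (mcnt (measurableSet_singleton n))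
  have hSlt : S ≠ ⊤ := by
    rw [hS]
    refine ENNReal.sum_ne_top.2 fun p hp => ?_
    have h1 : ∫⁻ q in Om, ((W q p : ℕ) : ENNReal) ≤
        ∫⁻ q in Om, ((2 * n * F.card + 2 * n : ℕ) : ENNReal) := by
      refine setLIntegral_mono' mOm fun q hq => Nat.cast_le.2 ?_
      have h2 := hK q (hin q hq)
      have h3 : W q p ≤ ∑ p ∈ F, W q p :=
        Finset.single_le_sum (f := fun p => W q p) (fun _ _ => Nat.zero_le _) hp
      have h4 : cnt F A B q ≤ F.card := Finset.card_filter_le _ _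
      have h5 : 2 * n * cnt F A B q ≤ 2 * n * F.card := Nat.mul_le_mul_left _ h4
      have h6 : (if cnt F A B q = n then 2 * n else 0) ≤ 2 * n := by
        split_ifs
        · exact le_rfl
        · exact Nat.zero_le _
      omega
    refine ne_top_of_le_ne_top ?_ h1
    rw [setLIntegral_const, vOm]
    exact ENNReal.mul_ne_top (ENNReal.natCast_ne_top _) ENNReal.ofReal_ne_top
  have hL : ∫⁻ q in Om, ((2 * n * (n + 1) + ∑ p ∈ F, W q p : ℕ) : ENNReal) =
      ((2 * n * (n + 1) : ℕ) : ENNReal) * volume Om + S := by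
    have e : ∀ q : ℝ × ℝ, ((2 * n * (n + 1) + ∑ p ∈ F, W q p : ℕ) : ENNReal) =
        ((2 * n * (n + 1) : ℕ) : ENNReal) + ∑ p ∈ F, ((W q p : ℕ) : ENNReal) := by
      intro q
      rw [Nat.cast_add, Nat.cast_sum]
    simp_rw [e]
    rw [lintegral_add_left measurable_const, setLIntegral_const,
      lintegral_finsetSum _ fun p _ => castm _ (hWm p)]
  have hR : ∫⁻ q in Om, ((2 * n * cnt F A B q +
      2 * (∑ p ∈ Fi, if p ∈ hbox A B q ∧ cnt F A B q = n then 1 else 0) +
      2 * n * (if q ∈ Om' then 0 else 1) : ℕ) : ENNReal) ≤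
      ((2 * n * F.card : ℕ) : ENNReal) * ENNReal.ofReal (A * B) +
      (((2 * F.card : ℕ) : ENNReal) * ENNReal.ofReal ((1 - α) * (1 - β)) + S) +
      ((2 * n : ℕ) : ENNReal) * volume (Om \ Om') := by
    have e : ∀ q : ℝ × ℝ, ((2 * n * cnt F A B q +
        2 * (∑ p ∈ Fi, if p ∈ hbox A B q ∧ cnt F A B q = n then 1 else 0) +
        2 * n * (if q ∈ Om' then 0 else 1) : ℕ) : ENNReal) =
        (((2 * n : ℕ) : ENNReal) * ((cnt F A B q : ℕ) : ENNReal) +
        ∑ p ∈ Fi, 2 * ({q : ℝ × ℝ | p ∈ hbox A B q ∧ cnt F A B q = n}).indicator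
          (fun _ => (1 : ENNReal)) q) +
        ((2 * n : ℕ) : ENNReal) * (Om'ᶜ).indicator (fun _ => (1 : ENNReal)) q := by
      intro q
      rw [Nat.cast_add, Nat.cast_add, Nat.cast_mul (2 * n) (cnt F A B q),
        Nat.cast_mul 2 (∑ p ∈ Fi, if p ∈ hbox A B q ∧ cnt F A B q = n then 1 else 0),
        Nat.cast_mul (2 * n), Nat.cast_sum, Finset.mul_sum]
      congr 1
      · congr 1
        refine Finset.sum_congr rfl fun p _ => ?_
        rw [Nat.cast_ofNat]
        by_cases h : p ∈ hbox A B q ∧ cnt F A B q = n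
        · rw [if_pos h, Set.indicator_of_mem (show q ∈ {q : ℝ × ℝ | p ∈ hbox A B q ∧
            cnt F A B q = n} from h), Nat.cast_one]
        · rw [if_neg h, Set.indicator_of_notMem (show q ∉ {q : ℝ × ℝ | p ∈ hbox A B q ∧
            cnt F A B q = n} from h), Nat.cast_zero]
      · congr 1
        by_cases h : q ∈ Om'
        · rw [if_pos h, Set.indicator_of_notMem (show q ∉ Om'ᶜ from fun hh => hh h),
            Nat.cast_zero]
        · rw [if_neg h, Set.indicator_of_mem (show q ∈ Om'ᶜ from h), Nat.cast_one]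
    simp_rw [e]
    have m1 : Measurable (fun q => ((2 * n : ℕ) : ENNReal) * ((cnt F A B q : ℕ) : ENNReal)) :=
      (castm _ mcnt).const_mul _
    have m2 : ∀ p : ℝ × ℝ, Measurable (fun q => 2 *
        ({q : ℝ × ℝ | p ∈ hbox A B q ∧ cnt F A B q = n}).indicator
          (fun _ => (1 : ENNReal)) q) := fun p => (measurable_const.indicator (mD p)).const_mul _
    have m3 : Measurable (fun q => ∑ p ∈ Fi, 2 *
        ({q : ℝ × ℝ | p ∈ hbox A B q ∧ cnt F A B q = n}).indicator
          (fun _ => (1 : ENNReal)) q) := Finset.measurable_fun_sum _ fun p _ => m2 p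
    have m13 : Measurable (fun q => ((2 * n : ℕ) : ENNReal) * ((cnt F A B q : ℕ) : ENNReal) +
        ∑ p ∈ Fi, 2 * ({q : ℝ × ℝ | p ∈ hbox A B q ∧ cnt F A B q = n}).indicator
          (fun _ => (1 : ENNReal)) q) := m1.add m3
    rw [lintegral_add_left m13, lintegral_add_left m1,
      lintegral_finsetSum _ fun p _ => m2 p,
      lintegral_const_mul _ (castm _ mcnt),
      lintegral_const_mul _ (measurable_const.indicator mOm'.compl)]
    refine add_le_add (add_le_add ?_ ?_) ?_
    · -- the mean number of points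
      have h1 : ∫⁻ q in Om, ((cnt F A B q : ℕ) : ENNReal) ≤
          ∑ p ∈ F, volume {q : ℝ × ℝ | p ∈ hbox A B q} := by
        calc ∫⁻ q in Om, ((cnt F A B q : ℕ) : ENNReal)
            ≤ ∫⁻ q, ((cnt F A B q : ℕ) : ENNReal) := setLIntegral_le_lintegral _ _
          _ = ∫⁻ q, ∑ p ∈ F, ({q : ℝ × ℝ | p ∈ hbox A B q}).indicator
                (fun _ => (1 : ENNReal)) q := by
              refine lintegral_congr fun q => ?_
              unfold cnt
              rw [Finset.card_filter, Nat.cast_sum]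
              refine Finset.sum_congr rfl fun p _ => ?_
              by_cases h : p ∈ hbox A B q
              · rw [if_pos h, Set.indicator_of_mem (show q ∈ {q : ℝ × ℝ | p ∈ hbox A B q}
                  from h), Nat.cast_one]
              · rw [if_neg h, Set.indicator_of_notMem (show q ∉ {q : ℝ × ℝ | p ∈ hbox A B q}
                  from h), Nat.cast_zero]
          _ = ∑ p ∈ F, ∫⁻ q, ({q : ℝ × ℝ | p ∈ hbox A B q}).indicator
                (fun _ => (1 : ENNReal)) q :=
              lintegral_finsetSum _ fun p _ =>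
                measurable_const.indicator (ct_meas_hbox A B p)
          _ = _ := by
              refine Finset.sum_congr rfl fun p _ => ?_
              rw [lintegral_indicator (ct_meas_hbox A B p), setLIntegral_one]
      have h2 : ∑ p ∈ F, volume {q : ℝ × ℝ | p ∈ hbox A B q} =
          (F.card : ENNReal) * ENNReal.ofReal (A * B) := by
        rw [Finset.sum_congr rfl fun p _ => ct_vD A B hA0.le p, Finset.sum_const, nsmul_eq_mul]
      rw [h2] at h1
      rw [Nat.cast_mul (2 * n), mul_assoc]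
      exact mul_le_mul_right h1 _
    · -- the interior points
      have h1 : ∀ p ∈ Fi, ∫⁻ q in Om, 2 *
          ({q : ℝ × ℝ | p ∈ hbox A B q ∧ cnt F A B q = n}).indicator
            (fun _ => (1 : ENNReal)) q ≤ 2 * ENNReal.ofReal ((1 - α) * (1 - β)) +
            ∫⁻ q in Om, ((W q p : ℕ) : ENNReal) := by
        intro p hp
        have h2 := hP p (hFiF hp) (fun q hq => hin q (hDOm p hp q hq))
        have h3 : ∫⁻ q, ((W q p : ℕ) : ENNReal) = ∫⁻ q in Om, ((W q p : ℕ) : ENNReal) := by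
          rw [← lintegral_indicator mOm]
          refine lintegral_congr fun q => ?_
          rw [Set.indicator_apply]
          by_cases hq : q ∈ Om
          · rw [if_pos hq]
          · rw [if_neg hq, hWz q p (fun h => hq (hDOm p hp q h)), Nat.cast_zero]
        rw [h3] at h2
        refine le_trans ?_ h2
        rw [lintegral_const_mul _ (measurable_const.indicator (mD p))]
        refine mul_le_mul_right ?_ _
        refine (setLIntegral_le_lintegral _ _).trans ?_
        rw [← lintegral_indicator (ct_meas_hbox A B p)]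
        refine lintegral_mono fun q => ?_
        by_cases h : p ∈ hbox A B q
        · by_cases h' : cnt F A B q = n
          · rw [Set.indicator_of_mem (show q ∈ {q : ℝ × ℝ | p ∈ hbox A B q ∧
              cnt F A B q = n} from ⟨h, h'⟩), Set.indicator_of_mem
              (show q ∈ {q : ℝ × ℝ | p ∈ hbox A B q} from h), if_pos h']
          · rw [Set.indicator_of_notMem (show q ∉ {q : ℝ × ℝ | p ∈ hbox A B q ∧
              cnt F A B q = n} from fun hh => h' hh.2)]
            exact zero_le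
        · rw [Set.indicator_of_notMem (show q ∉ {q : ℝ × ℝ | p ∈ hbox A B q ∧
            cnt F A B q = n} from fun hh => h hh.1)]
          exact zero_le
      refine (Finset.sum_le_sum h1).trans ?_
      rw [Finset.sum_add_distrib]
      refine add_le_add ?_ ?_
      · rw [Finset.sum_const, nsmul_eq_mul, ← mul_assoc]
        refine mul_le_mul_left ?_ _
        rw [mul_comm, Nat.cast_mul, Nat.cast_ofNat]
        refine mul_le_mul_right ?_ _
        exact Nat.cast_le.2 (Finset.card_le_card hFiF)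
      · exact Finset.sum_le_sum_of_subset hFiF
    · refine mul_le_mul_right (le_of_eq ?_) _
      rw [lintegral_indicator mOm'.compl, setLIntegral_one, Measure.restrict_apply mOm'.compl,
        Set.inter_comm, ← Set.sdiff_eq]
  have hmain : ((2 * n * (n + 1) : ℕ) : ENNReal) * volume Om + S ≤
      ((2 * n * F.card : ℕ) : ENNReal) * ENNReal.ofReal (A * B) +
      (((2 * F.card : ℕ) : ENNReal) * ENNReal.ofReal ((1 - α) * (1 - β)) + S) +
      ((2 * n : ℕ) : ENNReal) * volume (Om \ Om') := by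
    rw [← hL]
    refine le_trans ?_ hR
    exact setLIntegral_mono' mOm fun q hq => Nat.cast_le.2 (hpt q hq)
  have hmain2 : ((2 * n * (n + 1) : ℕ) : ENNReal) * volume Om ≤
      ((2 * n * F.card : ℕ) : ENNReal) * ENNReal.ofReal (A * B) +
      ((2 * F.card : ℕ) : ENNReal) * ENNReal.ofReal ((1 - α) * (1 - β)) +
      ((2 * n : ℕ) : ENNReal) * volume (Om \ Om') := by
    refine (ENNReal.add_le_add_iff_right hSlt).1 (hmain.trans (le_of_eq ?_))
    ring
  have hvol : volume (Om \ Om') + volume Om' = volume Om := by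
    have h := measure_inter_add_sdiff (μ := volume) Om mOm'
    rw [Set.inter_eq_right.2 hsub, add_comm] at h
    exact h
  have hmain3 : ((2 * n * (n + 1) : ℕ) : ENNReal) * volume Om +
      ((2 * n : ℕ) : ENNReal) * volume Om' ≤
      ((2 * n * F.card : ℕ) : ENNReal) * ENNReal.ofReal (A * B) +
      ((2 * F.card : ℕ) : ENNReal) * ENNReal.ofReal ((1 - α) * (1 - β)) +
      ((2 * n : ℕ) : ENNReal) * volume Om := by
    rw [← hvol, mul_add ((2 * n : ℕ) : ENNReal), ← add_assoc, hvol]
    exact add_le_add_left hmain2 _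
  rw [vOm, vOm'] at hmain3
  have e : ∀ (k : ℕ) (x : ℝ), (k : ENNReal) * ENNReal.ofReal x = ENNReal.ofReal (k * x) := by
    intro k x
    rw [ENNReal.ofReal_mul (Nat.cast_nonneg k), ENNReal.ofReal_natCast]
  have p1 : 0 ≤ (2 * X - A) * (2 * Y - B) := mul_nonneg (by linarith) (by linarith)
  have p2 : 0 ≤ (2 * X - 3 * A) * (2 * Y - 3 * B) := mul_nonneg (by linarith) (by linarith)
  have p3 : 0 ≤ (1 - α) * (1 - β) := mul_nonneg (by linarith) (by linarith)
  have p4 : 0 ≤ A * B := mul_nonneg hA0.le hB0.le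
  rw [e, e, e, e, e, ← ENNReal.ofReal_add (by positivity) (by positivity),
    ← ENNReal.ofReal_add (by positivity) (by positivity),
    ← ENNReal.ofReal_add (by positivity) (by positivity),
    ENNReal.ofReal_le_ofReal_iff (by positivity)] at hmain3
  push_cast at hmain3
  have hcmp : (2 * X - 3 * A) * (2 * Y - 3 * B) ≤ (2 * X - A) * (2 * Y - B) := by
    refine mul_le_mul (by linarith) (by linarith) (by linarith) (by linarith)
  have hn2 : (n : ℝ) * ((2 * X - 3 * A) * (2 * Y - 3 * B)) * (n + 1) ≤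
      F.card * (n + (A - 1) * (B - 1)) * (n + 1) := by
    have h1 : (n : ℝ) ^ 2 * ((2 * X - 3 * A) * (2 * Y - 3 * B)) ≤
        (n : ℝ) ^ 2 * ((2 * X - A) * (2 * Y - B)) := mul_le_mul_of_nonneg_left hcmp (by positivity)
    have h2 : (F.card : ℝ) * (n + (A - 1) * (B - 1)) * (n + 1) =
        F.card * (n * (A * B) + (1 - α) * (1 - β)) := by
      rw [hA, hB]
      ring
    rw [h2]
    nlinarith
  exact le_of_mul_le_mul_right hn2 (by linarith)

theorem count_of : S_K1 → S_P1 → S_P1one → S_Count := by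
  classical
  intro hK1 hP1 hP1one n α β X Y F hn ha ha' hb hb' hnab hX hY hF hLP
  by_cases h1 : n = 1
  · subst h1
    refine count_core 1 α β X Y F hn ha ha' hb hb' hX hY (fun _ _ => 0)
      (fun _ => measurable_const) (fun _ _ _ => rfl) ?_ ?_
    · intro q hq
      have h2 : 1 ≤ cnt F ((1 : ℕ) + α) ((1 : ℕ) + β) q := by
        obtain ⟨e, he, he2⟩ := (hLP q hq).1 q.1 le_rfl (by push_cast; linarith)
        unfold cnt
        rw [Nat.one_le_iff_ne_zero, Finset.card_ne_zero]
        refine ⟨e, ?_⟩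
        rw [Finset.mem_filter]
        refine ⟨he, ?_⟩
        rw [ct_mem_hbox] at he2 ⊢
        push_cast at he2 ⊢
        obtain ⟨⟨g1, g2⟩, g3, g4⟩ := he2
        refine ⟨⟨?_, ?_⟩, ?_, ?_⟩ <;> linarith
      rw [Finset.sum_const_zero]
      split_ifs with h3
      · omega
      · omega
    · intro p hp hq
      have h2 := hP1one α β F p ha ha' hb hb' hp (by
        intro q hpq
        have h3 := hLP q (hq q (by rw [Nat.cast_one]; exact hpq))
        rw [Nat.cast_one] at h3
        exact h3)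
      rw [Nat.cast_one]
      refine (mul_le_mul_right h2 2).trans ?_
      exact le_self_add
  · have hn2 : 2 ≤ n := by omega
    have hab : 1 ≤ α + β := by
      rcases hnab with h | h
      · exact absurd h h1
      · exact h
    refine count_core n α β X Y F hn ha ha' hb hb' hX hY
      (fun q p => w2 n (n + α) (n + β) F q p) (fun p => ct_meas_w2 n _ _ F p)
      (fun q p h => ct_w2_zero n α β F q p h) ?_ ?_
    · intro q hq
      exact hK1 n (n + α) (n + β) F q hn2 (by linarith) (by linarith) (by linarith)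
        (by linarith) (hLP q hq)
    · intro p hp hq
      exact hP1 n α β F p hn2 ha ha' hb hb' hab hp (fun q hpq => hLP q (hq q hpq))

end Pool.Agent.H673.PR
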