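import Mathlib

/-!
# Piercing sets for translates of rectangles: definitions

MP_aad70b_co.  A rectangle `w × h` is the closed rectangle of width `w` and height `h`;
a set pierces it if it meets every translate.
-/

set_option autoImplicit false

open Filter

namespace Pool.Agent.H673.PR

/-- The translate of the closed rectangle of width `w` and height `h` with lower left corner `c`. -/
def rect (w h : ℝ) (c : ℝ × ℝ) : Set (ℝ × ℝ) :=
  Set.Icc c.1 (c.1 + w) ×ˢ Set.Icc c.2 (c.2 + h)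

/-- `P` contains a point of every translate of the closed rectangle `w × h`. -/
def Pierces (P : Set (ℝ × ℝ)) (w h : ℝ) : Prop := ∀ c : ℝ × ℝ, (P ∩ rect w h c).Nonempty

/-- The upper density `limsup |P ∩ [-r,r]²| / (4 r²)` of a set of points in the plane. -/
noncomputable def dens (P : Set (ℝ × ℝ)) : ENNReal :=
  Filter.limsup (fun r : ℝ =>
    (((P ∩ Set.Icc (-r) r ×ˢ Set.Icc (-r) r).encard : ENat) : ENNReal) /
      ENNReal.ofReal (4 * r ^ 2)) Filter.atTop

/-- `L` is a lattice `{i u + j v : i, j ∈ ℤ}` with `u`, `v` linearly independent. -/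
def IsLattice (L : Set (ℝ × ℝ)) : Prop :=
  ∃ u v : ℝ × ℝ, LinearIndependent ℝ ![u, v] ∧
    L = {x | ∃ i j : ℤ, x = (i : ℝ) • u + (j : ℝ) • v}

/-- The translative piercing density of the two rectangles `w₁ × h₁` and `w₂ × h₂`. -/
noncomputable def piT (w₁ h₁ w₂ h₂ : ℝ) : ENNReal :=
  sInf {d | ∃ P : Set (ℝ × ℝ), Pierces P w₁ h₁ ∧ Pierces P w₂ h₂ ∧ d = dens P}

/-- The lattice piercing density of the two rectangles `w₁ × h₁` and `w₂ × h₂`. -/
noncomputable def piL (w₁ h₁ w₂ h₂ : ℝ) : ENNReal :=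
  sInf {d | ∃ L : Set (ℝ × ℝ), IsLattice L ∧ Pierces L w₁ h₁ ∧ Pierces L w₂ h₂ ∧ d = dens L}

/-- The half-open box `[q, q + (A, B))`. -/
def hbox (A B : ℝ) (q : ℝ × ℝ) : Set (ℝ × ℝ) :=
  Set.Ico q.1 (q.1 + A) ×ˢ Set.Ico q.2 (q.2 + B)

open Classical in
/-- number of points of `F` in the half-open box -/
noncomputable def cnt (F : Finset (ℝ × ℝ)) (A B : ℝ) (q : ℝ × ℝ) : ℕ :=
  (F.filter (fun e => e ∈ hbox A B q)).card

/-- Every half-open `1 × B` rectangle and every half-open `A × 1` rectangle inside the box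
`[q, q + (A, B))` contains a point of `F`. -/
def LocPierce (F : Finset (ℝ × ℝ)) (A B : ℝ) (q : ℝ × ℝ) : Prop :=
  (∀ x, q.1 ≤ x → x + 1 ≤ q.1 + A → ∃ e ∈ F, e ∈ hbox 1 B (x, q.2)) ∧
  (∀ y, q.2 ≤ y → y + 1 ≤ q.2 + B → ∃ e ∈ F, e ∈ hbox A 1 (q.1, y))

/-- number of sides: `1` for the extreme indices `0`, `n`, and `0` otherwise -/
def side (n i : ℕ) : ℕ := if i = 0 ∨ i = n then 1 else 0

/-- the extra weight of corner positions -/
noncomputable def enh (n : ℕ) (A B : ℝ) (F : Finset (ℝ × ℝ)) (i j : ℕ) (q : ℝ × ℝ) : ℕ :=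
  if i = 0 ∧ j = 0 ∧ 2 ≤ cnt F 1 1 (q + (A - 1, B - 1)) then 1 else
  if i = n ∧ j = n ∧ 2 ≤ cnt F 1 1 q then 1 else
  if i = 0 ∧ j = n ∧ 2 ≤ cnt F 1 1 (q + (A - 1, 0)) then 1 else
  if i = n ∧ j = 0 ∧ 2 ≤ cnt F 1 1 (q + (0, B - 1)) then 1 else 0

/-- Twice the weight which the box at `q` gives to a point in the position `(i, j)`. -/
noncomputable def wpos (n : ℕ) (A B : ℝ) (F : Finset (ℝ × ℝ)) (i j : ℕ) (q : ℝ × ℝ) : ℕ :=
  if n + 2 ≤ cnt F A B q then 2 - side n i - side n j + enh n A B F i j q else 0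

open Classical in
/-- Twice the weight which the box `[q, q + (A, B))`, `A = n + α`, `B = n + β`, gives to the
point `p`: nonzero only if the box has at least `n + 2` points and
`p ∈ q + [i, i + α) × [j, j + β)` for some `0 ≤ i, j ≤ n`. -/
noncomputable def w2 (n : ℕ) (A B : ℝ) (F : Finset (ℝ × ℝ)) (q p : ℝ × ℝ) : ℕ :=
  ∑ i ∈ Finset.range (n + 1), ∑ j ∈ Finset.range (n + 1),
    if p ∈ hbox (A - n) (B - n) (q + ((i : ℝ), (j : ℝ))) then wpos n A B F i j q else 0

end Pool.Agent.H673.PR
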