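import Pool.Agent.H673.PR.Stm

/-!
# Piercing two rectangles: from the counting inequality to the density
-/

set_option autoImplicit false

open MeasureTheory Set Filter Topology

namespace Pool.Agent.H673.PR

/-- comparison of the quotients for one radius -/
lemma dn_quot (S : Set (ℝ × ℝ)) (a r : ℝ) (hr : 0 < r)
    (h : ∀ hf : S.Finite, a ≤ (hf.toFinset.card : ℝ)) :
    ENNReal.ofReal (a / (4 * r ^ 2)) ≤
      ((S.encard : ENat) : ENNReal) / ENNReal.ofReal (4 * r ^ 2) := by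
  have hr2 : 0 < 4 * r ^ 2 := by positivity
  by_cases hf : S.Finite
  · rw [ENNReal.ofReal_div_of_pos hr2]
    refine ENNReal.div_le_div_right ?_ _
    rw [hf.encard_eq_coe_toFinset_card, ENat.toENNReal_coe, ← ENNReal.ofReal_natCast]
    exact ENNReal.ofReal_le_ofReal (h hf)
  · rw [Set.Infinite.encard_eq hf, ENat.toENNReal_top,
      ENNReal.top_div_of_ne_top ENNReal.ofReal_ne_top]
    exact le_top

/-- lower bound of the upper density -/
lemma dn_le_dens (P : Set (ℝ × ℝ)) (g : ℝ → ℝ) (L : ℝ) (hg : Tendsto g atTop (𝓝 L))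
    (h : ∀ᶠ r in atTop, ENNReal.ofReal (g r) ≤
      (((P ∩ Set.Icc (-r) r ×ˢ Set.Icc (-r) r).encard : ENat) : ENNReal) /
      ENNReal.ofReal (4 * r ^ 2)) : ENNReal.ofReal L ≤ dens P := by
  have h1 : Tendsto (fun r => ENNReal.ofReal (g r)) atTop (𝓝 (ENNReal.ofReal L)) :=
    ENNReal.tendsto_ofReal hg
  unfold dens
  rw [← h1.limsup_eq]
  exact limsup_le_limsup h

lemma dn_eps (hC : S_Count) (n : ℕ) (w₁ h₁ w₂ h₂ : ℝ) (hn : 1 ≤ n) (hw1 : 0 < w₁) (hh1 : 0 < h₁)
    (hw2 : 0 < w₂) (hh2 : 0 < h₂) (g1 : n * w₂ < w₁) (g2 : w₁ < (n + 1) * w₂)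
    (g3 : n * h₁ < h₂) (g4 : h₂ < (n + 1) * h₁)
    (g5 : n = 1 ∨ 2 * (n : ℝ) + 1 ≤ w₁ / w₂ + h₂ / h₁)
    (P : Set (ℝ × ℝ)) (hP1 : Pierces P w₁ h₁) (hP2 : Pierces P w₂ h₂) (ε : ℝ) (hε : 0 < ε) :
    ENNReal.ofReal (n / (w₂ * (1 + ε) * (h₁ * (1 + ε)) *
      (n + (w₁ / w₂ - 1) * (h₂ / h₁ - 1)))) ≤ dens P := by
  classical
  have hn1 : (1 : ℝ) ≤ n := by exact_mod_cast hn
  set A : ℝ := w₁ / w₂ with hA
  set B : ℝ := h₂ / h₁ with hB
  have a1 : (n : ℝ) < A := by rw [hA, lt_div_iff₀ hw2]; exact g1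
  have a2 : A < n + 1 := by rw [hA, div_lt_iff₀ hw2]; exact g2
  have b1 : (n : ℝ) < B := by rw [hB, lt_div_iff₀ hh1]; exact g3
  have b2 : B < n + 1 := by rw [hB, div_lt_iff₀ hh1]; exact g4
  have eA : w₁ = A * w₂ := by rw [hA]; field_simp
  have eB : h₂ = B * h₁ := by rw [hB]; field_simp
  set D : ℝ := n + (A - 1) * (B - 1) with hD
  have hD0 : 0 < D := by
    have : 0 ≤ (A - 1) * (B - 1) := mul_nonneg (by linarith) (by linarith)
    rw [hD]
    linarith
  set k1 : ℝ := w₂ * (1 + ε) with hk1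
  set k2 : ℝ := h₁ * (1 + ε) with hk2
  have k10 : 0 < k1 := by positivity
  have k20 : 0 < k2 := by positivity
  have hk1w : w₂ < k1 := by rw [hk1]; nlinarith
  have hk2h : h₁ < k2 := by rw [hk2]; nlinarith
  -- the bound for one radius
  have hone : ∀ r : ℝ, 3 * A * k1 ≤ 2 * r → 3 * B * k2 ≤ 2 * r →
      ∀ hf : (P ∩ Set.Icc (-r) r ×ˢ Set.Icc (-r) r).Finite,
      n * ((2 * (r / k1) - 3 * A) * (2 * (r / k2) - 3 * B)) / D ≤ (hf.toFinset.card : ℝ) := by
    intro r hr1 hr2 hf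
    rw [div_le_iff₀ hD0]
    have hinj : Function.Injective (fun z : ℝ × ℝ => (z.1 / k1, z.2 / k2)) := by
      intro x y hxy
      simp only [Prod.mk.injEq] at hxy
      rw [div_left_inj' k10.ne', div_left_inj' k20.ne'] at hxy
      exact Prod.ext hxy.1 hxy.2
    set F : Finset (ℝ × ℝ) := hf.toFinset.image (fun z : ℝ × ℝ => (z.1 / k1, z.2 / k2)) with hF
    have hFc : F.card = hf.toFinset.card := Finset.card_image_of_injective _ hinj
    have hmemF : ∀ z : ℝ × ℝ, z ∈ P → -(r / k1) ≤ z.1 / k1 → z.1 / k1 ≤ r / k1 →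
        -(r / k2) ≤ z.2 / k2 → z.2 / k2 ≤ r / k2 → (z.1 / k1, z.2 / k2) ∈ F := by
      intro z hz c1 c2 c3 c4
      rw [hF, Finset.mem_image]
      refine ⟨z, ?_, rfl⟩
      rw [Set.Finite.mem_toFinset, Set.mem_inter_iff, Set.mem_prod, Set.mem_Icc, Set.mem_Icc]
      rw [← neg_div, div_le_div_iff_of_pos_right k10] at c1
      rw [div_le_div_iff_of_pos_right k10] at c2
      rw [← neg_div, div_le_div_iff_of_pos_right k20] at c3
      rw [div_le_div_iff_of_pos_right k20] at c4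
      exact ⟨hz, ⟨c1, c2⟩, c3, c4⟩
    have e1 : (n : ℝ) + (A - n) = A := by ring
    have e2 : (n : ℝ) + (B - n) = B := by ring
    have h := hC n (A - n) (B - n) (r / k1) (r / k2) F hn (by linarith) (by linarith)
      (by linarith) (by linarith)
    rw [e1, e2, hFc] at h
    refine h ?_ ?_ ?_ ?_ ?_
    · rcases g5 with g | g
      · exact Or.inl g
      · right
        linarith
    · rw [← mul_div_assoc 2 r k1, le_div_iff₀ k10]
      exact hr1
    · rw [← mul_div_assoc 2 r k2, le_div_iff₀ k20]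
      exact hr2
    · intro e he
      rw [hF, Finset.mem_image] at he
      obtain ⟨z, hz, rfl⟩ := he
      rw [Set.Finite.mem_toFinset, Set.mem_inter_iff, Set.mem_prod, Set.mem_Icc,
        Set.mem_Icc] at hz
      obtain ⟨-, ⟨z1, z2⟩, z3, z4⟩ := hz
      rw [Set.mem_prod, Set.mem_Icc, Set.mem_Icc, ← neg_div, ← neg_div]
      exact ⟨⟨div_le_div_of_nonneg_right z1 k10.le, div_le_div_of_nonneg_right z2 k10.le⟩,
        div_le_div_of_nonneg_right z3 k20.le, div_le_div_of_nonneg_right z4 k20.le⟩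
    · intro q hq
      refine ⟨fun x hx1 hx2 => ?_, fun y hy1 hy2 => ?_⟩
      · obtain ⟨z, hzP, hz⟩ := hP2 (k1 * x, k2 * q.2)
        unfold rect at hz
        rw [Set.mem_prod, Set.mem_Icc, Set.mem_Icc] at hz
        simp only at hz
        obtain ⟨⟨z1, z2⟩, z3, z4⟩ := hz
        have i1 : x ≤ z.1 / k1 := by rw [le_div_iff₀ k10]; linarith
        have i2 : z.1 / k1 < x + 1 := by rw [div_lt_iff₀ k10]; linarith
        have i3 : q.2 ≤ z.2 / k2 := by rw [le_div_iff₀ k20]; linarith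
        have i4 : z.2 / k2 < q.2 + B := by
          rw [div_lt_iff₀ k20]
          have : B * h₁ < B * k2 := mul_lt_mul_of_pos_left hk2h (by linarith)
          rw [eB] at z4
          linarith
        have hin : (z.1 / k1, z.2 / k2) ∈ hbox A B q := by
          unfold hbox
          rw [Set.mem_prod, Set.mem_Ico, Set.mem_Ico]
          simp only
          refine ⟨⟨?_, ?_⟩, ?_, ?_⟩ <;> linarith
        have hin2 := hq hin
        rw [Set.mem_prod, Set.mem_Icc, Set.mem_Icc] at hin2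
        simp only at hin2
        obtain ⟨⟨j1, j2⟩, j3, j4⟩ := hin2
        refine ⟨(z.1 / k1, z.2 / k2), hmemF z hzP j1 j2 j3 j4, ?_⟩
        unfold hbox
        rw [Set.mem_prod, Set.mem_Ico, Set.mem_Ico]
        simp only
        exact ⟨⟨i1, i2⟩, i3, i4⟩
      · obtain ⟨z, hzP, hz⟩ := hP1 (k1 * q.1, k2 * y)
        unfold rect at hz
        rw [Set.mem_prod, Set.mem_Icc, Set.mem_Icc] at hz
        simp only at hz
        obtain ⟨⟨z1, z2⟩, z3, z4⟩ := hz
        have i1 : q.1 ≤ z.1 / k1 := by rw [le_div_iff₀ k10]; linarith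
        have i2 : z.1 / k1 < q.1 + A := by
          rw [div_lt_iff₀ k10]
          have : A * w₂ < A * k1 := mul_lt_mul_of_pos_left hk1w (by linarith)
          rw [eA] at z2
          linarith
        have i3 : y ≤ z.2 / k2 := by rw [le_div_iff₀ k20]; linarith
        have i4 : z.2 / k2 < y + 1 := by rw [div_lt_iff₀ k20]; linarith
        have hin : (z.1 / k1, z.2 / k2) ∈ hbox A B q := by
          unfold hbox
          rw [Set.mem_prod, Set.mem_Ico, Set.mem_Ico]
          simp only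
          refine ⟨⟨?_, ?_⟩, ?_, ?_⟩ <;> linarith
        have hin2 := hq hin
        rw [Set.mem_prod, Set.mem_Icc, Set.mem_Icc] at hin2
        simp only at hin2
        obtain ⟨⟨j1, j2⟩, j3, j4⟩ := hin2
        refine ⟨(z.1 / k1, z.2 / k2), hmemF z hzP j1 j2 j3 j4, ?_⟩
        unfold hbox
        rw [Set.mem_prod, Set.mem_Ico, Set.mem_Ico]
        simp only
        exact ⟨⟨i1, i2⟩, i3, i4⟩
  -- the limit
  refine dn_le_dens P (fun r => n * ((2 * (r / k1) - 3 * A) * (2 * (r / k2) - 3 * B)) / D /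
    (4 * r ^ 2)) _ ?_ ?_
  · have h1 : Tendsto (fun r : ℝ => n / D * ((2 / k1 - 3 * A / r) * (2 / k2 - 3 * B / r)) / 4)
        atTop (𝓝 (n / D * ((2 / k1 - 0) * (2 / k2 - 0)) / 4)) := by
      refine Tendsto.div_const (Tendsto.const_mul _ (Tendsto.mul ?_ ?_)) _
      · exact tendsto_const_nhds.sub (tendsto_const_nhds.div_atTop tendsto_id)
      · exact tendsto_const_nhds.sub (tendsto_const_nhds.div_atTop tendsto_id)
    have e : (n : ℝ) / D * ((2 / k1 - 0) * (2 / k2 - 0)) / 4 = n / (k1 * k2 * D) := by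
      field_simp
      ring
    rw [e] at h1
    refine h1.congr' ?_
    filter_upwards [eventually_gt_atTop 0] with r hr
    field_simp
  · filter_upwards [eventually_gt_atTop 0, eventually_ge_atTop (3 * A * k1 / 2),
      eventually_ge_atTop (3 * B * k2 / 2)] with r hr r1 r2
    exact dn_quot _ _ r hr (hone r (by linarith) (by linarith))

theorem dens_of : S_Count → S_Dens := by
  intro hC n w₁ h₁ w₂ h₂ hn hw1 hh1 hw2 hh2 g1 g2 g3 g4 g5 P hP1 hP2
  have hn1 : (1 : ℝ) ≤ n := by exact_mod_cast hn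
  have a1 : (n : ℝ) < w₁ / w₂ := by rw [lt_div_iff₀ hw2]; exact g1
  have b1 : (n : ℝ) < h₂ / h₁ := by rw [lt_div_iff₀ hh1]; exact g3
  have hD0 : 0 < n + (w₁ / w₂ - 1) * (h₂ / h₁ - 1) := by
    have : 0 ≤ (w₁ / w₂ - 1) * (h₂ / h₁ - 1) := mul_nonneg (by linarith) (by linarith)
    linarith
  set D : ℝ := n + (w₁ / w₂ - 1) * (h₂ / h₁ - 1) with hD
  have hlim : Tendsto (fun ε : ℝ => ENNReal.ofReal (n / (w₂ * (1 + ε) * (h₁ * (1 + ε)) * D)))
      (𝓝[>] 0) (𝓝 (ENNReal.ofReal (n / (w₂ * (1 + 0) * (h₁ * (1 + 0)) * D)))) := by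
    refine ENNReal.tendsto_ofReal (tendsto_nhdsWithin_of_tendsto_nhds ?_)
    have hc : ContinuousAt (fun ε : ℝ => n / (w₂ * (1 + ε) * (h₁ * (1 + ε)) * D)) 0 := by
      refine ContinuousAt.div continuousAt_const (by fun_prop) ?_
      have : 0 < w₂ * (1 + 0) * (h₁ * (1 + 0)) * D := by
        simp only [add_zero, mul_one]
        positivity
      exact this.ne'
    exact hc
  simp only [add_zero, mul_one] at hlim
  refine le_of_tendsto hlim ?_
  filter_upwards [self_mem_nhdsWithin] with ε hε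
  exact dn_eps hC n w₁ h₁ w₂ h₂ hn hw1 hh1 hw2 hh2 g1 g2 g3 g4 g5 P hP1 hP2 ε hε

end Pool.Agent.H673.PR
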