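import Pool.Agent.H673.PR.Stm

set_option autoImplicit false

open MeasureTheory Set

namespace Pool.Agent.H673.PR

namespace K1

theorem mem_hb {w h : ℝ} {c p : ℝ × ℝ} :
    p ∈ hbox w h c ↔ (c.1 ≤ p.1 ∧ p.1 < c.1 + w) ∧ (c.2 ≤ p.2 ∧ p.2 < c.2 + h) := Iff.rfl

open Classical in
/-- indicator of a box -/
noncomputable def ind (w h : ℝ) (c p : ℝ × ℝ) : ℕ := if p ∈ hbox w h c then 1 else 0

theorem cnt_eq (F : Finset (ℝ × ℝ)) (w h : ℝ) (c : ℝ × ℝ) : cnt F w h c = ∑ p ∈ F, ind w h c p := by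
  classical
  unfold cnt ind
  rw [Finset.card_filter]

theorem one_dim {n : ℕ} {A x : ℝ} (hn : 2 ≤ n) (h1 : (n : ℝ) < A) (h2 : A < n + 1) {i : ℕ}
    (hi : i ≤ n) (hx1 : (i : ℝ) ≤ x) (hx2 : x < i + (A - n)) :
    0 ≤ x ∧ x < A ∧ (side n i = 1 ↔ (x < 1 ∨ A - 1 ≤ x)) ∧ (i = 0 → x < 1) ∧
      (i = n → A - 1 ≤ x) ∧ side n i ≤ 1 := by
  have hn' : (2 : ℝ) ≤ n := by exact_mod_cast hn
  have hi' : (i : ℝ) ≤ n := by exact_mod_cast hi
  have h0 : (0 : ℝ) ≤ i := Nat.cast_nonneg i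
  refine ⟨h0.trans hx1, by linarith, ?_, ?_, ?_, ?_⟩
  · unfold side
    by_cases h3 : i = 0 ∨ i = n
    · rw [if_pos h3]
      rcases h3 with h3 | h3
      · subst h3
        simp only [Nat.cast_zero, zero_add] at hx2
        exact ⟨fun _ => Or.inl (by linarith), fun _ => rfl⟩
      · subst h3
        exact ⟨fun _ => Or.inr (by linarith), fun _ => rfl⟩
    · rw [if_neg h3]
      push Not at h3
      have h4 : (1 : ℝ) ≤ i := by exact_mod_cast Nat.one_le_iff_ne_zero.mpr h3.1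
      have h5 : (i : ℝ) + 1 ≤ n := by exact_mod_cast Nat.lt_of_le_of_ne hi h3.2
      constructor
      · intro h; exact absurd h (by norm_num)
      · rintro (h | h)
        · linarith
        · linarith
  · rintro rfl
    simp only [Nat.cast_zero, zero_add] at hx2
    linarith
  · rintro rfl
    linarith
  · unfold side; split_ifs <;> omega

theorem uniq {A : ℝ} {n : ℕ} (h2 : A < n + 1) {i j : ℕ} {x : ℝ} (hi1 : (i : ℝ) ≤ x)
    (hi2 : x < i + (A - n)) (hj1 : (j : ℝ) ≤ x) (hj2 : x < j + (A - n)) : i = j := by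
  rcases lt_trichotomy i j with h | h | h
  · have : (i : ℝ) + 1 ≤ j := by exact_mod_cast h
    linarith
  · exact h
  · have : (j : ℝ) + 1 ≤ i := by exact_mod_cast h
    linarith

theorem cnt_ge {n : ℕ} {A B : ℝ} {F : Finset (ℝ × ℝ)} {q : ℝ × ℝ} (h3 : (n : ℝ) < B)
    (h : LocPierce F A B q) : n ≤ cnt F A B q := by
  classical
  have hex : ∀ k : Fin n, ∃ e ∈ F, e ∈ hbox A 1 (q.1, q.2 + (k : ℕ)) := by
    intro k
    refine h.2 _ (by have := Nat.cast_nonneg (α := ℝ) (k : ℕ); linarith) ?_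
    have : ((k : ℕ) : ℝ) + 1 ≤ n := by exact_mod_cast k.2
    linarith
  choose e he1 he2 using hex
  have hinj : Function.Injective e := by
    intro a b hab
    have h1 := (mem_hb.mp (he2 a)).2
    have h2 := (mem_hb.mp (he2 b)).2
    rw [hab] at h1
    apply Fin.ext
    dsimp only at h1 h2
    rcases lt_trichotomy (a : ℕ) (b : ℕ) with h | h | h
    · have : ((a : ℕ) : ℝ) + 1 ≤ (b : ℕ) := by exact_mod_cast h
      linarith [h1.1, h1.2, h2.1, h2.2]
    · exact h
    · have : ((b : ℕ) : ℝ) + 1 ≤ (a : ℕ) := by exact_mod_cast h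
      linarith [h1.1, h1.2, h2.1, h2.2]
  have hsub : (Finset.univ.image e) ⊆ F.filter (fun e => e ∈ hbox A B q) := by
    intro x hx
    obtain ⟨k, -, rfl⟩ := Finset.mem_image.mp hx
    refine Finset.mem_filter.mpr ⟨he1 k, ?_⟩
    obtain ⟨h1, h2⟩ := mem_hb.mp (he2 k)
    dsimp only at h1 h2
    have hk : ((k : ℕ) : ℝ) + 1 ≤ n := by exact_mod_cast k.2
    have hk0 := Nat.cast_nonneg (α := ℝ) (k : ℕ)
    exact mem_hb.mpr ⟨h1, by linarith [h2.1], by linarith [h2.2]⟩
  have hcard := Finset.card_le_card hsub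
  rw [Finset.card_image_of_injective _ hinj, Finset.card_univ, Fintype.card_fin] at hcard
  exact hcard

theorem cnt_pos_of {F : Finset (ℝ × ℝ)} {w h : ℝ} {c : ℝ × ℝ} (hex : ∃ e ∈ F, e ∈ hbox w h c) :
    1 ≤ cnt F w h c := by
  classical
  obtain ⟨e, he, he'⟩ := hex
  exact Finset.card_pos.mpr ⟨e, Finset.mem_filter.mpr ⟨he, he'⟩⟩

open Classical in
theorem pointwise {n : ℕ} {A B : ℝ} {F : Finset (ℝ × ℝ)} {q : ℝ × ℝ} (hn : 2 ≤ n)
    (hA1 : (n : ℝ) < A) (hA2 : A < n + 1) (hB1 : (n : ℝ) < B) (hB2 : B < n + 1)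
    (hN : n + 2 ≤ cnt F A B q) (p : ℝ × ℝ) :
    w2 n A B F q p + ind 1 B q p + ind 1 B (q + (A - 1, 0)) p + ind A 1 q p +
        ind A 1 (q + (0, B - 1)) p ≤
      2 * ind A B q p + ind 1 1 q p * (if 2 ≤ cnt F 1 1 (q + (A - 1, B - 1)) then 1 else 0) +
        ind 1 1 (q + (A - 1, B - 1)) p * (if 2 ≤ cnt F 1 1 q then 1 else 0) +
        ind 1 1 (q + (0, B - 1)) p * (if 2 ≤ cnt F 1 1 (q + (A - 1, 0)) then 1 else 0) +
        ind 1 1 (q + (A - 1, 0)) p * (if 2 ≤ cnt F 1 1 (q + (0, B - 1)) then 1 else 0) := by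
  have hn' : (2 : ℝ) ≤ n := by exact_mod_cast hn
  have eL : ∀ w h : ℝ, p ∈ hbox w h q ↔
      (0 ≤ p.1 - q.1 ∧ p.1 - q.1 < w) ∧ (0 ≤ p.2 - q.2 ∧ p.2 - q.2 < h) := by
    intro w h
    rw [mem_hb]
    constructor
    · rintro ⟨⟨a, b⟩, c, d⟩
      exact ⟨⟨by linarith, by linarith⟩, by linarith, by linarith⟩
    · rintro ⟨⟨a, b⟩, c, d⟩
      exact ⟨⟨by linarith, by linarith⟩, by linarith, by linarith⟩
  have eG : ∀ w h a b : ℝ, p ∈ hbox w h (q + (a, b)) ↔
      (a ≤ p.1 - q.1 ∧ p.1 - q.1 < a + w) ∧ (b ≤ p.2 - q.2 ∧ p.2 - q.2 < b + h) := by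
    intro w h a b
    rw [mem_hb]
    simp only [Prod.fst_add, Prod.snd_add]
    constructor
    · rintro ⟨⟨a, b⟩, c, d⟩
      exact ⟨⟨by linarith, by linarith⟩, by linarith, by linarith⟩
    · rintro ⟨⟨a, b⟩, c, d⟩
      exact ⟨⟨by linarith, by linarith⟩, by linarith, by linarith⟩
  simp only [ind, eL, eG]
  generalize hcd : cnt F 1 1 (q + (A - 1, B - 1)) = x2
  generalize hca : cnt F 1 1 q = x1
  generalize hcb : cnt F 1 1 (q + (0, B - 1)) = x3
  generalize hcc : cnt F 1 1 (q + (A - 1, 0)) = x4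
  set x := p.1 - q.1 with hx
  set y := p.2 - q.2 with hy
  have s1 : A - 1 + 1 = A := by ring
  have s2 : B - 1 + 1 = B := by ring
  simp only [s1, s2, zero_add]
  by_cases hex : ∃ i j : ℕ, i ≤ n ∧ j ≤ n ∧ (((i : ℝ) ≤ x ∧ x < i + (A - n)) ∧
      ((j : ℝ) ≤ y ∧ y < j + (B - n)))
  · obtain ⟨i, j, hi, hj, ⟨hi1, hi2⟩, hj1, hj2⟩ := hex
    have hw : w2 n A B F q p = wpos n A B F i j q := by
      unfold w2
      rw [Finset.sum_eq_single i, Finset.sum_eq_single j]
      · rw [if_pos ((eG _ _ _ _).mpr ⟨⟨hi1, hi2⟩, hj1, hj2⟩)]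
      · intro j' _ hj'
        rw [if_neg]
        rintro h
        have h' := (eG _ _ _ _).mp h
        exact hj' (uniq hB2 h'.2.1 h'.2.2 hj1 hj2)
      · intro h; exact absurd (Finset.mem_range.mpr (by omega)) h
      · intro i' _ hi'
        refine Finset.sum_eq_zero fun j' _ => ?_
        rw [if_neg]
        rintro h
        have h' := (eG _ _ _ _).mp h
        exact hi' (uniq hA2 h'.1.1 h'.1.2 hi1 hi2)
      · intro h; exact absurd (Finset.mem_range.mpr (by omega)) h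
    rw [hw, wpos, if_pos hN, enh, hcd, hca, hcb, hcc]
    obtain ⟨a1, a2, a3, a4, a5, a6⟩ := one_dim hn hA1 hA2 hi hi1 hi2
    obtain ⟨b1, b2, b3, b4, b5, b6⟩ := one_dim hn hB1 hB2 hj hj1 hj2
    have hlr : ¬ (x < 1 ∧ A - 1 ≤ x) := by rintro ⟨h1, h2⟩; linarith
    have hbt : ¬ (y < 1 ∧ B - 1 ≤ y) := by rintro ⟨h1, h2⟩; linarith
    simp only [a1, a2, b1, b2, true_and, and_true]
    generalize side n i = si at *
    generalize side n j = sj at *
    by_cases c1 : x < 1 <;> by_cases c2 : A - 1 ≤ x <;> by_cases c3 : y < 1 <;>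
      by_cases c4 : B - 1 ≤ y <;> simp only [c1, c2, c3, c4, if_true, if_false, true_and, and_true,
        and_false, false_and, or_true, true_or, or_false, iff_true, iff_false, imp_false,
        imp_true_iff, not_true_eq_false, not_false_eq_true] at * <;>
      split_ifs <;> omega
  · have hw : w2 n A B F q p = 0 := by
      unfold w2
      refine Finset.sum_eq_zero fun i hi => Finset.sum_eq_zero fun j hj => ?_
      rw [if_neg]
      intro h
      have h' := (eG _ _ _ _).mp h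
      rw [Finset.mem_range] at hi hj
      exact hex ⟨i, j, by omega, by omega, h'⟩
    rw [hw]
    by_cases c0 : 0 ≤ x <;> by_cases c1 : x < 1 <;> by_cases c2 : A - 1 ≤ x <;>
      by_cases c5 : x < A <;> by_cases d0 : 0 ≤ y <;> by_cases c3 : y < 1 <;>
      by_cases c4 : B - 1 ≤ y <;> by_cases c6 : y < B <;>
      simp only [c0, c1, c2, c3, c4, c5, c6, d0, if_true, if_false, true_and, and_true,
        and_false, false_and] <;> first | omega | (exfalso; linarith)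

theorem sub_add {F : Finset (ℝ × ℝ)} {w h w1 h1 w2 h2 : ℝ} {c c1 c2 : ℝ × ℝ}
    (s1 : hbox w1 h1 c1 ⊆ hbox w h c) (s2 : hbox w2 h2 c2 ⊆ hbox w h c)
    (hd : ∀ p, p ∈ hbox w1 h1 c1 → p ∉ hbox w2 h2 c2) :
    cnt F w1 h1 c1 + cnt F w2 h2 c2 ≤ cnt F w h c := by
  classical
  rw [cnt_eq, cnt_eq, cnt_eq, ← Finset.sum_add_distrib]
  refine Finset.sum_le_sum fun p _ => ?_
  unfold ind
  have a := @s1 p
  have b := @s2 p
  have d := hd p
  by_cases e1 : p ∈ hbox w1 h1 c1 <;> by_cases e2 : p ∈ hbox w2 h2 c2 <;>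
    by_cases e3 : p ∈ hbox w h c <;> simp_all

end K1

theorem cnt_ge {n : ℕ} {A B : ℝ} {F : Finset (ℝ × ℝ)} {q : ℝ × ℝ} (h3 : (n : ℝ) < B)
    (h : LocPierce F A B q) : n ≤ cnt F A B q := K1.cnt_ge h3 h

theorem k1 : S_K1 := by
  classical
  intro n A B F q hn hA1 hA2 hB1 hB2 hLP
  have hn' : (2 : ℝ) ≤ n := by exact_mod_cast hn
  have hge := K1.cnt_ge hB1 hLP
  by_cases hN : n + 2 ≤ cnt F A B q
  · have hsum := Finset.sum_le_sum fun p (_ : p ∈ F) =>
      K1.pointwise (F := F) (q := q) hn hA1 hA2 hB1 hB2 hN p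
    simp only [Finset.sum_add_distrib, ← Finset.mul_sum, ← Finset.sum_mul, ← K1.cnt_eq] at hsum
    have g1 : cnt F 1 1 q + cnt F 1 1 (q + (0, B - 1)) ≤ cnt F 1 B q := by
      refine K1.sub_add ?_ ?_ ?_
      · intro p hp
        obtain ⟨h1, h2⟩ := K1.mem_hb.mp hp
        exact K1.mem_hb.mpr ⟨h1, h2.1, by linarith [h2.2]⟩
      · intro p hp
        obtain ⟨h1, h2⟩ := K1.mem_hb.mp hp
        simp only [Prod.fst_add, Prod.snd_add, add_zero] at h1 h2
        exact K1.mem_hb.mpr ⟨h1, by linarith [h2.1], by linarith [h2.2]⟩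
      · intro p hp hp'
        obtain ⟨h1, h2⟩ := K1.mem_hb.mp hp
        obtain ⟨h3, h4⟩ := K1.mem_hb.mp hp'
        simp only [Prod.fst_add, Prod.snd_add, add_zero] at h3 h4
        linarith [h2.2, h4.1]
    have g2 : cnt F 1 1 (q + (A - 1, B - 1)) + cnt F 1 1 (q + (A - 1, 0)) ≤
        cnt F 1 B (q + (A - 1, 0)) := by
      refine K1.sub_add ?_ ?_ ?_
      · intro p hp
        obtain ⟨h1, h2⟩ := K1.mem_hb.mp hp
        simp only [Prod.fst_add, Prod.snd_add, add_zero] at h1 h2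
        refine K1.mem_hb.mpr ?_
        simp only [Prod.fst_add, Prod.snd_add, add_zero]
        exact ⟨h1, by linarith [h2.1], by linarith [h2.2]⟩
      · intro p hp
        obtain ⟨h1, h2⟩ := K1.mem_hb.mp hp
        simp only [Prod.fst_add, Prod.snd_add, add_zero] at h1 h2
        refine K1.mem_hb.mpr ?_
        simp only [Prod.fst_add, Prod.snd_add, add_zero]
        exact ⟨h1, by linarith [h2.1], by linarith [h2.2]⟩
      · intro p hp hp'
        obtain ⟨h1, h2⟩ := K1.mem_hb.mp hp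
        obtain ⟨h3, h4⟩ := K1.mem_hb.mp hp'
        simp only [Prod.fst_add, Prod.snd_add, add_zero] at h1 h2 h3 h4
        linarith [h2.1, h4.2]
    have g3 : cnt F 1 1 q + cnt F 1 1 (q + (A - 1, 0)) ≤ cnt F A 1 q := by
      refine K1.sub_add ?_ ?_ ?_
      · intro p hp
        obtain ⟨h1, h2⟩ := K1.mem_hb.mp hp
        exact K1.mem_hb.mpr ⟨⟨h1.1, by linarith [h1.2]⟩, h2⟩
      · intro p hp
        obtain ⟨h1, h2⟩ := K1.mem_hb.mp hp
        simp only [Prod.fst_add, Prod.snd_add, add_zero] at h1 h2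
        exact K1.mem_hb.mpr ⟨⟨by linarith [h1.1], by linarith [h1.2]⟩, h2⟩
      · intro p hp hp'
        obtain ⟨h1, h2⟩ := K1.mem_hb.mp hp
        obtain ⟨h3, h4⟩ := K1.mem_hb.mp hp'
        simp only [Prod.fst_add, Prod.snd_add, add_zero] at h3 h4
        linarith [h1.2, h3.1]
    have g4 : cnt F 1 1 (q + (A - 1, B - 1)) + cnt F 1 1 (q + (0, B - 1)) ≤
        cnt F A 1 (q + (0, B - 1)) := by
      refine K1.sub_add ?_ ?_ ?_
      · intro p hp
        obtain ⟨h1, h2⟩ := K1.mem_hb.mp hp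
        simp only [Prod.fst_add, Prod.snd_add, add_zero] at h1 h2
        refine K1.mem_hb.mpr ?_
        simp only [Prod.fst_add, Prod.snd_add, add_zero]
        exact ⟨⟨by linarith [h1.1], by linarith [h1.2]⟩, h2⟩
      · intro p hp
        obtain ⟨h1, h2⟩ := K1.mem_hb.mp hp
        simp only [Prod.fst_add, Prod.snd_add, add_zero] at h1 h2
        refine K1.mem_hb.mpr ?_
        simp only [Prod.fst_add, Prod.snd_add, add_zero]
        exact ⟨⟨by linarith [h1.1], by linarith [h1.2]⟩, h2⟩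
      · intro p hp hp'
        obtain ⟨h1, h2⟩ := K1.mem_hb.mp hp
        obtain ⟨h3, h4⟩ := K1.mem_hb.mp hp'
        simp only [Prod.fst_add, Prod.snd_add, add_zero] at h1 h2 h3 h4
        linarith [h1.1, h3.2]
    have p1 : 1 ≤ cnt F 1 B q := K1.cnt_pos_of (hLP.1 q.1 le_rfl (by linarith))
    have p2 : 1 ≤ cnt F 1 B (q + (A - 1, 0)) := by
      refine K1.cnt_pos_of ?_
      have := hLP.1 (q.1 + (A - 1)) (by linarith) (by linarith)
      have e : q + (A - 1, 0) = (q.1 + (A - 1), q.2) := by ext <;> simp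
      rw [e]; exact this
    have p3 : 1 ≤ cnt F A 1 q := K1.cnt_pos_of (hLP.2 q.2 le_rfl (by linarith))
    have p4 : 1 ≤ cnt F A 1 (q + (0, B - 1)) := by
      refine K1.cnt_pos_of ?_
      have := hLP.2 (q.2 + (B - 1)) (by linarith) (by linarith)
      have e : q + (0, B - 1) = (q.1, q.2 + (B - 1)) := by ext <;> simp
      rw [e]; exact this
    generalize cnt F 1 B q = Lf at *
    generalize cnt F 1 B (q + (A - 1, 0)) = Rt at *
    generalize cnt F A 1 q = Bo at *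
    generalize cnt F A 1 (q + (0, B - 1)) = Tp at *
    generalize cnt F 1 1 q = x1 at *
    generalize cnt F 1 1 (q + (A - 1, B - 1)) = x2 at *
    generalize cnt F 1 1 (q + (0, B - 1)) = x3 at *
    generalize cnt F 1 1 (q + (A - 1, 0)) = x4 at *
    generalize ∑ p ∈ F, w2 n A B F q p = S at *
    generalize cnt F A B q = N at *
    have key : S + 4 ≤ 2 * N := by
      by_cases c1 : 2 ≤ x1 <;> by_cases c2 : 2 ≤ x2 <;> by_cases c3 : 2 ≤ x3 <;>
        by_cases c4 : 2 ≤ x4 <;> simp only [c1, c2, c3, c4, if_true, if_false, mul_one,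
          mul_zero, add_zero] at hsum <;> omega
    rw [if_neg (by omega)]
    obtain ⟨m, rfl⟩ : ∃ m, N = n + 2 + m := ⟨N - (n + 2), by omega⟩
    have hmn : m ≤ n * m := Nat.le_mul_of_pos_left m (by omega)
    nlinarith [hmn, key]
  · have hz : ∑ p ∈ F, w2 n A B F q p = 0 := by
      refine Finset.sum_eq_zero fun p _ => ?_
      unfold w2
      refine Finset.sum_eq_zero fun i _ => Finset.sum_eq_zero fun j _ => ?_
      rw [wpos, if_neg hN]
      simp
    rw [hz]
    have : cnt F A B q = n ∨ cnt F A B q = n + 1 := by omega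
    rcases this with h | h
    · rw [h, if_pos rfl]
      nlinarith
    · rw [h, if_neg (by omega)]

end Pool.Agent.H673.PR
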