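import Pool.Agent.H673.PR.Stm

set_option autoImplicit false

open Set

namespace Pool.Agent.H673.PR

lemma lat_up {S : Set (ℝ × ℝ)} {f : ℝ × ℝ → ℝ} {δ g x : ℝ}
    (hup : ∀ p ∈ S, ∃ p' ∈ S, f p + δ ≤ f p' ∧ f p' ≤ f p + g) :
    ∀ (n : ℕ) (p : ℝ × ℝ), p ∈ S → f p ≤ x + g → x - f p ≤ n * δ →
      ∃ p' ∈ S, x ≤ f p' ∧ f p' ≤ x + g := by
  intro n
  induction n with
  | zero =>
    intro p hp h1 h2
    refine ⟨p, hp, ?_, h1⟩
    simp at h2; linarith
  | succ n ih =>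
    intro p hp h1 h2
    by_cases h : x ≤ f p
    · exact ⟨p, hp, h, h1⟩
    · push Not at h
      obtain ⟨p', hp', h3, h4⟩ := hup p hp
      refine ih p' hp' (by linarith) ?_
      push_cast at h2
      linarith

lemma lat_down {S : Set (ℝ × ℝ)} {f : ℝ × ℝ → ℝ} {δ g x : ℝ}
    (hdn : ∀ p ∈ S, ∃ p' ∈ S, f p - g ≤ f p' ∧ f p' ≤ f p - δ) :
    ∀ (n : ℕ) (p : ℝ × ℝ), p ∈ S → x ≤ f p → f p - (x + g) ≤ n * δ →
      ∃ p' ∈ S, x ≤ f p' ∧ f p' ≤ x + g := by
  intro n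
  induction n with
  | zero =>
    intro p hp h1 h2
    refine ⟨p, hp, h1, ?_⟩
    simp at h2; linarith
  | succ n ih =>
    intro p hp h1 h2
    by_cases h : f p ≤ x + g
    · exact ⟨p, hp, h1, h⟩
    · push Not at h
      obtain ⟨p', hp', h3, h4⟩ := hdn p hp
      refine ih p' hp' (by linarith) ?_
      push_cast at h2
      linarith

lemma lat_chain {S : Set (ℝ × ℝ)} {f : ℝ × ℝ → ℝ} {δ g : ℝ} (hδ : 0 < δ) (hg : 0 ≤ g)
    (hne : S.Nonempty)
    (hup : ∀ p ∈ S, ∃ p' ∈ S, f p + δ ≤ f p' ∧ f p' ≤ f p + g)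
    (hdn : ∀ p ∈ S, ∃ p' ∈ S, f p - g ≤ f p' ∧ f p' ≤ f p - δ) (x : ℝ) :
    ∃ p ∈ S, x ≤ f p ∧ f p ≤ x + g := by
  obtain ⟨p, hp⟩ := hne
  rcases le_total (f p) (x + g) with h | h
  · obtain ⟨n, hn⟩ := exists_nat_ge ((x - f p) / δ)
    exact lat_up hup n p hp h ((div_le_iff₀ hδ).1 hn)
  · obtain ⟨n, hn⟩ := exists_nat_ge ((f p - (x + g)) / δ)
    exact lat_down hdn n p hp (by linarith) ((div_le_iff₀ hδ).1 hn)

lemma ceil_mult {s x : ℝ} (hs : 0 < s) : ∃ j : ℤ, x ≤ j * s ∧ (j : ℝ) * s ≤ x + s := by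
  refine ⟨⌈x / s⌉, ?_, ?_⟩
  · have := Int.le_ceil (x / s)
    rwa [div_le_iff₀ hs] at this
  · have := (Int.ceil_lt_add_one (x / s)).le
    have h2 := mul_le_mul_of_nonneg_right this hs.le
    rw [add_mul, div_mul_cancel₀ _ hs.ne', one_mul] at h2
    exact h2

theorem latA : S_LatA := by
  intro n w₁ h₁ w₂ h₂ hn hh₁ hw₂ hA1 hA2 hB1 hB2 L hL
  have hn0 : (1 : ℝ) ≤ n := by exact_mod_cast hn
  have hnpos : (0 : ℝ) < n := by linarith
  set s : ℝ := (w₁ - w₂) / n with hs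
  have hns : n * s = w₁ - w₂ := by rw [hs]; field_simp
  have hw12 : w₂ < w₁ := lt_of_le_of_lt (by nlinarith) hA1
  have hs0 : 0 < s := div_pos (by linarith) hnpos
  have hs1 : s < w₂ := by rw [hs, div_lt_iff₀ hnpos]; nlinarith
  have hh12 : h₁ < h₂ := lt_of_le_of_lt (by nlinarith) hB1
  -- closure of `L` under the moves
  have hmem : ∀ p ∈ L, ∀ a b : ℤ, ((p.1 + (a * (w₂ - s) + b * s),
      p.2 + (a * h₂ - b * h₁)) : ℝ × ℝ) ∈ L := by
    intro p hp a b
    rw [hL] at hp ⊢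
    obtain ⟨i, j, rfl⟩ := hp
    refine ⟨i + a, j + b, ?_⟩
    refine Prod.ext ?_ ?_
    · simp; ring
    · simp; ring
  have hzero : ((0, 0) : ℝ × ℝ) ∈ L := by
    rw [hL]; exact ⟨0, 0, by simp⟩
  constructor
  · -- `w₁ × h₁`
    rintro ⟨x, y⟩
    have := lat_chain (S := {p | p ∈ L ∧ y ≤ p.2 ∧ p.2 ≤ y + h₁}) (f := Prod.fst) (δ := w₂)
      (g := w₁) hw₂ (by linarith) ?_ ?_ ?_ x
    · obtain ⟨p, ⟨hp, h1, h2⟩, h3, h4⟩ := this
      exact ⟨p, hp, ⟨h3, h4⟩, ⟨h1, h2⟩⟩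
    · obtain ⟨j, hj1, hj2⟩ := ceil_mult (x := y) hh₁
      have h := hmem _ hzero 0 (-j)
      refine ⟨_, h, ?_, ?_⟩
      · simp; linarith
      · simp; linarith
    · rintro p ⟨hp, h1, h2⟩
      by_cases hc : p.2 + (h₂ - n * h₁) ≤ y + h₁
      · have h := hmem p hp 1 n
        refine ⟨_, ⟨h, ?_, ?_⟩, ?_, ?_⟩
        · simp; linarith
        · simp; linarith
        · simp; nlinarith
        · simp; linarith
      · push Not at hc
        have h := hmem p hp 1 (n + 1)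
        refine ⟨_, ⟨h, ?_, ?_⟩, ?_, ?_⟩
        · simp; linarith
        · simp; linarith
        · simp; nlinarith
        · simp; linarith
    · rintro p ⟨hp, h1, h2⟩
      by_cases hc : y ≤ p.2 - (h₂ - n * h₁)
      · have h := hmem p hp (-1) (-n)
        refine ⟨_, ⟨h, ?_, ?_⟩, ?_, ?_⟩
        · simp; linarith
        · simp; linarith
        · simp; linarith
        · simp; nlinarith
      · push Not at hc
        have h := hmem p hp (-1) (-(n + 1))
        refine ⟨_, ⟨h, ?_, ?_⟩, ?_, ?_⟩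
        · simp; linarith
        · simp; linarith
        · simp; linarith
        · simp; nlinarith
  · -- `w₂ × h₂`
    rintro ⟨x, y⟩
    have := lat_chain (S := {p | p ∈ L ∧ x ≤ p.1 ∧ p.1 ≤ x + w₂}) (f := Prod.snd) (δ := h₁)
      (g := h₂) hh₁ (by linarith) ?_ ?_ ?_ y
    · obtain ⟨p, ⟨hp, h1, h2⟩, h3, h4⟩ := this
      exact ⟨p, hp, ⟨h1, h2⟩, ⟨h3, h4⟩⟩
    · obtain ⟨j, hj1, hj2⟩ := ceil_mult (x := x) hs0
      have h := hmem _ hzero 0 j
      refine ⟨_, h, ?_, ?_⟩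
      · simp; linarith
      · simp; linarith
    · rintro p ⟨hp, h1, h2⟩
      by_cases hc : p.1 ≤ x + s
      · have h := hmem p hp 1 0
        refine ⟨_, ⟨h, ?_, ?_⟩, ?_, ?_⟩
        · simp; linarith
        · simp; linarith
        · simp; linarith
        · simp
      · push Not at hc
        have h := hmem p hp 0 (-1)
        refine ⟨_, ⟨h, ?_, ?_⟩, ?_, ?_⟩
        · simp; linarith
        · simp; linarith
        · simp
        · simp; linarith
    · rintro p ⟨hp, h1, h2⟩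
      by_cases hc : x + (w₂ - s) ≤ p.1
      · have h := hmem p hp (-1) 0
        refine ⟨_, ⟨h, ?_, ?_⟩, ?_, ?_⟩
        · simp; linarith
        · simp; linarith
        · simp
        · simp; linarith
      · push Not at hc
        have h := hmem p hp 0 1
        refine ⟨_, ⟨h, ?_, ?_⟩, ?_, ?_⟩
        · simp; linarith
        · simp; linarith
        · simp; linarith
        · simp

theorem latB : S_LatB := by
  intro m w₁ h₁ w₂ h₂ hm hw₁ hh₁ h1 h2 L hL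
  have hm0 : (1 : ℝ) ≤ m := by exact_mod_cast hm
  have hmpos : (0 : ℝ) < m := by linarith
  have hmem : ∀ i j : ℤ, ((i * w₁ + j * (w₁ / m), j * h₁) : ℝ × ℝ) ∈ L := by
    intro i j
    rw [hL]
    refine ⟨i, j, ?_⟩
    refine Prod.ext ?_ ?_
    · simp
    · simp
  constructor
  · rintro ⟨x, y⟩
    obtain ⟨j, hj1, hj2⟩ := ceil_mult (x := y) hh₁
    obtain ⟨i, hi1, hi2⟩ := ceil_mult (x := x - j * (w₁ / m)) hw₁
    exact ⟨_, hmem i j, ⟨by show x ≤ _; linarith, by show _ ≤ x + w₁; linarith⟩, ⟨hj1, hj2⟩⟩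
  · rintro ⟨x, y⟩
    obtain ⟨j, hj1, hj2⟩ := ceil_mult (x := y) hh₁
    have hs : 0 < w₁ / m := by positivity
    obtain ⟨t, ht1, ht2⟩ := ceil_mult (x := x) hs
    have hmz : (0 : ℤ) < m := by exact_mod_cast hm
    have hdm := Int.emod_add_mul_ediv (t - j) m
    have hr0 := Int.emod_nonneg (t - j) hmz.ne'
    have hr1 := Int.emod_lt_of_pos (t - j) hmz
    set r := (t - j) % m with hr
    set q := (t - j) / m with hq
    have hsm : (m : ℝ) * (w₁ / m) = w₁ := by field_simp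
    have hrr0 : (0 : ℝ) ≤ (r : ℝ) := by exact_mod_cast hr0
    have hrr1 : (r : ℝ) + 1 ≤ m := by exact_mod_cast hr1
    have htt : (t : ℝ) = j + r + m * q := by
      have : t = j + (r + m * q) := by rw [hdm]; ring
      rw [this]; push_cast; ring
    have e1 : (q : ℝ) * w₁ + (j + r) * (w₁ / m) = t * (w₁ / m) := by
      rw [htt]
      have : (q : ℝ) * w₁ = m * q * (w₁ / m) := by rw [← hsm]; field_simp
      rw [this]; ring
    have h3 := hmem q (j + r)
    refine ⟨_, h3, ⟨?_, ?_⟩, ⟨?_, ?_⟩⟩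
    · show x ≤ _
      push_cast; rw [e1]; exact ht1
    · show _ ≤ x + w₂
      push_cast; rw [e1]
      have : w₁ / m ≤ w₂ := by rw [div_le_iff₀ hmpos]; linarith
      linarith
    · show y ≤ _
      push_cast
      nlinarith
    · show _ ≤ y + h₂
      push_cast
      have : (r : ℝ) * h₁ ≤ (m - 1) * h₁ := by
        apply mul_le_mul_of_nonneg_right _ hh₁.le
        linarith
      nlinarith

end Pool.Agent.H673.PR
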