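import Pool.Agent.H673.PR.Stm

/-!
# Piercing two rectangles: integration of the pointwise inequality
-/

set_option autoImplicit false

open MeasureTheory Set

namespace Pool.Agent.H673.PR

lemma p1_mem_hbox (A B : ℝ) (p q : ℝ × ℝ) : p ∈ hbox A B q ↔
    (q.1 ≤ p.1 ∧ p.1 < q.1 + A) ∧ (q.2 ≤ p.2 ∧ p.2 < q.2 + B) := by
  unfold hbox
  rw [Set.mem_prod, Set.mem_Ico, Set.mem_Ico]

lemma p1_meas_hbox (A B : ℝ) (p : ℝ × ℝ) : MeasurableSet {q : ℝ × ℝ | p ∈ hbox A B q} := by
  simp only [p1_mem_hbox]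
  refine MeasurableSet.inter (MeasurableSet.inter ?_ ?_) (MeasurableSet.inter ?_ ?_)
  · exact measurableSet_le measurable_fst measurable_const
  · exact measurableSet_lt measurable_const (measurable_fst.add measurable_const)
  · exact measurableSet_le measurable_snd measurable_const
  · exact measurableSet_lt measurable_const (measurable_snd.add measurable_const)

theorem measurable_cnt (F : Finset (ℝ × ℝ)) (A B : ℝ) : Measurable (fun q => cnt F A B q) := by
  classical
  have h : (fun q => cnt F A B q) = fun q => ∑ e ∈ F, if e ∈ hbox A B q then 1 else 0 := by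
    funext q
    unfold cnt
    rw [Finset.card_filter]
  rw [h]
  refine Finset.measurable_fun_sum _ fun e _ => ?_
  exact Measurable.ite (p1_meas_hbox A B e) measurable_const measurable_const

lemma p1_meas_enh (n : ℕ) (A B : ℝ) (F : Finset (ℝ × ℝ)) (i j : ℕ) :
    Measurable (fun q => enh n A B F i j q) := by
  have hc : ∀ v : ℝ × ℝ, Measurable (fun q => cnt F 1 1 (q + v)) := fun v =>
    (measurable_cnt F 1 1).comp (measurable_id.add_const v)
  have hs : ∀ (P : Prop) (P' : Prop) (v : ℝ × ℝ),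
      MeasurableSet {q : ℝ × ℝ | P ∧ P' ∧ 2 ≤ cnt F 1 1 (q + v)} := by
    intro P P' v
    refine MeasurableSet.inter (MeasurableSet.const P) (MeasurableSet.inter
      (MeasurableSet.const P') ?_)
    exact measurableSet_le measurable_const (hc v)
  have hs2 : ∀ (P : Prop) (P' : Prop),
      MeasurableSet {q : ℝ × ℝ | P ∧ P' ∧ 2 ≤ cnt F 1 1 q} := by
    intro P P'
    refine MeasurableSet.inter (MeasurableSet.const P) (MeasurableSet.inter
      (MeasurableSet.const P') ?_)
    exact measurableSet_le measurable_const (measurable_cnt F 1 1)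
  unfold enh
  refine Measurable.ite (hs _ _ _) measurable_const ?_
  refine Measurable.ite (hs2 _ _) measurable_const ?_
  refine Measurable.ite (hs _ _ _) measurable_const ?_
  exact Measurable.ite (hs _ _ _) measurable_const measurable_const

lemma p1_meas_wpos (n : ℕ) (A B : ℝ) (F : Finset (ℝ × ℝ)) (i j : ℕ) :
    Measurable (fun q => wpos n A B F i j q) := by
  unfold wpos
  refine Measurable.ite ?_ ?_ measurable_const
  · exact measurableSet_le measurable_const (measurable_cnt F A B)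
  · exact measurable_const.add (p1_meas_enh n A B F i j)

lemma p1_floor (n : ℕ) (α δ : ℝ) (ha : α < 1) (h0 : 0 ≤ δ) (h1 : δ < n + α) :
    (∃ i : ℕ, i ≤ n ∧ (i : ℝ) ≤ δ ∧ δ < i + α) ∨
      ∃ i : ℕ, i < n ∧ (i : ℝ) + α ≤ δ ∧ δ < i + 1 := by
  have h2 := Nat.floor_le h0
  have h3 := Nat.lt_floor_add_one δ
  by_cases h : δ < ⌊δ⌋₊ + α
  · left
    refine ⟨⌊δ⌋₊, ?_, h2, h⟩
    have h4 : (⌊δ⌋₊ : ℝ) < ((n + 1 : ℕ) : ℝ) := by
      push_cast
      linarith
    have := Nat.cast_lt.1 h4
    omega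
  · right
    push Not at h
    refine ⟨⌊δ⌋₊, ?_, h, h3⟩
    have h4 : (⌊δ⌋₊ : ℝ) < (n : ℝ) := by linarith
    exact Nat.cast_lt.1 h4

/-- the set of positions with few points -/
def p1S (α β : ℝ) : Set (ℝ × ℝ) := Ioc 0 (1 - α) ×ˢ Ioc 0 (1 - β)

/-- the set of positions with many points -/
def p1T (α β : ℝ) : Set (ℝ × ℝ) := Ico 0 α ×ˢ Ico 0 β

lemma p1_vS (α β : ℝ) (ha : α < 1) :
    volume (p1S α β) = ENNReal.ofReal ((1 - α) * (1 - β)) := by
  unfold p1S
  rw [Measure.volume_eq_prod, Measure.prod_prod, Real.volume_Ioc, Real.volume_Ioc,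
    ← ENNReal.ofReal_mul (by linarith), sub_zero, sub_zero]

lemma p1_vT (α β : ℝ) (ha : 0 < α) :
    volume (p1T α β) = ENNReal.ofReal (α * β) := by
  unfold p1T
  rw [Measure.volume_eq_prod, Measure.prod_prod, Real.volume_Ico, Real.volume_Ico,
    ← ENNReal.ofReal_mul (by linarith), sub_zero, sub_zero]

lemma p1_mS (α β : ℝ) : MeasurableSet (p1S α β) := measurableSet_Ioc.prod measurableSet_Ioc

lemma p1_mT (α β : ℝ) : MeasurableSet (p1T α β) := measurableSet_Ico.prod measurableSet_Ico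

lemma p1_zone (hL : S_L) (n : ℕ) (α β : ℝ) (F : Finset (ℝ × ℝ)) (p : ℝ × ℝ) (hn : 1 ≤ n)
    (ha : 0 < α) (ha' : α < 1) (hb : 0 < β) (hb' : β < 1) (hp : p ∈ F)
    (hP : ∀ q, p ∈ hbox (n + α) (n + β) q → LocPierce F (n + α) (n + β) q)
    (q : ℝ × ℝ) (hq : p ∈ hbox (n + α) (n + β) q) (hc : cnt F (n + α) (n + β) q = n) :
    ∃ ij ∈ Finset.range n ×ˢ Finset.range n,
      q - (p - ((ij.1 : ℝ) + 1, (ij.2 : ℝ) + 1)) ∈ p1S α β := by
  have hLq := hL n (n + α) (n + β) F q p hn (by linarith) (by linarith) (by linarith)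
    (by linarith) (hP q hq) hp hq
  rw [hc] at hLq
  have hq' := (p1_mem_hbox _ _ _ _).1 hq
  obtain ⟨⟨h1, h2⟩, h3, h4⟩ := hq'
  have hx := p1_floor n α (p.1 - q.1) ha' (by linarith) (by linarith)
  have hy := p1_floor n β (p.2 - q.2) hb' (by linarith) (by linarith)
  rcases hx with ⟨i, hi, hi1, hi2⟩ | ⟨i, hi, hi1, hi2⟩
  · exfalso
    have := hLq (Or.inl ⟨i, hi, by linarith, by linarith⟩)
    omega
  · rcases hy with ⟨j, hj, hj1, hj2⟩ | ⟨j, hj, hj1, hj2⟩
    · exfalso
      have := hLq (Or.inr ⟨j, hj, by linarith, by linarith⟩)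
      omega
    · refine ⟨(i, j), ?_, ?_⟩
      · rw [Finset.mem_product, Finset.mem_range, Finset.mem_range]
        exact ⟨hi, hj⟩
      · unfold p1S
        rw [Set.mem_prod, Set.mem_Ioc, Set.mem_Ioc]
        simp only [Prod.fst_sub, Prod.snd_sub]
        refine ⟨⟨?_, ?_⟩, ?_, ?_⟩ <;> linarith

lemma p1_left (hL : S_L) (n : ℕ) (α β : ℝ) (F : Finset (ℝ × ℝ)) (p : ℝ × ℝ) (hn : 1 ≤ n)
    (ha : 0 < α) (ha' : α < 1) (hb : 0 < β) (hb' : β < 1) (hp : p ∈ F)
    (hP : ∀ q, p ∈ hbox (n + α) (n + β) q → LocPierce F (n + α) (n + β) q) :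
    ∫⁻ q in {q : ℝ × ℝ | p ∈ hbox (n + α) (n + β) q},
      (if cnt F (n + α) (n + β) q = n then 1 else 0 : ENNReal) ≤
    ∫⁻ s in p1S α β, ∑ ij ∈ Finset.range n ×ˢ Finset.range n,
      (if cnt F (n + α) (n + β) (p - ((ij.1 : ℝ) + 1, (ij.2 : ℝ) + 1) + s) = n then 1 else 0 :
        ENNReal) := by
  have hbm : Measurable (fun q : ℝ × ℝ =>
      (if cnt F (n + α) (n + β) q = n then 1 else 0 : ENNReal)) := by
    refine Measurable.ite ?_ measurable_const measurable_const
    exact measurable_cnt F (n + α) (n + β) (measurableSet_singleton n)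
  set b : ℝ × ℝ → ENNReal := fun q =>
    (if cnt F (n + α) (n + β) q = n then 1 else 0 : ENNReal) with hb0
  set c : ℕ × ℕ → ℝ × ℝ := fun ij => p - ((ij.1 : ℝ) + 1, (ij.2 : ℝ) + 1) with hc0
  have hgm : ∀ ij : ℕ × ℕ, Measurable ((p1S α β).indicator fun s => b (c ij + s)) := by
    intro ij
    exact (hbm.comp (measurable_const.add measurable_id)).indicator (p1_mS α β)
  calc ∫⁻ q in {q : ℝ × ℝ | p ∈ hbox (n + α) (n + β) q}, b q
      = ∫⁻ q, ({q : ℝ × ℝ | p ∈ hbox (n + α) (n + β) q}).indicator b q :=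
        (lintegral_indicator (p1_meas_hbox _ _ _) _).symm
    _ ≤ ∫⁻ q, ∑ ij ∈ Finset.range n ×ˢ Finset.range n,
          (p1S α β).indicator (fun s => b (c ij + s)) (q - c ij) := by
        refine lintegral_mono fun q => ?_
        by_cases hq : p ∈ hbox (n + α) (n + β) q
        · rw [Set.indicator_of_mem (show q ∈ {q : ℝ × ℝ | p ∈ hbox (n + α) (n + β) q} from hq)]
          by_cases hcn : cnt F (n + α) (n + β) q = n
          · obtain ⟨ij, hij, hS⟩ := p1_zone hL n α β F p hn ha ha' hb hb' hp hP q hq hcn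
            have h1 : b q ≤ (p1S α β).indicator (fun s => b (c ij + s)) (q - c ij) := by
              rw [Set.indicator_of_mem hS, add_sub_cancel]
            exact h1.trans (Finset.single_le_sum (f := fun ij : ℕ × ℕ =>
              (p1S α β).indicator (fun s => b (c ij + s)) (q - c ij))
              (fun _ _ => zero_le) hij)
          · have : b q = 0 := by
              rw [hb0]
              simp only [if_neg hcn]
            rw [this]
            exact zero_le
        · rw [Set.indicator_of_notMem (show q ∉ {q : ℝ × ℝ | p ∈ hbox (n + α) (n + β) q} from hq)]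
          exact zero_le
    _ = ∑ ij ∈ Finset.range n ×ˢ Finset.range n, ∫⁻ q,
          (p1S α β).indicator (fun s => b (c ij + s)) (q - c ij) := by
        refine lintegral_finsetSum _ fun ij _ => ?_
        exact (hgm ij).comp (measurable_id.sub_const _)
    _ = ∑ ij ∈ Finset.range n ×ˢ Finset.range n, ∫⁻ s,
          (p1S α β).indicator (fun s => b (c ij + s)) s := by
        refine Finset.sum_congr rfl fun ij _ => ?_
        exact lintegral_sub_right_eq_self _ _
    _ = ∫⁻ s, ∑ ij ∈ Finset.range n ×ˢ Finset.range n,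
          (p1S α β).indicator (fun s => b (c ij + s)) s := by
        exact (lintegral_finsetSum _ fun ij _ => hgm ij).symm
    _ = ∫⁻ s, (p1S α β).indicator (fun s => ∑ ij ∈ Finset.range n ×ˢ Finset.range n,
          b (c ij + s)) s := by
        refine lintegral_congr fun s => ?_
        by_cases hs : s ∈ p1S α β
        · simp only [Set.indicator_of_mem hs]
        · simp only [Set.indicator_of_notMem hs, Finset.sum_const_zero]
    _ = _ := lintegral_indicator (p1_mS α β) _

lemma p1_right (n : ℕ) (α β : ℝ) (F : Finset (ℝ × ℝ)) (p : ℝ × ℝ) :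
    ∫⁻ t in p1T α β, ((∑ ij ∈ Finset.range (n + 1) ×ˢ Finset.range (n + 1),
      wpos n (n + α) (n + β) F ij.1 ij.2 (p - ((ij.1 : ℝ), (ij.2 : ℝ)) - t) : ℕ) : ENNReal) =
    ∫⁻ q, ((w2 n (n + α) (n + β) F q p : ℕ) : ENNReal) := by
  classical
  set W : ℕ × ℕ → ℝ × ℝ → ENNReal := fun ij q =>
    ((wpos n (n + α) (n + β) F ij.1 ij.2 q : ℕ) : ENNReal) with hW
  have hWm : ∀ ij, Measurable (W ij) := by
    intro ij
    have h := p1_meas_wpos n (n + α) (n + β) F ij.1 ij.2
    exact (measurable_from_top (f := fun k : ℕ => (k : ENNReal))).comp h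
  set c : ℕ × ℕ → ℝ × ℝ := fun ij => p - ((ij.1 : ℝ), (ij.2 : ℝ)) with hc0
  have hgm : ∀ ij : ℕ × ℕ, Measurable ((p1T α β).indicator fun t => W ij (c ij - t)) := by
    intro ij
    exact ((hWm ij).comp (measurable_const.sub measurable_id)).indicator (p1_mT α β)
  have hw2 : ∀ q, ((w2 n (n + α) (n + β) F q p : ℕ) : ENNReal) =
      ∑ ij ∈ Finset.range (n + 1) ×ˢ Finset.range (n + 1),
        (p1T α β).indicator (fun t => W ij (c ij - t)) (c ij - q) := by
    intro q
    unfold w2
    rw [← Finset.sum_product', Nat.cast_sum]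
    refine Finset.sum_congr rfl fun ij _ => ?_
    have e1 : (n : ℝ) + α - n = α := by ring
    have e2 : (n : ℝ) + β - n = β := by ring
    rw [e1, e2]
    by_cases h : p ∈ hbox α β (q + ((ij.1 : ℝ), (ij.2 : ℝ)))
    · have hT : c ij - q ∈ p1T α β := by
        rw [p1_mem_hbox] at h
        unfold p1T
        rw [Set.mem_prod, Set.mem_Ico, Set.mem_Ico]
        simp only [Prod.fst_add, Prod.snd_add] at h
        simp only [hc0, Prod.fst_sub, Prod.snd_sub]
        obtain ⟨⟨h1, h2⟩, h3, h4⟩ := h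
        refine ⟨⟨?_, ?_⟩, ?_, ?_⟩ <;> linarith
      rw [if_pos h, Set.indicator_of_mem hT, sub_sub_cancel]
    · have hT : c ij - q ∉ p1T α β := by
        intro hT
        apply h
        rw [p1_mem_hbox]
        unfold p1T at hT
        rw [Set.mem_prod, Set.mem_Ico, Set.mem_Ico] at hT
        simp only [Prod.fst_add, Prod.snd_add]
        simp only [hc0, Prod.fst_sub, Prod.snd_sub] at hT
        obtain ⟨⟨h1, h2⟩, h3, h4⟩ := hT
        refine ⟨⟨?_, ?_⟩, ?_, ?_⟩ <;> linarith
      rw [if_neg h, Set.indicator_of_notMem hT, Nat.cast_zero]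
  symm
  calc ∫⁻ q, ((w2 n (n + α) (n + β) F q p : ℕ) : ENNReal)
      = ∫⁻ q, ∑ ij ∈ Finset.range (n + 1) ×ˢ Finset.range (n + 1),
        (p1T α β).indicator (fun t => W ij (c ij - t)) (c ij - q) := lintegral_congr hw2
    _ = ∑ ij ∈ Finset.range (n + 1) ×ˢ Finset.range (n + 1), ∫⁻ q,
        (p1T α β).indicator (fun t => W ij (c ij - t)) (c ij - q) := by
        refine lintegral_finsetSum _ fun ij _ => ?_
        exact (hgm ij).comp (measurable_const.sub measurable_id)
    _ = ∑ ij ∈ Finset.range (n + 1) ×ˢ Finset.range (n + 1), ∫⁻ t,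
        (p1T α β).indicator (fun t => W ij (c ij - t)) t := by
        refine Finset.sum_congr rfl fun ij _ => ?_
        exact lintegral_sub_left_eq_self _ _
    _ = ∫⁻ t, ∑ ij ∈ Finset.range (n + 1) ×ˢ Finset.range (n + 1),
        (p1T α β).indicator (fun t => W ij (c ij - t)) t :=
        (lintegral_finsetSum _ fun ij _ => hgm ij).symm
    _ = ∫⁻ t, (p1T α β).indicator (fun t => ((∑ ij ∈ Finset.range (n + 1) ×ˢ
          Finset.range (n + 1), wpos n (n + α) (n + β) F ij.1 ij.2
          (p - ((ij.1 : ℝ), (ij.2 : ℝ)) - t) : ℕ) : ENNReal)) t := by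
        refine lintegral_congr fun t => ?_
        by_cases ht : t ∈ p1T α β
        · simp only [Set.indicator_of_mem ht, Nat.cast_sum]
          rfl
        · simp only [Set.indicator_of_notMem ht, Finset.sum_const_zero]
    _ = _ := lintegral_indicator (p1_mT α β) _

theorem p1_of : S_Comb → S_L → S_P1 := by
  intro hC hL n α β F p hn ha ha' hb hb' hab hp hP
  have hleft := p1_left hL n α β F p (by omega) ha ha' hb hb' hp hP
  rw [← p1_right n α β F p]
  have hcomb := hC n α β F p hn ha ha' hb hb' hp hP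
  simp only [← Finset.sum_product'] at hcomb
  set om : ℝ × ℝ → ℕ := fun t => ∑ ij ∈ Finset.range (n + 1) ×ˢ Finset.range (n + 1),
      wpos n (n + α) (n + β) F ij.1 ij.2 (p - ((ij.1 : ℝ), (ij.2 : ℝ)) - t) with hom
  have hne : (om '' p1T α β).Nonempty := by
    refine ⟨om (0, 0), (0, 0), ?_, rfl⟩
    unfold p1T
    rw [Set.mem_prod, Set.mem_Ico, Set.mem_Ico]
    exact ⟨⟨le_rfl, ha⟩, le_rfl, hb⟩
  obtain ⟨t0, ht0, hm⟩ := Nat.sInf_mem hne
  set m : ℕ := sInf (om '' p1T α β) with hm0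
  have hmle : ∀ t ∈ p1T α β, m ≤ om t := fun t ht => Nat.sInf_le ⟨t, ht, rfl⟩
  have h1 : 2 * ∫⁻ q in {q : ℝ × ℝ | p ∈ hbox (n + α) (n + β) q},
      (if cnt F (n + α) (n + β) q = n then 1 else 0 : ENNReal) ≤
      (2 + (m : ENNReal)) * ENNReal.ofReal ((1 - α) * (1 - β)) := by
    refine (mul_le_mul_right hleft 2).trans ?_
    rw [← lintegral_const_mul' _ _ (by norm_num), ← p1_vS α β ha', ← setLIntegral_const]
    refine setLIntegral_mono measurable_const fun s hs => ?_
    unfold p1S at hs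
    rw [Set.mem_prod, Set.mem_Ioc, Set.mem_Ioc] at hs
    unfold p1T at ht0
    rw [Set.mem_prod, Set.mem_Ico, Set.mem_Ico] at ht0
    have h := hcomb s t0 hs.1.1 hs.1.2 hs.2.1 hs.2.2 ht0.1.1 ht0.1.2 ht0.2.1 ht0.2.2
    have h' : 2 * ∑ x ∈ Finset.range n ×ˢ Finset.range n,
        (if cnt F (n + α) (n + β) (p - ((x.1 : ℝ) + 1, (x.2 : ℝ) + 1) + s) = n then 1 else 0) ≤
        2 + m := by
      rw [← hm]
      exact h
    have h'' : ((2 * ∑ x ∈ Finset.range n ×ˢ Finset.range n,
        (if cnt F (n + α) (n + β) (p - ((x.1 : ℝ) + 1, (x.2 : ℝ) + 1) + s) = n then 1 else 0) : ℕ) :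
        ENNReal) ≤ ((2 + m : ℕ) : ENNReal) := Nat.cast_le.2 h'
    push_cast at h''
    exact h''
  have h2 : (m : ENNReal) * ENNReal.ofReal (α * β) ≤ ∫⁻ t in p1T α β, ((om t : ℕ) : ENNReal) := by
    rw [← p1_vT α β ha, ← setLIntegral_const]
    refine setLIntegral_mono' (p1_mT α β) fun t ht => ?_
    exact Nat.cast_le.2 (hmle t ht)
  refine h1.trans ?_
  rw [add_mul]
  refine add_le_add_right ?_ _
  refine le_trans ?_ h2
  refine mul_le_mul_right (ENNReal.ofReal_le_ofReal ?_) _
  nlinarith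

theorem p1one_of : S_L → S_P1one := by
  intro hL α β F p ha ha' hb hb' hp hP
  have hP' : ∀ q, p ∈ hbox ((1 : ℕ) + α) ((1 : ℕ) + β) q →
      LocPierce F ((1 : ℕ) + α) ((1 : ℕ) + β) q := by
    rw [Nat.cast_one]
    exact hP
  have hleft := p1_left hL 1 α β F p le_rfl ha ha' hb hb' hp hP'
  rw [Nat.cast_one] at hleft
  refine hleft.trans ?_
  rw [← p1_vS α β ha']
  calc _ ≤ ∫⁻ s in p1S α β, (1 : ENNReal) := by
        refine setLIntegral_mono measurable_const fun s _ => ?_
        rw [Finset.range_one, Finset.singleton_product_singleton, Finset.sum_singleton]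
        split_ifs
        · exact le_rfl
        · exact zero_le_one
    _ = _ := by rw [setLIntegral_one]

end Pool.Agent.H673.PR
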