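import Pool.Agent.H673.PR.Stm

/-!
# Piercing rectangles: one rectangle, and the density of lattices
-/

set_option autoImplicit false

open MeasureTheory Set Filter Topology

namespace Pool.Agent.H673.PR

/-- comparison of the quotients for one radius -/
lemma sl_quot (S : Set (ℝ × ℝ)) (a r : ℝ) (hr : 0 < r)
    (h : ∀ hf : S.Finite, a ≤ (hf.toFinset.card : ℝ)) :
    ENNReal.ofReal (a / (4 * r ^ 2)) ≤
      ((S.encard : ENat) : ENNReal) / ENNReal.ofReal (4 * r ^ 2) := by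
  have hr2 : 0 < 4 * r ^ 2 := by positivity
  by_cases hf : S.Finite
  · rw [ENNReal.ofReal_div_of_pos hr2]
    refine ENNReal.div_le_div_right ?_ _
    rw [hf.encard_eq_coe_toFinset_card, ENat.toENNReal_coe, ← ENNReal.ofReal_natCast]
    exact ENNReal.ofReal_le_ofReal (h hf)
  · rw [Set.Infinite.encard_eq hf, ENat.toENNReal_top,
      ENNReal.top_div_of_ne_top ENNReal.ofReal_ne_top]
    exact le_top

/-- comparison of the quotients for one radius -/
lemma sl_quot_le (S : Set (ℝ × ℝ)) (a r : ℝ) (hr : 0 < r)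
    (h : ∀ G : Finset (ℝ × ℝ), (G : Set (ℝ × ℝ)) ⊆ S → (G.card : ℝ) ≤ a) :
    ((S.encard : ENat) : ENNReal) / ENNReal.ofReal (4 * r ^ 2) ≤
    ENNReal.ofReal (a / (4 * r ^ 2)) := by
  have hr2 : 0 < 4 * r ^ 2 := by positivity
  have hf : S.Finite := by
    by_contra hinf
    obtain ⟨G, hG, hGc⟩ := Set.Infinite.exists_subset_card_eq hinf (⌊a⌋₊ + 1)
    have h1 := h G hG
    have h2 := Nat.lt_floor_add_one a
    rw [hGc] at h1
    push_cast at h1
    linarith
  rw [ENNReal.ofReal_div_of_pos hr2]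
  refine ENNReal.div_le_div_right ?_ _
  rw [hf.encard_eq_coe_toFinset_card, ENat.toENNReal_coe, ← ENNReal.ofReal_natCast]
  refine ENNReal.ofReal_le_ofReal (h _ ?_)
  rw [Set.Finite.coe_toFinset]

/-- lower bound of the upper density -/
lemma sl_le_dens (P : Set (ℝ × ℝ)) (g : ℝ → ℝ) (L : ℝ) (hg : Tendsto g atTop (𝓝 L))
    (h : ∀ᶠ r in atTop, ENNReal.ofReal (g r) ≤
      (((P ∩ Set.Icc (-r) r ×ˢ Set.Icc (-r) r).encard : ENat) : ENNReal) /
      ENNReal.ofReal (4 * r ^ 2)) : ENNReal.ofReal L ≤ dens P := by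
  have h1 : Tendsto (fun r => ENNReal.ofReal (g r)) atTop (𝓝 (ENNReal.ofReal L)) :=
    ENNReal.tendsto_ofReal hg
  unfold dens
  rw [← h1.limsup_eq]
  exact limsup_le_limsup h

/-- upper bound of the upper density -/
lemma sl_dens_le (P : Set (ℝ × ℝ)) (g : ℝ → ℝ) (L : ℝ) (hg : Tendsto g atTop (𝓝 L))
    (h : ∀ᶠ r in atTop,
      (((P ∩ Set.Icc (-r) r ×ˢ Set.Icc (-r) r).encard : ENat) : ENNReal) /
      ENNReal.ofReal (4 * r ^ 2) ≤ ENNReal.ofReal (g r)) : dens P ≤ ENNReal.ofReal L := by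
  have h1 : Tendsto (fun r => ENNReal.ofReal (g r)) atTop (𝓝 (ENNReal.ofReal L)) :=
    ENNReal.tendsto_ofReal hg
  unfold dens
  rw [← h1.limsup_eq]
  exact limsup_le_limsup h

lemma sl_single_eps (w h : ℝ) (hw : 0 < w) (hh : 0 < h) (P : Set (ℝ × ℝ)) (hP : Pierces P w h)
    (ε : ℝ) (hε : 0 < ε) : ENNReal.ofReal (1 / (w * (1 + ε) * (h * (1 + ε)))) ≤ dens P := by
  classical
  set k1 : ℝ := w * (1 + ε) with hk1
  set k2 : ℝ := h * (1 + ε) with hk2
  have k10 : 0 < k1 := by positivity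
  have k20 : 0 < k2 := by positivity
  have hk1w : w < k1 := by rw [hk1]; nlinarith
  have hk2h : h < k2 := by rw [hk2]; nlinarith
  have hone : ∀ r : ℝ, 0 < r → k1 ≤ 2 * r → k2 ≤ 2 * r →
      ∀ hf : (P ∩ Set.Icc (-r) r ×ˢ Set.Icc (-r) r).Finite,
      (2 * r / k1 - 1) * (2 * r / k2 - 1) ≤ (hf.toFinset.card : ℝ) := by
    intro r hr hr1 hr2 hf
    have hex : ∀ ij : ℕ × ℕ, ∃ z : ℝ × ℝ, z ∈ P ∩ rect w h (-r + ij.1 * k1, -r + ij.2 * k2) :=
      fun ij => hP _
    choose z hz using hex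
    set M1 : ℕ := ⌊2 * r / k1⌋₊ with hM1
    set M2 : ℕ := ⌊2 * r / k2⌋₊ with hM2
    have m1 : (M1 : ℝ) ≤ 2 * r / k1 := Nat.floor_le (by positivity)
    have m2 : (M2 : ℝ) ≤ 2 * r / k2 := Nat.floor_le (by positivity)
    have m1' : 2 * r / k1 < M1 + 1 := Nat.lt_floor_add_one _
    have m2' : 2 * r / k2 < M2 + 1 := Nat.lt_floor_add_one _
    rw [le_div_iff₀ k10] at m1
    rw [le_div_iff₀ k20] at m2
    have hz' : ∀ ij : ℕ × ℕ, z ij ∈ P ∧ ((-r + ij.1 * k1 ≤ (z ij).1 ∧
        (z ij).1 ≤ -r + ij.1 * k1 + w) ∧ (-r + ij.2 * k2 ≤ (z ij).2 ∧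
        (z ij).2 ≤ -r + ij.2 * k2 + h)) := by
      intro ij
      have h1 := hz ij
      unfold rect at h1
      rw [Set.mem_inter_iff, Set.mem_prod, Set.mem_Icc, Set.mem_Icc] at h1
      exact h1
    have haux : ∀ (i j : ℕ) (k v x : ℝ), 0 < k → v < k → -r + i * k ≤ x → x ≤ -r + j * k + v →
        i ≤ j := by
      intro i j k v x hk hv h1 h2
      have h3 : (i : ℝ) * k < (j + 1) * k := by linarith
      have h4 : (i : ℝ) < ((j + 1 : ℕ) : ℝ) := by
        push_cast
        exact lt_of_mul_lt_mul_right h3 hk.le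
      have := Nat.cast_lt.1 h4
      omega
    have hinj : Function.Injective z := by
      intro a b hab
      obtain ⟨-, ⟨p1, p2⟩, p3, p4⟩ := hz' a
      obtain ⟨-, ⟨q1, q2⟩, q3, q4⟩ := hz' b
      rw [hab] at p1 p2 p3 p4
      have i1 := haux a.1 b.1 k1 w _ k10 hk1w p1 q2
      have i2 := haux b.1 a.1 k1 w _ k10 hk1w q1 p2
      have i3 := haux a.2 b.2 k2 h _ k20 hk2h p3 q4
      have i4 := haux b.2 a.2 k2 h _ k20 hk2h q3 p4
      exact Prod.ext (le_antisymm i1 i2) (le_antisymm i3 i4)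
    have hsub : (Finset.range M1 ×ˢ Finset.range M2).image z ⊆ hf.toFinset := by
      intro x hx
      rw [Finset.mem_image] at hx
      obtain ⟨ij, hij, rfl⟩ := hx
      rw [Finset.mem_product, Finset.mem_range, Finset.mem_range] at hij
      obtain ⟨p0, ⟨p1, p2⟩, p3, p4⟩ := hz' ij
      rw [Set.Finite.mem_toFinset, Set.mem_inter_iff, Set.mem_prod, Set.mem_Icc, Set.mem_Icc]
      have c1 : ((ij.1 : ℝ) + 1) * k1 ≤ M1 * k1 := by
        refine mul_le_mul_of_nonneg_right ?_ k10.le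
        exact_mod_cast hij.1
      have c2 : ((ij.2 : ℝ) + 1) * k2 ≤ M2 * k2 := by
        refine mul_le_mul_of_nonneg_right ?_ k20.le
        exact_mod_cast hij.2
      have d1 : 0 ≤ (ij.1 : ℝ) * k1 := by positivity
      have d2 : 0 ≤ (ij.2 : ℝ) * k2 := by positivity
      refine ⟨p0, ⟨?_, ?_⟩, ?_, ?_⟩ <;> linarith
    have hcard := Finset.card_le_card hsub
    rw [Finset.card_image_of_injective _ hinj, Finset.card_product, Finset.card_range,
      Finset.card_range] at hcard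
    have hcard' : (M1 : ℝ) * M2 ≤ (hf.toFinset.card : ℝ) := by exact_mod_cast hcard
    refine le_trans ?_ hcard'
    have f1 : 0 ≤ 2 * r / k1 - 1 := by
      rw [sub_nonneg, le_div_iff₀ k10, one_mul]
      exact hr1
    have f2 : 0 ≤ 2 * r / k2 - 1 := by
      rw [sub_nonneg, le_div_iff₀ k20, one_mul]
      exact hr2
    exact mul_le_mul (by linarith) (by linarith) f2 (Nat.cast_nonneg _)
  refine sl_le_dens P (fun r => (2 * r / k1 - 1) * (2 * r / k2 - 1) / (4 * r ^ 2)) _ ?_ ?_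
  · have h1 : Tendsto (fun r : ℝ => (2 / k1 - 1 / r) * (2 / k2 - 1 / r) / 4)
        atTop (𝓝 ((2 / k1 - 0) * (2 / k2 - 0) / 4)) := by
      refine Tendsto.div_const (Tendsto.mul ?_ ?_) _
      · exact tendsto_const_nhds.sub (tendsto_const_nhds.div_atTop tendsto_id)
      · exact tendsto_const_nhds.sub (tendsto_const_nhds.div_atTop tendsto_id)
    have e : (2 / k1 - 0) * (2 / k2 - 0) / 4 = 1 / (k1 * k2) := by
      field_simp
      ring
    rw [e] at h1
    refine h1.congr' ?_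
    filter_upwards [eventually_gt_atTop 0] with r hr
    field_simp
  · filter_upwards [eventually_gt_atTop 0, eventually_ge_atTop (k1 / 2),
      eventually_ge_atTop (k2 / 2)] with r hr r1 r2
    exact sl_quot _ _ r hr (hone r hr (by linarith) (by linarith))

theorem single : S_Single := by
  intro w h hw hh P hP
  have hlim : Tendsto (fun ε : ℝ => ENNReal.ofReal (1 / (w * (1 + ε) * (h * (1 + ε)))))
      (𝓝[>] 0) (𝓝 (ENNReal.ofReal (1 / (w * (1 + 0) * (h * (1 + 0)))))) := by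
    refine ENNReal.tendsto_ofReal (tendsto_nhdsWithin_of_tendsto_nhds ?_)
    have hc : ContinuousAt (fun ε : ℝ => 1 / (w * (1 + ε) * (h * (1 + ε)))) 0 := by
      refine ContinuousAt.div continuousAt_const (by fun_prop) ?_
      have : 0 < w * (1 + 0) * (h * (1 + 0)) := by
        simp only [add_zero, mul_one]
        positivity
      exact this.ne'
    exact hc
  simp only [add_zero, mul_one] at hlim
  refine le_of_tendsto hlim ?_
  filter_upwards [self_mem_nhdsWithin] with ε hε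
  exact sl_single_eps w h hw hh P hP ε hε

/-- the map sending the standard basis to `u`, `v` -/
noncomputable def slT (u v : ℝ × ℝ) : ℝ × ℝ →ₗ[ℝ] ℝ × ℝ :=
  Matrix.toLin (Module.Basis.finTwoProd ℝ) (Module.Basis.finTwoProd ℝ) !![u.1, v.1; u.2, v.2]

lemma slT_apply (u v z : ℝ × ℝ) : slT u v z = z.1 • u + z.2 • v := by
  unfold slT
  rw [Matrix.toLin_finTwoProd_apply]
  ext
  · simp only [Prod.fst_add, Prod.smul_fst, smul_eq_mul]
    ring
  · simp only [Prod.snd_add, Prod.smul_snd, smul_eq_mul]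
    ring

lemma slT_det (u v : ℝ × ℝ) : LinearMap.det (slT u v) = u.1 * v.2 - u.2 * v.1 := by
  unfold slT
  rw [LinearMap.det_toLin, Matrix.det_fin_two_of]
  ring

/-- unit square -/
def slQ (ij : ℤ × ℤ) : Set (ℝ × ℝ) :=
  Ico (ij.1 : ℝ) (ij.1 + 1) ×ˢ Ico (ij.2 : ℝ) (ij.2 + 1)

lemma slQ_vol (ij : ℤ × ℤ) : volume (slQ ij) = 1 := by
  unfold slQ
  rw [Measure.volume_eq_prod, Measure.prod_prod, Real.volume_Ico, Real.volume_Ico]
  simp

lemma slQ_disj {a b : ℤ × ℤ} (hab : a ≠ b) : Disjoint (slQ a) (slQ b) := by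
  rw [Set.disjoint_left]
  intro x hxa hxb
  unfold slQ at hxa hxb
  rw [Set.mem_prod, Set.mem_Ico, Set.mem_Ico] at hxa hxb
  obtain ⟨⟨a1, a2⟩, a3, a4⟩ := hxa
  obtain ⟨⟨b1, b2⟩, b3, b4⟩ := hxb
  apply hab
  have e1 : (a.1 : ℝ) < ((b.1 + 1 : ℤ) : ℝ) := by push_cast; linarith
  have e2 : (b.1 : ℝ) < ((a.1 + 1 : ℤ) : ℝ) := by push_cast; linarith
  have e3 : (a.2 : ℝ) < ((b.2 + 1 : ℤ) : ℝ) := by push_cast; linarith
  have e4 : (b.2 : ℝ) < ((a.2 + 1 : ℤ) : ℝ) := by push_cast; linarith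
  have f1 := Int.cast_lt.1 e1
  have f2 := Int.cast_lt.1 e2
  have f3 := Int.cast_lt.1 e3
  have f4 := Int.cast_lt.1 e4
  exact Prod.ext (by omega) (by omega)

theorem latdens : S_LatDens := by
  classical
  intro u v hdet
  set D : ℝ := |u.1 * v.2 - u.2 * v.1| with hD
  have hD0 : 0 < D := abs_pos.2 hdet
  set ρ : ℝ := |u.1| + |u.2| + |v.1| + |v.2| with hρ
  have hρ0 : 0 ≤ ρ := by positivity
  have hinj : Function.Injective (slT u v) := by
    have : IsUnit (LinearMap.det (slT u v)) := by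
      rw [slT_det]
      exact isUnit_iff_ne_zero.2 hdet
    exact (LinearMap.equivOfDetNeZero (slT u v) (by rw [slT_det]; exact hdet)).injective
  -- the bound for one radius
  have hone : ∀ r : ℝ, 0 < r → ∀ G : Finset (ℝ × ℝ),
      (G : Set (ℝ × ℝ)) ⊆ {x | ∃ i j : ℤ, x = (i : ℝ) • u + (j : ℝ) • v} ∩
        Set.Icc (-r) r ×ˢ Set.Icc (-r) r →
      (G.card : ℝ) ≤ (2 * r + 2 * ρ) ^ 2 / D := by
    intro r hr G hG
    have hex : ∀ x : ℝ × ℝ, ∃ ij : ℤ × ℤ, x ∈ G → x = slT u v ((ij.1 : ℝ), (ij.2 : ℝ)) := by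
      intro x
      by_cases hx : x ∈ G
      · obtain ⟨⟨i, j, hij⟩, -⟩ := hG hx
        refine ⟨(i, j), fun _ => ?_⟩
        rw [slT_apply]
        exact hij
      · exact ⟨(0, 0), fun h => absurd h hx⟩
    choose c hc using hex
    have hcinj : ∀ x ∈ G, ∀ y ∈ G, c x = c y → x = y := by
      intro x hx y hy h
      rw [hc x hx, hc y hy, h]
    have hdisj : ∀ x ∈ G, ∀ y ∈ G, x ≠ y →
        Disjoint (slT u v '' slQ (c x)) (slT u v '' slQ (c y)) := by
      intro x hx y hy hxy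
      rw [Set.disjoint_image_iff hinj]
      exact slQ_disj fun h => hxy (hcinj x hx y hy h)
    have hmQ : ∀ ij, MeasurableSet (slQ ij) := fun ij =>
      measurableSet_Ico.prod measurableSet_Ico
    have hcont : Continuous (slT u v) := LinearMap.continuous_of_finiteDimensional _
    have hmeas : ∀ x ∈ G, MeasurableSet (slT u v '' slQ (c x)) := fun x _ =>
      (hcont.measurableEmbedding hinj).measurableSet_image.2 (hmQ _)
    have hvol : ∀ ij : ℤ × ℤ, volume (slT u v '' slQ ij) = ENNReal.ofReal D := by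
      intro ij
      rw [Measure.addHaar_image_linearMap, slQ_vol, mul_one, slT_det]
    have hsub : (⋃ x ∈ G, slT u v '' slQ (c x)) ⊆
        Icc (-(r + ρ)) (r + ρ) ×ˢ Icc (-(r + ρ)) (r + ρ) := by
      intro y hy
      rw [Set.mem_iUnion₂] at hy
      obtain ⟨x, hx, z, hz, rfl⟩ := hy
      unfold slQ at hz
      rw [Set.mem_prod, Set.mem_Ico, Set.mem_Ico] at hz
      obtain ⟨⟨z1, z2⟩, z3, z4⟩ := hz
      have hxr := (hG hx).2
      rw [hc x hx, slT_apply, Set.mem_prod, Set.mem_Icc, Set.mem_Icc] at hxr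
      simp only [Prod.fst_add, Prod.snd_add, Prod.smul_fst, Prod.smul_snd, smul_eq_mul] at hxr
      obtain ⟨⟨x1, x2⟩, x3, x4⟩ := hxr
      rw [slT_apply, Set.mem_prod, Set.mem_Icc, Set.mem_Icc]
      simp only [Prod.fst_add, Prod.snd_add, Prod.smul_fst, Prod.smul_snd, smul_eq_mul]
      have aux : ∀ s a : ℝ, 0 ≤ s → s ≤ 1 → -|a| ≤ s * a ∧ s * a ≤ |a| := by
        intro s a hs0 hs1
        have h1 : |s * a| ≤ |a| := by
          rw [abs_mul, abs_of_nonneg hs0]
          exact mul_le_of_le_one_left (abs_nonneg _) hs1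
        exact abs_le.1 h1
      have s1 := aux (z.1 - (c x).1) u.1 (by linarith) (by linarith)
      have s2 := aux (z.2 - (c x).2) v.1 (by linarith) (by linarith)
      have s3 := aux (z.1 - (c x).1) u.2 (by linarith) (by linarith)
      have s4 := aux (z.2 - (c x).2) v.2 (by linarith) (by linarith)
      have n1 := abs_nonneg u.1
      have n2 := abs_nonneg u.2
      have n3 := abs_nonneg v.1
      have n4 := abs_nonneg v.2
      obtain ⟨s1, s1'⟩ := s1
      obtain ⟨s2, s2'⟩ := s2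
      obtain ⟨s3, s3'⟩ := s3
      obtain ⟨s4, s4'⟩ := s4
      rw [hρ]
      refine ⟨⟨?_, ?_⟩, ?_, ?_⟩ <;> linarith
    have h1 : (G.card : ENNReal) * ENNReal.ofReal D ≤ ENNReal.ofReal ((2 * r + 2 * ρ) ^ 2) := by
      calc (G.card : ENNReal) * ENNReal.ofReal D
          = ∑ x ∈ G, volume (slT u v '' slQ (c x)) := by
            rw [Finset.sum_congr rfl fun x _ => hvol (c x), Finset.sum_const, nsmul_eq_mul]
        _ = volume (⋃ x ∈ G, slT u v '' slQ (c x)) :=
            (measure_biUnion_finset (fun x hx y hy h => hdisj x hx y hy h) hmeas).symm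
        _ ≤ volume (Icc (-(r + ρ)) (r + ρ) ×ˢ Icc (-(r + ρ)) (r + ρ)) := measure_mono hsub
        _ = _ := by
            rw [Measure.volume_eq_prod, Measure.prod_prod, Real.volume_Icc,
              ← ENNReal.ofReal_mul (by linarith)]
            congr 1
            ring
    rw [← ENNReal.ofReal_natCast, ← ENNReal.ofReal_mul (Nat.cast_nonneg _),
      ENNReal.ofReal_le_ofReal_iff (by positivity)] at h1
    rw [le_div_iff₀ hD0]
    exact h1
  refine sl_dens_le _ (fun r => (2 * r + 2 * ρ) ^ 2 / D / (4 * r ^ 2)) _ ?_ ?_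
  · have h1 : Tendsto (fun r : ℝ => (2 + 2 * ρ / r) ^ 2 / D / 4)
        atTop (𝓝 ((2 + 0) ^ 2 / D / 4)) := by
      refine Tendsto.div_const (Tendsto.div_const (Tendsto.pow ?_ 2) _) _
      exact tendsto_const_nhds.add (tendsto_const_nhds.div_atTop tendsto_id)
    have e : ((2 : ℝ) + 0) ^ 2 / D / 4 = 1 / D := by
      field_simp
      ring
    rw [e] at h1
    refine h1.congr' ?_
    filter_upwards [eventually_gt_atTop 0] with r hr
    field_simp
  · filter_upwards [eventually_gt_atTop 0] with r hr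
    exact sl_quot_le _ _ r hr (hone r hr)

end Pool.Agent.H673.PR
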