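import Pool.Agent.H673.PR.Main
import Pool.Agent.H673.PR.Comb
import Pool.Agent.H673.PR.PL
import Pool.Agent.H673.PR.K1
import Pool.Agent.H673.PR.P1
import Pool.Agent.H673.PR.Count
import Pool.Agent.H673.PR.Dens
import Pool.Agent.H673.PR.SL
import Pool.Agent.H673.PR.Lat

set_option autoImplicit false

namespace Pool.Agent.H673.PR

theorem s_comb : S_Comb := comb_of pl
theorem s_count : S_Count := count_of k1 (p1_of s_comb s_L) (p1one_of s_L)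
theorem s_dens : S_Dens := dens_of s_count

theorem final_eq {w₁ h₁ w₂ h₂ : ℝ} (hw₁ : 0 < w₁) (hh₁ : 0 < h₁) (hw₂ : 0 < w₂) (hh₂ : 0 < h₂)
    (hr : ¬ Rest w₁ h₁ w₂ h₂) (hr' : ¬ Rest w₂ h₂ w₁ h₁) :
    piT w₁ h₁ w₂ h₂ = piL w₁ h₁ w₂ h₂ :=
  all_pairs single s_dens latdens latA latB hw₁ hh₁ hw₂ hh₂ hr hr'

theorem final_val {w₁ h₁ w₂ h₂ : ℝ} (n : ℕ)
    (hn : 1 ≤ n) (hw₁ : 0 < w₁) (hh₁ : 0 < h₁) (hw₂ : 0 < w₂) (hh₂ : 0 < h₂)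
    (a1 : n * w₂ < w₁) (a2 : w₁ < (n + 1) * w₂) (b1 : n * h₁ < h₂) (b2 : h₂ < (n + 1) * h₁)
    (hc : n = 1 ∨ 2 * (n : ℝ) + 1 ≤ w₁ / w₂ + h₂ / h₁) :
    piT w₁ h₁ w₂ h₂ =
        ENNReal.ofReal (1 / (w₂ * h₁ * (1 + (w₁ / w₂ - 1) * (h₂ / h₁ - 1) / n))) ∧
      piL w₁ h₁ w₂ h₂ =
        ENNReal.ofReal (1 / (w₂ * h₁ * (1 + (w₁ / w₂ - 1) * (h₂ / h₁ - 1) / n))) :=
  slanted s_dens latdens latA n hn hw₁ hh₁ hw₂ hh₂ a1 a2 b1 b2 hc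

end Pool.Agent.H673.PR
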