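import Pool.Agent.H673.PR.Cfg3

/-!
# From points in the plane to the index grid
-/

set_option autoImplicit false

open Set

namespace Pool.Agent.H673.PR

theorem mem_hbox {A B : ℝ} {q e : ℝ × ℝ} : e ∈ hbox A B q ↔
    (q.1 ≤ e.1 ∧ e.1 < q.1 + A) ∧ (q.2 ≤ e.2 ∧ e.2 < q.2 + B) := by
  simp only [hbox, Set.mem_prod, Set.mem_Ico]

/-- the positions -/
noncomputable def uu (p s t : ℝ) (n : ℕ) (k : ℤ) : ℝ :=
  p - n + ((k / 2 : ℤ) : ℝ) + (if k % 2 = 0 then -t else s)

theorem uu_even (p s t : ℝ) (n : ℕ) (i : ℤ) : uu p s t n (2 * i) = p - n + i - t := by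
  have h1 : 2 * i / 2 = i := by omega
  have h2 : 2 * i % 2 = 0 := by omega
  simp only [uu, h1, h2, if_true]; ring

theorem uu_odd (p s t : ℝ) (n : ℕ) (i : ℤ) : uu p s t n (2 * i + 1) = p - n + i + s := by
  have h1 : (2 * i + 1) / 2 = i := by omega
  have h2 : (2 * i + 1) % 2 = 1 := by omega
  simp only [uu, h1, h2]
  norm_num

theorem uu_two (p s t : ℝ) (n : ℕ) (k : ℤ) : uu p s t n (k + 2) = uu p s t n k + 1 := by
  have h1 : (k + 2) / 2 = k / 2 + 1 := by omega
  have h2 : (k + 2) % 2 = k % 2 := by omega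
  simp only [uu, h1, h2]
  push_cast; ring

theorem uu_mono {p s t : ℝ} {n : ℕ} (h0 : 0 < s + t) (h1 : s + t < 1) :
    StrictMono (uu p s t n) := by
  apply strictMono_int_of_lt_succ
  intro k
  rcases Int.even_or_odd' k with ⟨i, hi | hi⟩
  · rw [hi, uu_even, uu_odd]; linarith
  · rw [hi, uu_odd, show 2 * i + 1 + 1 = 2 * (i + 1) by ring, uu_even]
    push_cast; linarith

/-- the index of a monotone predicate -/
theorem ex_up (Q : ℤ → Prop) (hQ : ∀ k k', k ≤ k' → Q k → Q k') (N : ℕ) :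
    ∃ a : ℤ, ∀ k : ℤ, 0 ≤ k → k ≤ N → (a ≤ k ↔ Q k) := by
  classical
  induction N with
  | zero =>
    by_cases h : Q 0
    · exact ⟨0, fun k h0 h1 => by
        have : k = 0 := by push_cast at h1; omega
        subst this; simp [h]⟩
    · exact ⟨1, fun k h0 h1 => by
        have : k = 0 := by push_cast at h1; omega
        subst this; simp [h]⟩
  | succ N ih =>
    obtain ⟨a, ha⟩ := ih
    by_cases h : Q N
    · refine ⟨a, fun k h0 h1 => ?_⟩
      by_cases hk : k ≤ N
      · exact ha k h0 hk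
      · have h2 := (ha N (by omega) le_rfl).2 h
        constructor
        · intro _; exact hQ N k (by omega) h
        · intro _; omega
    · by_cases h2 : Q (N + 1)
      · refine ⟨N + 1, fun k h0 h1 => ?_⟩
        by_cases hk : k ≤ N
        · constructor
          · intro h3; omega
          · intro h3; exact absurd (hQ k N hk h3) h
        · have : k = N + 1 := by push_cast at h1; omega
          subst this; simp [h2]
      · refine ⟨N + 2, fun k h0 h1 => ?_⟩
        constructor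
        · intro h3; push_cast at h1; omega
        · intro h3
          exact absurd (hQ k (N + 1) (by push_cast at h1; omega) h3) h2

theorem ex_down (Q : ℤ → Prop) (hQ : ∀ k k', k ≤ k' → Q k' → Q k) (N : ℕ) :
    ∃ a : ℤ, ∀ k : ℤ, 0 ≤ k → k ≤ N → (k ≤ a ↔ Q k) := by
  obtain ⟨a, ha⟩ := ex_up (fun k => ¬ Q k) (fun k k' h h1 h2 => h1 (hQ k k' h h2)) N
  refine ⟨a - 1, fun k h0 h1 => ?_⟩
  have := ha k h0 h1
  constructor
  · intro h2
    by_contra h3
    have := this.2 h3
    omega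
  · intro h2
    by_contra h3
    exact (this.1 (by omega)) h2

/-- one-dimensional index data of a coordinate -/
theorem ex_idx (u : ℤ → ℝ) (hu : StrictMono u) (n : ℕ) (A : ℝ) (hA : u (2 * n) < u 0 + A)
    (c : ℝ) : ∃ (r : Bool) (a : ℤ), (r = true ↔ u (2 * n) ≤ c) ∧
      (r = true → ∀ k : ℤ, 0 ≤ k → k ≤ 2 * n → (a ≤ k ↔ c < u k + A)) ∧
      (r = false → ∀ k : ℤ, 0 ≤ k → k ≤ 2 * n → (k ≤ a ↔ u k ≤ c)) ∧
      (∀ k : ℤ, 0 ≤ k → k ≤ 2 * n → (pr r a k ↔ (u k ≤ c ∧ c < u k + A))) := by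
  by_cases h : u (2 * n) ≤ c
  · obtain ⟨a, ha⟩ := ex_up (fun k => c < u k + A)
      (fun k k' hk h1 => by have := hu.monotone hk; linarith) (2 * n)
    refine ⟨true, a, by simp [h], fun _ k h0 h1 => ha k h0 (by push_cast; exact h1), by simp,
      fun k h0 h1 => ?_⟩
    rw [pr_true, ha k h0 (by push_cast; exact h1)]
    have := hu.monotone h1
    constructor
    · intro h2; exact ⟨by linarith, h2⟩
    · exact fun h2 => h2.2
  · obtain ⟨a, ha⟩ := ex_down (fun k => u k ≤ c)
      (fun k k' hk h1 => by have := hu.monotone hk; linarith) (2 * n)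
    refine ⟨false, a, by simp; exact not_le.1 h, by simp,
      fun _ k h0 h1 => ha k h0 (by push_cast; exact h1), fun k h0 h1 => ?_⟩
    rw [pr_false, ha k h0 (by push_cast; exact h1)]
    have := hu.monotone h0
    constructor
    · intro h2
      refine ⟨h2, ?_⟩
      push Not at h
      linarith
    · exact fun h2 => h2.1

section

variable (u v : ℤ → ℝ) (n : ℕ) (A B : ℝ) (F : Finset (ℝ × ℝ)) (p : ℝ × ℝ)

/-- data of positions around a point `p` -/
structure Pos : Prop where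
  umono : StrictMono u
  vmono : StrictMono v
  utwo : ∀ k, u (k + 2) = u k + 1
  vtwo : ∀ k, v (k + 2) = v k + 1
  uA : p.1 < u 0 + A
  vB : p.2 < v 0 + B
  up : u (2 * n) ≤ p.1
  vp : v (2 * n) ≤ p.2
  pF : p ∈ F
  loc : ∀ q, p ∈ hbox A B q → LocPierce F A B q

variable {u v n A B F p}

open Classical in
/-- the configuration of index data -/
noncomputable def cf (h : Pos u v n A B F p) : Cf (ℝ × ℝ) where
  E := F.erase p
  xr := fun e => (ex_idx u h.umono n A (lt_of_le_of_lt h.up h.uA) e.1).choose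
  a := fun e => (ex_idx u h.umono n A (lt_of_le_of_lt h.up h.uA) e.1).choose_spec.choose
  yr := fun e => (ex_idx v h.vmono n B (lt_of_le_of_lt h.vp h.vB) e.2).choose
  b := fun e => (ex_idx v h.vmono n B (lt_of_le_of_lt h.vp h.vB) e.2).choose_spec.choose

theorem cf_x (h : Pos u v n A B F p) (e : ℝ × ℝ) :
    (((cf h).xr e = true ↔ u (2 * n) ≤ e.1) ∧
      ((cf h).xr e = true → ∀ k : ℤ, 0 ≤ k → k ≤ 2 * n → ((cf h).a e ≤ k ↔ e.1 < u k + A)) ∧
      ((cf h).xr e = false → ∀ k : ℤ, 0 ≤ k → k ≤ 2 * n → (k ≤ (cf h).a e ↔ u k ≤ e.1)) ∧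
      (∀ k : ℤ, 0 ≤ k → k ≤ 2 * n →
        (pr ((cf h).xr e) ((cf h).a e) k ↔ (u k ≤ e.1 ∧ e.1 < u k + A)))) :=
  (ex_idx u h.umono n A (lt_of_le_of_lt h.up h.uA) e.1).choose_spec.choose_spec

theorem cf_y (h : Pos u v n A B F p) (e : ℝ × ℝ) :
    (((cf h).yr e = true ↔ v (2 * n) ≤ e.2) ∧
      ((cf h).yr e = true → ∀ k : ℤ, 0 ≤ k → k ≤ 2 * n → ((cf h).b e ≤ k ↔ e.2 < v k + B)) ∧
      ((cf h).yr e = false → ∀ k : ℤ, 0 ≤ k → k ≤ 2 * n → (k ≤ (cf h).b e ↔ v k ≤ e.2)) ∧
      (∀ k : ℤ, 0 ≤ k → k ≤ 2 * n →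
        (pr ((cf h).yr e) ((cf h).b e) k ↔ (v k ≤ e.2 ∧ e.2 < v k + B)))) :=
  (ex_idx v h.vmono n B (lt_of_le_of_lt h.vp h.vB) e.2).choose_spec.choose_spec

theorem Pos.p_mem (h : Pos u v n A B F p) {k l : ℤ} (hk : 0 ≤ k) (hk' : k ≤ 2 * n) (hl : 0 ≤ l)
    (hl' : l ≤ 2 * n) : p ∈ hbox A B (u k, v l) := by
  rw [mem_hbox]
  have h1 := h.umono.monotone hk
  have h2 := h.umono.monotone hk'
  have h3 := h.vmono.monotone hl
  have h4 := h.vmono.monotone hl'
  have h5 := h.uA
  have h6 := h.vB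
  have h7 := h.up
  have h8 := h.vp
  exact ⟨⟨by dsimp only; linarith, by dsimp only; linarith⟩,
    ⟨by dsimp only; linarith, by dsimp only; linarith⟩⟩

theorem cf_M (h : Pos u v n A B F p) {k l : ℤ} (hk : 0 ≤ k) (hk' : k ≤ 2 * n) (hl : 0 ≤ l)
    (hl' : l ≤ 2 * n) : cnt F A B (u k, v l) = (cf h).M k l + 1 := by
  classical
  have hp := h.p_mem hk hk' hl hl'
  have hE : (cf h).E = F.erase p := by unfold cf; congr 1
  unfold cnt Cf.M
  rw [hE, ← Finset.card_insert_of_notMem (a := p)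
    (s := (F.erase p).filter (fun e => pr ((cf h).xr e) ((cf h).a e) k ∧
      pr ((cf h).yr e) ((cf h).b e) l))]
  · congr 1
    ext e
    simp only [Finset.mem_filter, Finset.mem_insert, Finset.mem_erase]
    rw [(cf_x h e).2.2.2 k hk hk', (cf_y h e).2.2.2 l hl hl', ← mem_hbox (q := (u k, v l))]
    constructor
    · rintro ⟨h1, h2⟩
      by_cases he : e = p
      · exact Or.inl he
      · exact Or.inr ⟨⟨he, h1⟩, h2⟩
    · rintro (rfl | ⟨⟨h1, h2⟩, h3⟩)
      · exact ⟨h.pF, hp⟩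
      · exact ⟨h2, h3⟩
  · simp

theorem cf_ok (h : Pos u v n A B F p) (hAn : (n : ℝ) < A) (hBn : (n : ℝ) < B) (hn : 1 ≤ n) :
    (cf h).Ok n where
  vr := fun k l hk hk' hl hl' => by
    have hn1 : (1 : ℝ) ≤ n := by exact_mod_cast hn
    have hq := h.loc _ (h.p_mem (by omega) hk' hl hl' : p ∈ hbox A B (u k, v l))
    obtain ⟨e, he, heb⟩ := hq.1 (u k + A - 1) (by dsimp only; linarith) (by dsimp only; linarith)
    rw [mem_hbox] at heb
    dsimp only at heb
    have hk2 : u k = u (k - 2) + 1 := by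
      rw [← h.utwo (k - 2)]; congr 1; ring
    have h0 := h.umono.monotone (show (0 : ℤ) ≤ k - 2 by omega)
    have h5 := h.uA
    have h7 := h.up
    have hne : e ≠ p := by
      rintro rfl
      linarith [heb.1.1]
    have hr : (cf h).xr e = true := (cf_x h e).1.2 (by linarith [heb.1.1])
    refine ⟨e, Finset.mem_erase.2 ⟨hne, he⟩, hr, ?_, ?_⟩
    · have h1 := ((cf_x h e).2.1 hr k (by omega) hk').2 (by linarith [heb.1.2])
      have h2 : ¬ (cf h).a e ≤ k - 2 := by
        rw [(cf_x h e).2.1 hr (k - 2) (by omega) (by omega)]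
        linarith [heb.1.1]
      omega
    · rw [(cf_y h e).2.2.2 l hl hl']
      exact heb.2
  vl := fun k l hk hk' hl hl' => by
    have hn1 : (1 : ℝ) ≤ n := by exact_mod_cast hn
    have hq := h.loc _ (h.p_mem (by omega) (by omega) hl hl' : p ∈ hbox A B (u k, v l))
    obtain ⟨e, he, heb⟩ := hq.1 (u k) le_rfl (by dsimp only; linarith)
    rw [mem_hbox] at heb
    dsimp only at heb
    have hk2 := h.utwo k
    have h0 := h.umono.monotone (show k + 2 ≤ 2 * n by omega)
    have h5 := h.uA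
    have h7 := h.up
    have hne : e ≠ p := by
      rintro rfl
      linarith [heb.1.2]
    have hr : (cf h).xr e = false := by
      rw [← Bool.not_eq_true, (cf_x h e).1]
      linarith [heb.1.2]
    refine ⟨e, Finset.mem_erase.2 ⟨hne, he⟩, hr, ?_, ?_⟩
    · have h1 := ((cf_x h e).2.2.1 hr k (by omega) (by omega)).2 heb.1.1
      have h2 : ¬ k + 2 ≤ (cf h).a e := by
        rw [(cf_x h e).2.2.1 hr (k + 2) (by omega) (by omega)]
        linarith [heb.1.2]
      omega
    · rw [(cf_y h e).2.2.2 l hl hl']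
      exact heb.2
  hu := fun k l hl hl' hk hk' => by
    have hn1 : (1 : ℝ) ≤ n := by exact_mod_cast hn
    have hq := h.loc _ (h.p_mem hk hk' (by omega) hl' : p ∈ hbox A B (u k, v l))
    obtain ⟨e, he, heb⟩ := hq.2 (v l + B - 1) (by dsimp only; linarith) (by dsimp only; linarith)
    rw [mem_hbox] at heb
    dsimp only at heb
    have hk2 : v l = v (l - 2) + 1 := by
      rw [← h.vtwo (l - 2)]; congr 1; ring
    have h0 := h.vmono.monotone (show (0 : ℤ) ≤ l - 2 by omega)
    have h5 := h.vB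
    have h7 := h.vp
    have hne : e ≠ p := by
      rintro rfl
      linarith [heb.2.1]
    have hr : (cf h).yr e = true := (cf_y h e).1.2 (by linarith [heb.2.1])
    refine ⟨e, Finset.mem_erase.2 ⟨hne, he⟩, hr, ?_, ?_⟩
    · have h1 := ((cf_y h e).2.1 hr l (by omega) hl').2 (by linarith [heb.2.2])
      have h2 : ¬ (cf h).b e ≤ l - 2 := by
        rw [(cf_y h e).2.1 hr (l - 2) (by omega) (by omega)]
        linarith [heb.2.1]
      omega
    · rw [(cf_x h e).2.2.2 k hk hk']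
      exact heb.1
  hd := fun k l hl hl' hk hk' => by
    have hn1 : (1 : ℝ) ≤ n := by exact_mod_cast hn
    have hq := h.loc _ (h.p_mem hk hk' (by omega) (by omega) : p ∈ hbox A B (u k, v l))
    obtain ⟨e, he, heb⟩ := hq.2 (v l) le_rfl (by dsimp only; linarith)
    rw [mem_hbox] at heb
    dsimp only at heb
    have hk2 := h.vtwo l
    have h0 := h.vmono.monotone (show l + 2 ≤ 2 * n by omega)
    have h5 := h.vB
    have h7 := h.vp
    have hne : e ≠ p := by
      rintro rfl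
      linarith [heb.2.2]
    have hr : (cf h).yr e = false := by
      rw [← Bool.not_eq_true, (cf_y h e).1]
      linarith [heb.2.2]
    refine ⟨e, Finset.mem_erase.2 ⟨hne, he⟩, hr, ?_, ?_⟩
    · have h1 := ((cf_y h e).2.2.1 hr l (by omega) (by omega)).2 heb.2.1
      have h2 : ¬ l + 2 ≤ (cf h).b e := by
        rw [(cf_y h e).2.2.1 hr (l + 2) (by omega) (by omega)]
        linarith [heb.2.2]
      omega
    · rw [(cf_x h e).2.2.2 k hk hk']
      exact heb.1

/-- two points in a unit box -/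
theorem two_le_cnt {q e1 e2 : ℝ × ℝ} (h1 : e1 ∈ F) (h2 : e2 ∈ F) (hne : e1 ≠ e2)
    (m1 : e1 ∈ hbox 1 1 q) (m2 : e2 ∈ hbox 1 1 q) : 2 ≤ cnt F 1 1 q := by
  classical
  have : ({e1, e2} : Finset (ℝ × ℝ)) ⊆ F.filter (fun e => e ∈ hbox 1 1 q) := by
    intro x hx
    simp only [Finset.mem_insert, Finset.mem_singleton] at hx
    rcases hx with rfl | rfl
    · exact Finset.mem_filter.2 ⟨h1, m1⟩
    · exact Finset.mem_filter.2 ⟨h2, m2⟩
  have h3 := Finset.card_le_card this
  rw [Finset.card_pair hne] at h3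
  exact h3

/-- the weights -/
noncomputable def ww (u v : ℤ → ℝ) (n : ℕ) (A B : ℝ) (F : Finset (ℝ × ℝ)) (i j : ℤ) : ℕ :=
  wpos n A B F (n - i).toNat (n - j).toNat (u (2 * i), v (2 * j))

theorem x_right (h : Pos u v n A B F p) {e : ℝ × ℝ} (hr : (cf h).xr e = true)
    (ha : (cf h).a e = 2 * n - 1 ∨ (cf h).a e = 2 * n) (hn : 1 ≤ n) :
    u (2 * n) + (A - 1) ≤ e.1 ∧ e.1 < u (2 * n) + (A - 1) + 1 := by
  have h1 := ((cf_x h e).2.1 hr (2 * n) (by omega) le_rfl).1 (by omega)
  have h2 : ¬ (cf h).a e ≤ 2 * n - 2 := by omega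
  rw [(cf_x h e).2.1 hr (2 * n - 2) (by omega) (by omega)] at h2
  have h3 := h.utwo (2 * n - 2)
  rw [show (2 * (n : ℤ) - 2 + 2) = 2 * n by ring] at h3
  push Not at h2
  constructor <;> linarith

theorem x_left (h : Pos u v n A B F p) {e : ℝ × ℝ} (hr : (cf h).xr e = false)
    (ha : (cf h).a e = 0 ∨ (cf h).a e = 1) (hn : 1 ≤ n) :
    u 0 ≤ e.1 ∧ e.1 < u 0 + 1 := by
  have h1 := ((cf_x h e).2.2.1 hr 0 le_rfl (by omega)).1 (by omega)
  have h2 : ¬ 2 ≤ (cf h).a e := by omega
  rw [(cf_x h e).2.2.1 hr 2 (by omega) (by omega)] at h2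
  have h3 := h.utwo 0
  rw [zero_add] at h3
  push Not at h2
  constructor <;> linarith

theorem y_right (h : Pos u v n A B F p) {e : ℝ × ℝ} (hr : (cf h).yr e = true)
    (ha : (cf h).b e = 2 * n - 1 ∨ (cf h).b e = 2 * n) (hn : 1 ≤ n) :
    v (2 * n) + (B - 1) ≤ e.2 ∧ e.2 < v (2 * n) + (B - 1) + 1 := by
  have h1 := ((cf_y h e).2.1 hr (2 * n) (by omega) le_rfl).1 (by omega)
  have h2 : ¬ (cf h).b e ≤ 2 * n - 2 := by omega
  rw [(cf_y h e).2.1 hr (2 * n - 2) (by omega) (by omega)] at h2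
  have h3 := h.vtwo (2 * n - 2)
  rw [show (2 * (n : ℤ) - 2 + 2) = 2 * n by ring] at h3
  push Not at h2
  constructor <;> linarith

theorem y_left (h : Pos u v n A B F p) {e : ℝ × ℝ} (hr : (cf h).yr e = false)
    (ha : (cf h).b e = 0 ∨ (cf h).b e = 1) (hn : 1 ≤ n) :
    v 0 ≤ e.2 ∧ e.2 < v 0 + 1 := by
  have h1 := ((cf_y h e).2.2.1 hr 0 le_rfl (by omega)).1 (by omega)
  have h2 : ¬ 2 ≤ (cf h).b e := by omega
  rw [(cf_y h e).2.2.1 hr 2 (by omega) (by omega)] at h2
  have h3 := h.vtwo 0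
  rw [zero_add] at h3
  push Not at h2
  constructor <;> linarith

theorem cf_E (h : Pos u v n A B F p) {e : ℝ × ℝ} (he : e ∈ (cf h).E) : e ∈ F := by
  classical
  exact (Finset.mem_erase.1 he).2

theorem ww_ok (h : Pos u v n A B F p) (hn : 2 ≤ n) : (cf h).WOk n (ww u v n A B F) where
  w2 := fun i j hM h1 h2 h3 h4 => by
    have hc := cf_M h (k := 2 * i) (l := 2 * j) (by omega) (by omega) (by omega) (by omega)
    have hc' : n + 2 ≤ cnt F A B (u (2 * i), v (2 * j)) := by omega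
    have s1 : side n (n - i).toNat = 0 := by
      unfold side; rw [if_neg]; omega
    have s2 : side n (n - j).toNat = 0 := by
      unfold side; rw [if_neg]; omega
    unfold ww wpos
    rw [if_pos hc', s1, s2]; omega
  w1x := fun i j hM h1 h2 h3 h4 => by
    have hc := cf_M h (k := 2 * i) (l := 2 * j) (by omega) (by omega) (by omega) (by omega)
    have hc' : n + 2 ≤ cnt F A B (u (2 * i), v (2 * j)) := by omega
    have s1 : side n (n - i).toNat = 0 := by
      unfold side; rw [if_neg]; omega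
    have s2 : side n (n - j).toNat ≤ 1 := by
      unfold side; split_ifs <;> omega
    unfold ww wpos
    rw [if_pos hc', s1]; omega
  w1y := fun i j hM h1 h2 h3 h4 => by
    have hc := cf_M h (k := 2 * i) (l := 2 * j) (by omega) (by omega) (by omega) (by omega)
    have hc' : n + 2 ≤ cnt F A B (u (2 * i), v (2 * j)) := by omega
    have s1 : side n (n - i).toNat ≤ 1 := by
      unfold side; split_ifs <;> omega
    have s2 : side n (n - j).toNat = 0 := by
      unfold side; rw [if_neg]; omega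
    unfold ww wpos
    rw [if_pos hc', s2]; omega
  c11 := fun hM e1 he1 e2 he2 hne q1 q2 => by
    have hc := cf_M h (k := 2 * n) (l := 2 * n) (by omega) (by omega) (by omega) (by omega)
    have hc' : n + 2 ≤ cnt F A B (u (2 * n), v (2 * n)) := by omega
    have s0 : ((n : ℤ) - n).toNat = 0 := by omega
    have h2 : 2 ≤ cnt F 1 1 ((u (2 * n), v (2 * n)) + (A - 1, B - 1)) :=
      two_le_cnt (cf_E h he1) (cf_E h he2) hne
        (mem_hbox.2 ⟨x_right h q1.1 (Or.inl q1.2.1) (by omega),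
          y_right h q1.2.2.1 (Or.inr q1.2.2.2) (by omega)⟩)
        (mem_hbox.2 ⟨x_right h q2.1 (Or.inr q2.2.1) (by omega),
          y_right h q2.2.2.1 (Or.inl q2.2.2.2) (by omega)⟩)
    have he : enh n A B F 0 0 (u (2 * n), v (2 * n)) = 1 := by
      unfold enh; rw [if_pos ⟨rfl, rfl, h2⟩]
    unfold ww wpos
    rw [if_pos hc', s0, he]; omega
  c01 := fun hM e1 he1 e2 he2 hne q1 q2 => by
    have hc := cf_M h (k := 0) (l := 2 * n) (by omega) (by omega) (by omega) (by omega)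
    have hc' : n + 2 ≤ cnt F A B (u (2 * 0), v (2 * n)) := by rw [mul_zero]; omega
    have s0 : ((n : ℤ) - n).toNat = 0 := by omega
    have s1 : ((n : ℤ) - 0).toNat = n := by omega
    have h2 : 2 ≤ cnt F 1 1 ((u (2 * 0), v (2 * n)) + (0, B - 1)) := by
      refine two_le_cnt (cf_E h he1) (cf_E h he2) hne
        (mem_hbox.2 ⟨?_, y_right h q1.2.2.1 (Or.inr q1.2.2.2) (by omega)⟩)
        (mem_hbox.2 ⟨?_, y_right h q2.2.2.1 (Or.inl q2.2.2.2) (by omega)⟩)
      · have := x_left h q1.1 (Or.inr q1.2.1) (by omega)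
        simpa using this
      · have := x_left h q2.1 (Or.inl q2.2.1) (by omega)
        simpa using this
    have he : enh n A B F n 0 (u (2 * 0), v (2 * n)) = 1 := by
      unfold enh
      rw [if_neg (by omega), if_neg (by omega), if_neg (by omega), if_pos ⟨rfl, rfl, h2⟩]
    unfold ww wpos
    rw [if_pos hc', s0, s1, he]; omega
  c10 := fun hM e1 he1 e2 he2 hne q1 q2 => by
    have hc := cf_M h (k := 2 * n) (l := 0) (by omega) (by omega) (by omega) (by omega)
    have hc' : n + 2 ≤ cnt F A B (u (2 * n), v (2 * 0)) := by rw [mul_zero]; omega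
    have s0 : ((n : ℤ) - n).toNat = 0 := by omega
    have s1 : ((n : ℤ) - 0).toNat = n := by omega
    have h2 : 2 ≤ cnt F 1 1 ((u (2 * n), v (2 * 0)) + (A - 1, 0)) := by
      refine two_le_cnt (cf_E h he1) (cf_E h he2) hne
        (mem_hbox.2 ⟨x_right h q1.1 (Or.inl q1.2.1) (by omega), ?_⟩)
        (mem_hbox.2 ⟨x_right h q2.1 (Or.inr q2.2.1) (by omega), ?_⟩)
      · have := y_left h q1.2.2.1 (Or.inl q1.2.2.2) (by omega)
        simpa using this
      · have := y_left h q2.2.2.1 (Or.inr q2.2.2.2) (by omega)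
        simpa using this
    have he : enh n A B F 0 n (u (2 * n), v (2 * 0)) = 1 := by
      unfold enh
      rw [if_neg (by omega), if_neg (by omega), if_pos ⟨rfl, rfl, h2⟩]
    unfold ww wpos
    rw [if_pos hc', s0, s1, he]; omega
  c00 := fun hM e1 he1 e2 he2 hne q1 q2 => by
    have hc := cf_M h (k := 0) (l := 0) (by omega) (by omega) (by omega) (by omega)
    have hc' : n + 2 ≤ cnt F A B (u (2 * 0), v (2 * 0)) := by rw [mul_zero]; omega
    have s1 : ((n : ℤ) - 0).toNat = n := by omega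
    have h2 : 2 ≤ cnt F 1 1 (u (2 * 0), v (2 * 0)) := by
      refine two_le_cnt (cf_E h he1) (cf_E h he2) hne
        (mem_hbox.2 ⟨?_, ?_⟩) (mem_hbox.2 ⟨?_, ?_⟩)
      · simpa using x_left h q1.1 (Or.inr q1.2.1) (by omega)
      · simpa using y_left h q1.2.2.1 (Or.inl q1.2.2.2) (by omega)
      · simpa using x_left h q2.1 (Or.inl q2.2.1) (by omega)
      · simpa using y_left h q2.2.2.1 (Or.inr q2.2.2.2) (by omega)
    have he : enh n A B F n n (u (2 * 0), v (2 * 0)) = 1 := by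
      unfold enh
      rw [if_neg (by omega), if_pos ⟨rfl, rfl, h2⟩]
    unfold ww wpos
    rw [if_pos hc', s1, he]; omega

end

end Pool.Agent.H673.PR
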