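import Pool.Agent.H673.PR.Stm

/-!
# Assembly
-/

set_option autoImplicit false

open MeasureTheory Set

namespace Pool.Agent.H673.PR

theorem piT_le_piL (w₁ h₁ w₂ h₂ : ℝ) : piT w₁ h₁ w₂ h₂ ≤ piL w₁ h₁ w₂ h₂ := by
  unfold piT piL
  apply sInf_le_sInf
  rintro d ⟨L, -, h1, h2, h3⟩
  exact ⟨L, h1, h2, h3⟩

theorem le_piT {w₁ h₁ w₂ h₂ : ℝ} {D : ENNReal}
    (h : ∀ P : Set (ℝ × ℝ), Pierces P w₁ h₁ → Pierces P w₂ h₂ → D ≤ dens P) :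
    D ≤ piT w₁ h₁ w₂ h₂ := by
  unfold piT
  apply le_sInf
  rintro d ⟨P, h1, h2, rfl⟩
  exact h P h1 h2

theorem piL_le {w₁ h₁ w₂ h₂ : ℝ} {D : ENNReal} {L : Set (ℝ × ℝ)} (hL : IsLattice L)
    (h1 : Pierces L w₁ h₁) (h2 : Pierces L w₂ h₂) (h3 : dens L ≤ D) :
    piL w₁ h₁ w₂ h₂ ≤ D :=
  le_trans (sInf_le ⟨L, hL, h1, h2, rfl⟩) h3

theorem isLattice_of_det {u v : ℝ × ℝ} (hd : u.1 * v.2 - u.2 * v.1 ≠ 0) :
    IsLattice {x | ∃ i j : ℤ, x = (i : ℝ) • u + (j : ℝ) • v} := by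
  refine ⟨u, v, ?_, rfl⟩
  rw [LinearIndependent.pair_iff]
  intro s t h
  have h1 := congrArg Prod.fst h
  have h2 := congrArg Prod.snd h
  simp only [Prod.fst_add, Prod.smul_fst, smul_eq_mul, Prod.fst_zero] at h1
  simp only [Prod.snd_add, Prod.smul_snd, smul_eq_mul, Prod.snd_zero] at h2
  constructor
  · have : s * (u.1 * v.2 - u.2 * v.1) = 0 := by linear_combination v.2 * h1 - v.1 * h2
    rcases mul_eq_zero.1 this with h | h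
    · exact h
    · exact absurd h hd
  · have : t * (u.1 * v.2 - u.2 * v.1) = 0 := by linear_combination u.1 * h2 - u.2 * h1
    rcases mul_eq_zero.1 this with h | h
    · exact h
    · exact absurd h hd

/-- squeeze -/
theorem squeeze {w₁ h₁ w₂ h₂ : ℝ} {D : ENNReal}
    (hlow : ∀ P : Set (ℝ × ℝ), Pierces P w₁ h₁ → Pierces P w₂ h₂ → D ≤ dens P)
    (hup : piL w₁ h₁ w₂ h₂ ≤ D) :
    piT w₁ h₁ w₂ h₂ = D ∧ piL w₁ h₁ w₂ h₂ = D := by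
  have h1 := le_piT hlow
  have h2 := piT_le_piL w₁ h₁ w₂ h₂
  exact ⟨le_antisymm (h2.trans hup) h1, le_antisymm hup (h1.trans h2)⟩

/-- the simple lattices -/
theorem easy (hS : S_Single) (hD : S_LatDens) (hB : S_LatB) {w₁ h₁ w₂ h₂ : ℝ} (hw₁ : 0 < w₁)
    (hh₁ : 0 < h₁) (m : ℕ) (hm : 1 ≤ m) (c1 : w₁ ≤ m * w₂) (c2 : m * h₁ ≤ h₂) :
    piT w₁ h₁ w₂ h₂ = ENNReal.ofReal (1 / (w₁ * h₁)) ∧
      piL w₁ h₁ w₂ h₂ = ENNReal.ofReal (1 / (w₁ * h₁)) := by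
  apply squeeze (fun P h1 _ => hS w₁ h₁ hw₁ hh₁ P h1)
  obtain ⟨p1, p2⟩ := hB m w₁ h₁ w₂ h₂ hm hw₁ hh₁ c1 c2 _ rfl
  have hdet : ((w₁, 0) : ℝ × ℝ).1 * ((w₁ / m, h₁) : ℝ × ℝ).2 -
      ((w₁, 0) : ℝ × ℝ).2 * ((w₁ / m, h₁) : ℝ × ℝ).1 = w₁ * h₁ := by
    simp
  have hne : ((w₁, 0) : ℝ × ℝ).1 * ((w₁ / m, h₁) : ℝ × ℝ).2 -
      ((w₁, 0) : ℝ × ℝ).2 * ((w₁ / m, h₁) : ℝ × ℝ).1 ≠ 0 := by
    rw [hdet]; positivity
  refine piL_le (isLattice_of_det hne) p1 p2 ?_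
  have := hD _ _ hne
  rw [hdet, abs_of_pos (by positivity)] at this
  exact this

/-- the slanted lattices -/
theorem slanted (hDe : S_Dens) (hD : S_LatDens) (hA : S_LatA) {w₁ h₁ w₂ h₂ : ℝ} (n : ℕ)
    (hn : 1 ≤ n) (hw₁ : 0 < w₁) (hh₁ : 0 < h₁) (hw₂ : 0 < w₂) (hh₂ : 0 < h₂)
    (a1 : n * w₂ < w₁) (a2 : w₁ < (n + 1) * w₂) (b1 : n * h₁ < h₂) (b2 : h₂ < (n + 1) * h₁)
    (hc : n = 1 ∨ 2 * (n : ℝ) + 1 ≤ w₁ / w₂ + h₂ / h₁) :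
    piT w₁ h₁ w₂ h₂ =
        ENNReal.ofReal (1 / (w₂ * h₁ * (1 + (w₁ / w₂ - 1) * (h₂ / h₁ - 1) / n))) ∧
      piL w₁ h₁ w₂ h₂ =
        ENNReal.ofReal (1 / (w₂ * h₁ * (1 + (w₁ / w₂ - 1) * (h₂ / h₁ - 1) / n))) := by
  have hn0 : (1 : ℝ) ≤ n := by exact_mod_cast hn
  have hnp : (0 : ℝ) < n := by linarith
  have hval : (n : ℝ) / (w₂ * h₁ * (n + (w₁ / w₂ - 1) * (h₂ / h₁ - 1))) =
      1 / (w₂ * h₁ * (1 + (w₁ / w₂ - 1) * (h₂ / h₁ - 1) / n)) := by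
    have hA1 : 0 < w₁ / w₂ - 1 := by
      rw [sub_pos, lt_div_iff₀ hw₂]
      nlinarith
    have hB1 : 0 < h₂ / h₁ - 1 := by
      rw [sub_pos, lt_div_iff₀ hh₁]
      nlinarith
    have h1 : 0 < (n : ℝ) + (w₁ / w₂ - 1) * (h₂ / h₁ - 1) := by positivity
    have h2 : 0 < 1 + (w₁ / w₂ - 1) * (h₂ / h₁ - 1) / n := by positivity
    rw [div_eq_div_iff (by positivity) (by positivity)]
    have h3 : (n : ℝ) * (1 + (w₁ / w₂ - 1) * (h₂ / h₁ - 1) / n) =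
        n + (w₁ / w₂ - 1) * (h₂ / h₁ - 1) := by
      field_simp
    linear_combination (w₂ * h₁) * h3
  rw [← hval]
  apply squeeze (fun P h1 h2 => hDe n w₁ h₁ w₂ h₂ hn hw₁ hh₁ hw₂ hh₂ a1 a2 b1 b2 hc P h1 h2)
  obtain ⟨p1, p2⟩ := hA n w₁ h₁ w₂ h₂ hn hh₁ hw₂ a1 a2 b1 b2 _ rfl
  have hdet : ((w₂ - (w₁ - w₂) / n, h₂) : ℝ × ℝ).1 * (((w₁ - w₂) / n, -h₁) : ℝ × ℝ).2 -
      ((w₂ - (w₁ - w₂) / n, h₂) : ℝ × ℝ).2 * (((w₁ - w₂) / n, -h₁) : ℝ × ℝ).1 =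
      -((w₂ * h₁ * (n + (w₁ / w₂ - 1) * (h₂ / h₁ - 1))) / n) := by
    field_simp
    ring
  have hpos : 0 < (w₂ * h₁ * (n + (w₁ / w₂ - 1) * (h₂ / h₁ - 1))) / n := by
    have hA1 : 0 < w₁ / w₂ - 1 := by
      rw [sub_pos, lt_div_iff₀ hw₂]
      nlinarith
    have hB1 : 0 < h₂ / h₁ - 1 := by
      rw [sub_pos, lt_div_iff₀ hh₁]
      nlinarith
    positivity
  have hne : ((w₂ - (w₁ - w₂) / n, h₂) : ℝ × ℝ).1 * (((w₁ - w₂) / n, -h₁) : ℝ × ℝ).2 -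
      ((w₂ - (w₁ - w₂) / n, h₂) : ℝ × ℝ).2 * (((w₁ - w₂) / n, -h₁) : ℝ × ℝ).1 ≠ 0 := by
    rw [hdet]; exact neg_ne_zero.2 hpos.ne'
  refine piL_le (isLattice_of_det hne) p1 p2 ?_
  have := hD _ _ hne
  rw [hdet, abs_neg, abs_of_pos hpos, one_div_div] at this
  exact this

/-! ### symmetries -/

theorem piT_comm (w₁ h₁ w₂ h₂ : ℝ) : piT w₁ h₁ w₂ h₂ = piT w₂ h₂ w₁ h₁ := by
  unfold piT
  congr 1
  ext d
  constructor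
  · rintro ⟨P, h1, h2, h3⟩; exact ⟨P, h2, h1, h3⟩
  · rintro ⟨P, h1, h2, h3⟩; exact ⟨P, h2, h1, h3⟩

theorem piL_comm (w₁ h₁ w₂ h₂ : ℝ) : piL w₁ h₁ w₂ h₂ = piL w₂ h₂ w₁ h₁ := by
  unfold piL
  congr 1
  ext d
  constructor
  · rintro ⟨P, h0, h1, h2, h3⟩; exact ⟨P, h0, h2, h1, h3⟩
  · rintro ⟨P, h0, h1, h2, h3⟩; exact ⟨P, h0, h2, h1, h3⟩

theorem pierces_swap {P : Set (ℝ × ℝ)} {w h : ℝ} (hP : Pierces P w h) :
    Pierces (Prod.swap '' P) h w := by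
  intro c
  obtain ⟨x, hx, hr⟩ := hP c.swap
  refine ⟨x.swap, ⟨x, hx, rfl⟩, ?_⟩
  simp only [rect, Set.mem_prod, Set.mem_Icc, Prod.fst_swap, Prod.snd_swap] at hr ⊢
  exact ⟨hr.2, hr.1⟩

theorem dens_swap (P : Set (ℝ × ℝ)) : dens (Prod.swap '' P) = dens P := by
  unfold dens
  congr 1
  funext r
  congr 2
  have : Prod.swap '' P ∩ Set.Icc (-r) r ×ˢ Set.Icc (-r) r =
      Prod.swap '' (P ∩ Set.Icc (-r) r ×ˢ Set.Icc (-r) r) := by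
    rw [Set.image_inter Prod.swap_injective, Set.image_swap_prod]
  rw [this, Prod.swap_injective.encard_image]

theorem swap_swap_image (P : Set (ℝ × ℝ)) : Prod.swap '' (Prod.swap '' P) = P := by
  rw [Set.image_image]; simp

theorem isLattice_swap {L : Set (ℝ × ℝ)} (hL : IsLattice L) : IsLattice (Prod.swap '' L) := by
  obtain ⟨u, v, hind, rfl⟩ := hL
  refine ⟨u.swap, v.swap, ?_, ?_⟩
  · rw [LinearIndependent.pair_iff] at hind ⊢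
    intro s t h
    apply hind s t
    have h1 := congrArg Prod.fst h
    have h2 := congrArg Prod.snd h
    simp only [Prod.fst_add, Prod.smul_fst, smul_eq_mul, Prod.fst_zero, Prod.fst_swap] at h1
    simp only [Prod.snd_add, Prod.smul_snd, smul_eq_mul, Prod.snd_zero, Prod.snd_swap] at h2
    ext
    · simpa using h2
    · simpa using h1
  · ext x
    constructor
    · rintro ⟨y, ⟨i, j, rfl⟩, rfl⟩
      exact ⟨i, j, by ext <;> simp⟩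
    · rintro ⟨i, j, rfl⟩
      exact ⟨(i : ℝ) • u + (j : ℝ) • v, ⟨i, j, rfl⟩, by ext <;> simp⟩

theorem piT_swap (w₁ h₁ w₂ h₂ : ℝ) : piT w₁ h₁ w₂ h₂ = piT h₁ w₁ h₂ w₂ := by
  unfold piT
  congr 1
  ext d
  constructor
  · rintro ⟨P, h1, h2, h3⟩
    exact ⟨Prod.swap '' P, pierces_swap h1, pierces_swap h2, by rw [dens_swap]; exact h3⟩
  · rintro ⟨P, h1, h2, h3⟩
    exact ⟨Prod.swap '' P, pierces_swap h1, pierces_swap h2, by rw [dens_swap]; exact h3⟩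

theorem piL_swap (w₁ h₁ w₂ h₂ : ℝ) : piL w₁ h₁ w₂ h₂ = piL h₁ w₁ h₂ w₂ := by
  unfold piL
  congr 1
  ext d
  constructor
  · rintro ⟨P, h0, h1, h2, h3⟩
    exact ⟨Prod.swap '' P, isLattice_swap h0, pierces_swap h1, pierces_swap h2,
      by rw [dens_swap]; exact h3⟩
  · rintro ⟨P, h0, h1, h2, h3⟩
    exact ⟨Prod.swap '' P, isLattice_swap h0, pierces_swap h1, pierces_swap h2,
      by rw [dens_swap]; exact h3⟩

/-- The pairs that are not settled: a rectangle `w₁ × h₁` that is `A` times as wide as the other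
one, which is `B` times as high, with `n < A, B < n + 1` and `A + B < 2 n + 1` for some
integer `n ≥ 2`. -/
def Rest (w₁ h₁ w₂ h₂ : ℝ) : Prop :=
  ∃ n : ℕ, 2 ≤ n ∧ n < w₁ / w₂ ∧ w₁ / w₂ < n + 1 ∧ n < h₂ / h₁ ∧ h₂ / h₁ < n + 1 ∧
    w₁ / w₂ + h₂ / h₁ < 2 * n + 1

theorem wide_tall (hS : S_Single) (hDe : S_Dens) (hD : S_LatDens) (hA : S_LatA) (hB : S_LatB)
    {w₁ h₁ w₂ h₂ : ℝ} (hw₁ : 0 < w₁) (hh₁ : 0 < h₁) (hw₂ : 0 < w₂) (hh₂ : 0 < h₂)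
    (h1 : w₂ ≤ w₁) (h2 : h₁ ≤ h₂) (hr : ¬ Rest w₁ h₁ w₂ h₂) :
    piT w₁ h₁ w₂ h₂ = piL w₁ h₁ w₂ h₂ := by
  have key : ∀ n : ℕ, (n : ℝ) < w₁ / w₂ → w₁ / w₂ < n + 1 → (n : ℝ) < h₂ / h₁ → h₂ / h₁ < n + 1 →
      piT w₁ h₁ w₂ h₂ = piL w₁ h₁ w₂ h₂ := by
    intro n a1 a2 b1 b2
    have hn : 1 ≤ n := by
      by_contra hn
      have : n = 0 := by omega
      subst this
      have : 1 ≤ w₁ / w₂ := by rw [le_div_iff₀ hw₂]; linarith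
      push_cast at a2
      linarith
    have hc : n = 1 ∨ 2 * (n : ℝ) + 1 ≤ w₁ / w₂ + h₂ / h₁ := by
      by_contra hc
      push Not at hc
      exact hr ⟨n, by omega, a1, a2, b1, b2, hc.2⟩
    obtain ⟨e1, e2⟩ := slanted hDe hD hA n hn hw₁ hh₁ hw₂ hh₂ ((lt_div_iff₀ hw₂).1 a1)
      ((div_lt_iff₀ hw₂).1 a2) ((lt_div_iff₀ hh₁).1 b1) ((div_lt_iff₀ hh₁).1 b2) hc
    rw [e1, e2]
  have hA1 : 1 ≤ w₁ / w₂ := by rw [le_div_iff₀ hw₂]; linarith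
  have hB1 : 1 ≤ h₂ / h₁ := by rw [le_div_iff₀ hh₁]; linarith
  rcases le_or_gt (w₁ / w₂) (h₂ / h₁) with hle | hlt
  · set m := ⌈w₁ / w₂⌉₊ with hm
    have hm1 : 1 ≤ m := by
      rw [hm, Nat.one_le_ceil_iff]; linarith
    have hm2 : w₁ / w₂ ≤ m := Nat.le_ceil _
    rcases le_or_gt (m : ℝ) (h₂ / h₁) with hc | hc
    · obtain ⟨e1, e2⟩ := easy hS hD hB hw₁ hh₁ m hm1 ((div_le_iff₀ hw₂).1 hm2)
        ((le_div_iff₀ hh₁).1 hc)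
      rw [e1, e2]
    · have hlt : ((m - 1 : ℕ) : ℝ) < w₁ / w₂ := by
        apply Nat.lt_ceil.1; omega
      have hcast : ((m - 1 : ℕ) : ℝ) + 1 = m := by
        have : m - 1 + 1 = m := by omega
        exact_mod_cast this
      exact key (m - 1) hlt (by linarith) (by linarith) (by linarith)
  · set m := ⌈h₂ / h₁⌉₊ with hm
    have hm1 : 1 ≤ m := by
      rw [hm, Nat.one_le_ceil_iff]; linarith
    have hm2 : h₂ / h₁ ≤ m := Nat.le_ceil _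
    rcases le_or_gt (m : ℝ) (w₁ / w₂) with hc | hc
    · obtain ⟨e1, e2⟩ := easy hS hD hB (w₁ := h₂) (h₁ := w₂) (w₂ := h₁) (h₂ := w₁) hh₂ hw₂ m hm1
        ((div_le_iff₀ hh₁).1 hm2) ((le_div_iff₀ hw₂).1 hc)
      rw [piT_comm, piT_swap, piL_comm, piL_swap, e1, e2]
    · have hlt : ((m - 1 : ℕ) : ℝ) < h₂ / h₁ := by
        apply Nat.lt_ceil.1; omega
      have hcast : ((m - 1 : ℕ) : ℝ) + 1 = m := by
        have : m - 1 + 1 = m := by omega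
        exact_mod_cast this
      exact key (m - 1) (by linarith) (by linarith) hlt (by linarith)

theorem all_pairs (hS : S_Single) (hDe : S_Dens) (hD : S_LatDens) (hA : S_LatA) (hB : S_LatB)
    {w₁ h₁ w₂ h₂ : ℝ} (hw₁ : 0 < w₁) (hh₁ : 0 < h₁) (hw₂ : 0 < w₂) (hh₂ : 0 < h₂)
    (hr : ¬ Rest w₁ h₁ w₂ h₂) (hr' : ¬ Rest w₂ h₂ w₁ h₁) :
    piT w₁ h₁ w₂ h₂ = piL w₁ h₁ w₂ h₂ := by
  rcases le_total w₁ w₂ with h1 | h1 <;> rcases le_total h₁ h₂ with h2 | h2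
  · obtain ⟨e1, e2⟩ := easy hS hD hB hw₁ hh₁ 1 le_rfl (w₂ := w₂) (h₂ := h₂) (by simpa using h1)
      (by simpa using h2)
    rw [e1, e2]
  · rw [piT_comm, piL_comm]
    exact wide_tall hS hDe hD hA hB hw₂ hh₂ hw₁ hh₁ h1 h2 hr'
  · exact wide_tall hS hDe hD hA hB hw₁ hh₁ hw₂ hh₂ h1 h2 hr
  · obtain ⟨e1, e2⟩ := easy hS hD hB hw₂ hh₂ 1 le_rfl (w₂ := w₁) (h₂ := h₁) (by simpa using h1)
      (by simpa using h2)
    rw [piT_comm, piL_comm, e1, e2]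

end Pool.Agent.H673.PR
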