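import Pool.Agent.H673.PR.Defs

/-!
# Piercing two rectangles: statements of the pieces

Plan (MP_aad70b_co, Dumitrescu-Tkadlec piercing problem for two rectangles).  After scaling the two
rectangles are `A × 1` and `1 × B`, `A = n + α`, `B = n + β`.  We prove that for `α + β ≥ 1` (or
`n = 1`) a piercing set has density at least `1 / (1 + (A-1)(B-1)/n)`, the density of a lattice.
-/

set_option autoImplicit false

open MeasureTheory Set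

namespace Pool.Agent.H673.PR

/-! ## A purely combinatorial lemma on grids -/

/-- there is a marked cell strictly south-west of `(i, j)` -/
def SW (B : ℤ → ℤ → Prop) (i j : ℤ) : Prop := ∃ i' j', i' < i ∧ j' < j ∧ B i' j'
/-- there is a marked cell strictly south-east of `(i, j)` -/
def SE (B : ℤ → ℤ → Prop) (i j : ℤ) : Prop := ∃ i' j', i < i' ∧ j' < j ∧ B i' j'
/-- there is a marked cell strictly north-west of `(i, j)` -/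
def NW (B : ℤ → ℤ → Prop) (i j : ℤ) : Prop := ∃ i' j', i' < i ∧ j < j' ∧ B i' j'
/-- there is a marked cell strictly north-east of `(i, j)` -/
def NE (B : ℤ → ℤ → Prop) (i j : ℤ) : Prop := ∃ i' j', i < i' ∧ j < j' ∧ B i' j'

/-- Marked cells `B i j` (`0 ≤ i, j < n`), marked vertices `G i j` and weights `W i j` of
vertices (`0 ≤ i, j ≤ n`).  The corners of the cell `(i, j)` are the vertices `(i, j)` (south-west),
`(i+1, j)` (south-east), `(i, j+1)` (north-west) and `(i+1, j+1)` (north-east). -/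
structure Poly (n : ℕ) (B G : ℤ → ℤ → Prop) (W : ℤ → ℤ → ℕ) : Prop where
  rng : ∀ i j, B i j → 0 ≤ i ∧ i < n ∧ 0 ≤ j ∧ j < n
  row : ∀ i i' i'' j, B i j → B i'' j → i ≤ i' → i' ≤ i'' → B i' j
  col : ∀ i j j' j'', B i j → B i j'' → j ≤ j' → j' ≤ j'' → B i j'
  wt2 : ∀ i j, G i j → 1 ≤ i → i < n → 1 ≤ j → j < n → 2 ≤ W i j
  wt1x : ∀ i j, G i j → 1 ≤ i → i < n → 0 ≤ j → j ≤ n → 1 ≤ W i j
  wt1y : ∀ i j, G i j → 0 ≤ i → i ≤ n → 1 ≤ j → j < n → 1 ≤ W i j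
  eh : ∀ i j, B i j → B (i + 1) j → G (i + 1) j ∧ G (i + 1) (j + 1)
  ev : ∀ i j, B i j → B i (j + 1) → G i (j + 1) ∧ G (i + 1) (j + 1)
  t1 : ∀ i j, B i j → SW B i j → NE B i j → G i (j + 1) ∧ G (i + 1) j
  t2 : ∀ i j, B i j → SE B i j → NW B i j → G i j ∧ G (i + 1) (j + 1)
  t3 : ∀ i j, B i j → SW B i j → NW B i j → G i j ∧ G i (j + 1)
  t4 : ∀ i j, B i j → SE B i j → NE B i j → G (i + 1) j ∧ G (i + 1) (j + 1)
  uSW : ∀ i j, B i j → SW B i j → ¬ G i j → ¬ NW B i j ∧ ¬ SE B i j ∧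
    (1 ≤ W i (j + 1) ∨ 1 ≤ W (i + 1) j ∨ 1 ≤ W (i + 1) (j + 1))
  uSE : ∀ i j, B i j → SE B i j → ¬ G (i + 1) j → ¬ SW B i j ∧ ¬ NE B i j ∧
    (1 ≤ W i j ∨ 1 ≤ W (i + 1) (j + 1) ∨ 1 ≤ W i (j + 1))
  uNW : ∀ i j, B i j → NW B i j → ¬ G i (j + 1) → ¬ SW B i j ∧ ¬ NE B i j ∧
    (1 ≤ W i j ∨ 1 ≤ W (i + 1) (j + 1) ∨ 1 ≤ W (i + 1) j)
  uNE : ∀ i j, B i j → NE B i j → ¬ G (i + 1) (j + 1) → ¬ NW B i j ∧ ¬ SE B i j ∧
    (1 ≤ W i (j + 1) ∨ 1 ≤ W (i + 1) j ∨ 1 ≤ W i j)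

open Classical in
/-- The grid lemma. -/
def S_PL : Prop := ∀ (n : ℕ) (B G : ℤ → ℤ → Prop) (W : ℤ → ℤ → ℕ), Poly n B G W →
  2 * ∑ i ∈ Finset.range n, ∑ j ∈ Finset.range n, (if B i j then 1 else 0) ≤
    2 + ∑ i ∈ Finset.range (n + 1), ∑ j ∈ Finset.range (n + 1), W i j

/-! ## Boxes -/

/-- Counting inequality for one box. -/
def S_K1 : Prop := ∀ (n : ℕ) (A B : ℝ) (F : Finset (ℝ × ℝ)) (q : ℝ × ℝ), 2 ≤ n →
  (n : ℝ) < A → A < n + 1 → (n : ℝ) < B → B < n + 1 → LocPierce F A B q →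
  2 * n * (n + 1) + ∑ p ∈ F, w2 n A B F q p ≤
    2 * n * cnt F A B q + (if cnt F A B q = n then 2 * n else 0)

/-- A box containing a point in an `L` position has at least `n + 1` points. -/
def S_L : Prop := ∀ (n : ℕ) (A B : ℝ) (F : Finset (ℝ × ℝ)) (q p : ℝ × ℝ), 1 ≤ n →
  (n : ℝ) < A → A < n + 1 → (n : ℝ) < B → B < n + 1 → LocPierce F A B q → p ∈ F →
  p ∈ hbox A B q →
  ((∃ i : ℕ, i ≤ n ∧ q.1 + i ≤ p.1 ∧ p.1 < q.1 + i + (A - n)) ∨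
    (∃ j : ℕ, j ≤ n ∧ q.2 + j ≤ p.2 ∧ p.2 < q.2 + j + (B - n))) →
  n + 1 ≤ cnt F A B q

/-- The pointwise inequality around a point `p`. -/
def S_Comb : Prop := ∀ (n : ℕ) (α β : ℝ) (F : Finset (ℝ × ℝ)) (p : ℝ × ℝ), 2 ≤ n →
  0 < α → α < 1 → 0 < β → β < 1 → p ∈ F →
  (∀ q, p ∈ hbox (n + α) (n + β) q → LocPierce F (n + α) (n + β) q) →
  ∀ s t : ℝ × ℝ, 0 < s.1 → s.1 ≤ 1 - α → 0 < s.2 → s.2 ≤ 1 - β →
    0 ≤ t.1 → t.1 < α → 0 ≤ t.2 → t.2 < β →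
  2 * ∑ i ∈ Finset.range n, ∑ j ∈ Finset.range n,
      (if cnt F (n + α) (n + β) (p - ((i : ℝ) + 1, (j : ℝ) + 1) + s) = n then 1 else 0) ≤
    2 + ∑ i ∈ Finset.range (n + 1), ∑ j ∈ Finset.range (n + 1),
      wpos n (n + α) (n + β) F i j (p - ((i : ℝ), (j : ℝ)) - t)

/-- The integrated inequality around a point `p`. -/
def S_P1 : Prop := ∀ (n : ℕ) (α β : ℝ) (F : Finset (ℝ × ℝ)) (p : ℝ × ℝ), 2 ≤ n →
  0 < α → α < 1 → 0 < β → β < 1 → 1 ≤ α + β → p ∈ F →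
  (∀ q, p ∈ hbox (n + α) (n + β) q → LocPierce F (n + α) (n + β) q) →
  2 * ∫⁻ q in {q : ℝ × ℝ | p ∈ hbox (n + α) (n + β) q},
      (if cnt F (n + α) (n + β) q = n then 1 else 0 : ENNReal) ≤
    2 * ENNReal.ofReal ((1 - α) * (1 - β)) +
      ∫⁻ q, ((w2 n (n + α) (n + β) F q p : ℕ) : ENNReal)

/-- The integrated inequality around a point `p` for `n = 1`. -/
def S_P1one : Prop := ∀ (α β : ℝ) (F : Finset (ℝ × ℝ)) (p : ℝ × ℝ),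
  0 < α → α < 1 → 0 < β → β < 1 → p ∈ F →
  (∀ q, p ∈ hbox (1 + α) (1 + β) q → LocPierce F (1 + α) (1 + β) q) →
  ∫⁻ q in {q : ℝ × ℝ | p ∈ hbox (1 + α) (1 + β) q},
      (if cnt F (1 + α) (1 + β) q = 1 then 1 else 0 : ENNReal) ≤
    ENNReal.ofReal ((1 - α) * (1 - β))

/-- The counting inequality in a large window. -/
def S_Count : Prop := ∀ (n : ℕ) (α β X Y : ℝ) (F : Finset (ℝ × ℝ)), 1 ≤ n →
  0 < α → α < 1 → 0 < β → β < 1 → (n = 1 ∨ 1 ≤ α + β) →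
  3 * (n + α) ≤ 2 * X → 3 * (n + β) ≤ 2 * Y →
  (∀ e ∈ F, e ∈ Icc (-X) X ×ˢ Icc (-Y) Y) →
  (∀ q, hbox (n + α) (n + β) q ⊆ Icc (-X) X ×ˢ Icc (-Y) Y →
    LocPierce F (n + α) (n + β) q) →
  (n : ℝ) * ((2 * X - 3 * (n + α)) * (2 * Y - 3 * (n + β))) ≤
    F.card * (n + (n + α - 1) * (n + β - 1))

/-! ## Densities -/

/-- Lower bound of the density of a set piercing both rectangles. -/
def S_Dens : Prop := ∀ (n : ℕ) (w₁ h₁ w₂ h₂ : ℝ), 1 ≤ n → 0 < w₁ → 0 < h₁ → 0 < w₂ → 0 < h₂ →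
  n * w₂ < w₁ → w₁ < (n + 1) * w₂ → n * h₁ < h₂ → h₂ < (n + 1) * h₁ →
  (n = 1 ∨ 2 * (n : ℝ) + 1 ≤ w₁ / w₂ + h₂ / h₁) →
  ∀ P : Set (ℝ × ℝ), Pierces P w₁ h₁ → Pierces P w₂ h₂ →
    ENNReal.ofReal (n / (w₂ * h₁ * (n + (w₁ / w₂ - 1) * (h₂ / h₁ - 1)))) ≤ dens P

/-- Lower bound of the density of a set piercing one rectangle. -/
def S_Single : Prop := ∀ (w h : ℝ), 0 < w → 0 < h → ∀ P : Set (ℝ × ℝ), Pierces P w h →
  ENNReal.ofReal (1 / (w * h)) ≤ dens P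

/-- The density of a lattice is at most one over its determinant. -/
def S_LatDens : Prop := ∀ u v : ℝ × ℝ, u.1 * v.2 - u.2 * v.1 ≠ 0 →
  dens {x | ∃ i j : ℤ, x = (i : ℝ) • u + (j : ℝ) • v} ≤
    ENNReal.ofReal (1 / |u.1 * v.2 - u.2 * v.1|)

/-- The slanted lattice pierces both rectangles. -/
def S_LatA : Prop := ∀ (n : ℕ) (w₁ h₁ w₂ h₂ : ℝ), 1 ≤ n → 0 < h₁ → 0 < w₂ →
  n * w₂ < w₁ → w₁ < (n + 1) * w₂ → n * h₁ < h₂ → h₂ < (n + 1) * h₁ →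
  ∀ L : Set (ℝ × ℝ), L = {x | ∃ i j : ℤ, x = (i : ℝ) • ((w₂ - (w₁ - w₂) / n, h₂) : ℝ × ℝ) +
    (j : ℝ) • (((w₁ - w₂) / n, -h₁) : ℝ × ℝ)} → Pierces L w₁ h₁ ∧ Pierces L w₂ h₂

/-- The lattice with basis `(w₁, 0)`, `(w₁ / m, h₁)` pierces both rectangles. -/
def S_LatB : Prop := ∀ (m : ℕ) (w₁ h₁ w₂ h₂ : ℝ), 1 ≤ m → 0 < w₁ → 0 < h₁ →
  w₁ ≤ m * w₂ → m * h₁ ≤ h₂ →
  ∀ L : Set (ℝ × ℝ), L = {x | ∃ i j : ℤ, x = (i : ℝ) • ((w₁, 0) : ℝ × ℝ) +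
    (j : ℝ) • ((w₁ / m, h₁) : ℝ × ℝ)} → Pierces L w₁ h₁ ∧ Pierces L w₂ h₂

end Pool.Agent.H673.PR
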